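import Mathlib

set_option autoImplicit false

namespace Pool.Agent.Helper58.EN

open Matrix

variable {ι : Type} [Fintype ι] [DecidableEq ι]

/-- the transvection `1 + x E_ij` as a unit of the matrix ring. -/
def tv {R : Type} [Ring R] (i j : ι) (h : i ≠ j) (x : R) : (Matrix ι ι R)ˣ where
  val := 1 + Matrix.single i j x
  inv := 1 + Matrix.single i j (-x)
  val_inv := by
    have h1 : Matrix.single i j x * Matrix.single i j (-x) = 0 :=
      Matrix.single_mul_single_of_ne _ _ _ _ (Ne.symm h) _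
    have h2 : Matrix.single i j (-x) = - Matrix.single i j x := by
      rw [Matrix.single_neg]
    rw [mul_add, add_mul, add_mul, h1, h2]
    simp
  inv_val := by
    have h1 : Matrix.single i j (-x) * Matrix.single i j x = 0 :=
      Matrix.single_mul_single_of_ne _ _ _ _ (Ne.symm h) _
    have h2 : Matrix.single i j (-x) = - Matrix.single i j x := by
      rw [Matrix.single_neg]
    rw [mul_add, add_mul, add_mul, h1, h2]
    simp

/-- the subgroup generated by the transvections with entry in `s`. -/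
def EL (ι : Type) [Fintype ι] [DecidableEq ι] {R : Type} [Ring R] (s : Set R) :
    Subgroup (Matrix ι ι R)ˣ :=
  Subgroup.closure {g | ∃ i j, ∃ h : i ≠ j, ∃ x ∈ s, g = tv i j h x}

/-- the elementary subgroup. -/
def El (ι : Type) [Fintype ι] [DecidableEq ι] (R : Type) [Ring R] :
    Subgroup (Matrix ι ι R)ˣ := EL ι (Set.univ : Set R)

/-- functoriality of the general linear group. -/
def mapGL {R S : Type} [Ring R] [Ring S] (f : R →+* S) :
    (Matrix ι ι R)ˣ →* (Matrix ι ι S)ˣ :=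
  Units.map (f.mapMatrix : Matrix ι ι R →+* Matrix ι ι S).toMonoidHom

/-- invertible diagonal matrices. -/
def dg {R : Type} [Ring R] (d : ι → Rˣ) : (Matrix ι ι R)ˣ where
  val := Matrix.diagonal (fun i => (d i : R))
  inv := Matrix.diagonal (fun i => (((d i)⁻¹ : Rˣ) : R))
  val_inv := by
    rw [Matrix.diagonal_mul_diagonal]
    simp
  inv_val := by
    rw [Matrix.diagonal_mul_diagonal]
    simp

/-- `g` conjugates the elementary subgroup into itself. -/
def NE {R : Type} [Ring R] (g : (Matrix ι ι R)ˣ) : Prop :=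
  ∀ e ∈ El ι R, g * e * g⁻¹ ∈ El ι R

/-- local nilpotency of a subset of a ring. -/
def LN {R : Type} [Ring R] (I : Set R) : Prop :=
  ∀ X : Finset R, (↑X ⊆ I) → ∃ N : ℕ, ∀ l : List R, (∀ x ∈ l, x ∈ X) → l.length = N → l.prod = 0

/-- generated as a ring by a finite set. -/
def FG (R : Type) [Ring R] : Prop := ∃ X : Finset R, Subring.closure (X : Set R) = ⊤

/-- the multilinear polynomial identity with coefficients `c`. -/
def PI (d : ℕ) (c : Equiv.Perm (Fin d) → ℤ) (R : Type) [Ring R] : Prop :=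
  ∀ x : Fin d → R,
    ∑ σ : Equiv.Perm (Fin d), ((c σ : ℤ) : R) * (List.ofFn (fun i => x (σ i))).prod = 0

/-- every linear group element is elementary times diagonal. -/
def GE (ι : Type) [Fintype ι] [DecidableEq ι] (R : Type) [Ring R] : Prop :=
  ∀ g : (Matrix ι ι R)ˣ, ∃ e ∈ El ι R, ∃ d : ι → Rˣ, g = e * dg d

section basic
variable {R : Type} [Ring R]

@[simp] theorem tv_val (i j : ι) (h : i ≠ j) (x : R) :
    ((tv i j h x : (Matrix ι ι R)ˣ) : Matrix ι ι R) = 1 + Matrix.single i j x := rfl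

theorem tv_mem {s : Set R} (i j : ι) (h : i ≠ j) {x : R} (hx : x ∈ s) : tv i j h x ∈ EL ι s :=
  Subgroup.subset_closure ⟨i, j, h, x, hx, rfl⟩

theorem tv_mem' (i j : ι) (h : i ≠ j) (x : R) : tv i j h x ∈ El ι R :=
  tv_mem i j h (Set.mem_univ x)

theorem EL_mono {s t : Set R} (h : s ⊆ t) : EL ι s ≤ EL ι t := by
  apply Subgroup.closure_mono
  rintro g ⟨i, j, hij, x, hx, rfl⟩
  exact ⟨i, j, hij, x, h hx, rfl⟩

theorem EL_le_El {s : Set R} : EL ι s ≤ El ι R := EL_mono (Set.subset_univ s)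

theorem tv_add (i j : ι) (h : i ≠ j) (x y : R) : tv i j h (x + y) = tv i j h x * tv i j h y := by
  ext : 1
  simp only [tv_val, Units.val_mul]
  rw [mul_add, add_mul, add_mul, Matrix.single_mul_single_of_ne _ _ _ _ (Ne.symm h),
    Matrix.single_add]
  simp [add_assoc]

@[simp] theorem tv_zero (i j : ι) (h : i ≠ j) : tv i j h (0 : R) = 1 := by
  ext : 1
  simp

theorem tv_inv (i j : ι) (h : i ≠ j) (x : R) : (tv i j h x)⁻¹ = tv i j h (-x) := by
  rw [inv_eq_iff_mul_eq_one, ← tv_add]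
  simp

/-- Steinberg relation. -/
theorem tv_comm (i j k : ι) (hij : i ≠ j) (hjk : j ≠ k) (hik : i ≠ k) (x y : R) :
    tv i j hij x * tv j k hjk y * (tv i j hij x)⁻¹ * (tv j k hjk y)⁻¹ = tv i k hik (x * y) := by
  rw [tv_inv, tv_inv]
  ext : 1
  simp only [tv_val, Units.val_mul]
  simp only [mul_add, add_mul, mul_one, one_mul, Matrix.single_mul_single_same,
    Matrix.single_mul_single_of_ne _ _ _ _ (Ne.symm hij), Matrix.single_mul_single_of_ne _ _ _ _ (Ne.symm hjk),
    Matrix.single_mul_single_of_ne _ _ _ _ (Ne.symm hik), ← Matrix.single_neg, mul_neg, neg_mul,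
    zero_mul, mul_zero, neg_zero]
  abel

/-- Steinberg relation: conjugation form. -/
theorem tv_conj_right (i j k : ι) (hij : i ≠ j) (hjk : j ≠ k) (hik : i ≠ k) (x y : R) :
    tv i j hij x * tv j k hjk y * (tv i j hij x)⁻¹ = tv i k hik (x * y) * tv j k hjk y := by
  rw [← tv_comm i j k hij hjk hik, inv_mul_cancel_right]

theorem tv_conj_left (i j k : ι) (hij : i ≠ j) (hki : k ≠ i) (hkj : k ≠ j) (x y : R) :
    tv i j hij x * tv k i hki y * (tv i j hij x)⁻¹ = tv k j hkj (-(y * x)) * tv k i hki y := by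
  rw [tv_inv]
  ext : 1
  simp only [tv_val, Units.val_mul]
  simp only [mul_add, add_mul, mul_one, one_mul, Matrix.single_mul_single_same,
    Matrix.single_mul_single_of_ne _ _ _ _ (Ne.symm hij), Matrix.single_mul_single_of_ne _ _ _ _ (Ne.symm hki),
    Matrix.single_mul_single_of_ne _ _ _ _ (Ne.symm hkj), ← Matrix.single_neg, mul_neg, neg_mul,
    zero_mul, mul_zero, neg_zero]
  abel

/-- Steinberg relation: commuting transvections. -/
theorem tv_commute (i j k l : ι) (hij : i ≠ j) (hkl : k ≠ l) (hjk : j ≠ k) (hil : i ≠ l) (x y : R) :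
    tv i j hij x * tv k l hkl y * (tv i j hij x)⁻¹ = tv k l hkl y := by
  rw [mul_inv_eq_iff_eq_mul]
  ext : 1
  simp only [tv_val, Units.val_mul]
  simp only [mul_add, add_mul, mul_one, one_mul,
    Matrix.single_mul_single_of_ne _ _ _ _ hjk, Matrix.single_mul_single_of_ne _ _ _ _ (Ne.symm hil)]
  abel

@[simp] theorem dg_val (d : ι → Rˣ) :
    ((dg d : (Matrix ι ι R)ˣ) : Matrix ι ι R) = Matrix.diagonal (fun i => (d i : R)) := rfl

theorem dg_mul (d d' : ι → Rˣ) : dg (d * d') = dg d * dg d' := by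
  ext : 1
  simp [Matrix.diagonal_mul_diagonal]

theorem dg_inv (d : ι → Rˣ) : (dg d)⁻¹ = dg d⁻¹ := by
  rw [inv_eq_iff_mul_eq_one, ← dg_mul]
  ext : 1
  simp

theorem dg_conj (d : ι → Rˣ) (i j : ι) (h : i ≠ j) (x : R) :
    dg d * tv i j h x * (dg d)⁻¹ = tv i j h ((d i : R) * x * ((d j)⁻¹ : Rˣ)) := by
  rw [dg_inv]
  ext : 1
  simp only [Units.val_mul, dg_val, tv_val, Pi.inv_apply]
  rw [mul_add, add_mul, mul_one, Matrix.diagonal_mul_diagonal]
  congr 1
  · simp
  · ext a b
    simp only [Matrix.mul_diagonal, Matrix.diagonal_mul, Matrix.single_apply]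
    by_cases h1 : i = a ∧ j = b
    · obtain ⟨rfl, rfl⟩ := h1
      simp
    · simp [h1]

@[simp] theorem mapGL_val {S : Type} [Ring S] (f : R →+* S) (g : (Matrix ι ι R)ˣ) :
    ((mapGL f g : (Matrix ι ι S)ˣ) : Matrix ι ι S) = (g : Matrix ι ι R).map f := rfl

theorem mapGL_tv {S : Type} [Ring S] (f : R →+* S) (i j : ι) (h : i ≠ j) (x : R) :
    mapGL f (tv i j h x) = tv i j h (f x) := by
  ext : 1
  simp only [mapGL_val, tv_val]
  rw [Matrix.map_add _ (map_add f), Matrix.map_one _ (map_zero f) (map_one f)]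
  congr 1
  rw [Matrix.map_single]

theorem mapGL_EL {S : Type} [Ring S] (f : R →+* S) (s : Set R) :
    (EL ι s).map (mapGL f) = EL ι (f '' s) := by
  unfold EL
  rw [MonoidHom.map_closure]
  congr 1
  ext g
  constructor
  · rintro ⟨_, ⟨i, j, h, x, hx, rfl⟩, rfl⟩
    exact ⟨i, j, h, f x, ⟨x, hx, rfl⟩, mapGL_tv f i j h x⟩
  · rintro ⟨i, j, h, _, ⟨x, hx, rfl⟩, rfl⟩
    exact ⟨_, ⟨i, j, h, x, hx, rfl⟩, mapGL_tv f i j h x⟩

theorem mapGL_mem {S : Type} [Ring S] (f : R →+* S) {g : (Matrix ι ι R)ˣ} (hg : g ∈ El ι R) :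
    mapGL f g ∈ El ι S := by
  have := Subgroup.mem_map_of_mem (mapGL f) hg
  rw [El, mapGL_EL] at this
  exact EL_le_El this

theorem El_map_surj {S : Type} [Ring S] (f : R →+* S) (hf : Function.Surjective f) :
    (El ι R).map (mapGL f) = El ι S := by
  rw [El, mapGL_EL, Set.image_univ, hf.range_eq]; rfl

theorem mapGL_comp {S T : Type} [Ring S] [Ring T] (f : R →+* S) (f' : S →+* T)
    (g : (Matrix ι ι R)ˣ) : mapGL (f'.comp f) g = mapGL f' (mapGL f g) := by
  ext : 1
  simp [Matrix.map_map]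

theorem mapGL_injective {S : Type} [Ring S] (f : R →+* S) (hf : Function.Injective f) :
    Function.Injective (mapGL (ι := ι) f) := by
  intro a b hab
  have h1 : ((mapGL f a : (Matrix ι ι S)ˣ) : Matrix ι ι S) = mapGL f b := by rw [hab]
  simp only [mapGL_val] at h1
  ext i j
  have := congrFun (congrFun h1 i) j
  exact hf this

end basic

/-- `f : R → B` is a localisation of the `Z`-algebra `R` at the submonoid `S` of `Z`. -/
structure Loc {Z R B : Type} [CommRing Z] [Ring R] [Algebra Z R] [Ring B] (S : Submonoid Z)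
    (f : R →+* B) : Prop where
  unit : ∀ s ∈ S, IsUnit (f (algebraMap Z R s))
  surj : ∀ b : B, ∃ s ∈ S, ∃ r : R, f (algebraMap Z R s) * b = f r
  ker : ∀ r : R, f r = 0 → ∃ s ∈ S, s • r = 0
  central : ∀ (z : Z) (b : B), f (algebraMap Z R z) * b = b * f (algebraMap Z R z)


end Pool.Agent.Helper58.EN
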