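import Pool.Agent.Helper58.EN.Defs

set_option autoImplicit false

namespace Pool.Agent.Helper58.EN

open Matrix

variable {ι : Type} [Fintype ι] [DecidableEq ι]


section statements
open Polynomial

theorem tv_mul_apply {R : Type} [Ring R] (k l : ι) (h : k ≠ l) (x : R) (b : Matrix ι ι R)
    (i j : ι) : (((tv k l h x : (Matrix ι ι R)ˣ) : Matrix ι ι R) * b) i j =
      b i j + (if i = k then x * b l j else 0) := by
  rw [tv_val, add_mul, one_mul, Matrix.add_apply]
  congr 1
  rw [Matrix.mul_apply]
  by_cases hik : i = k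
  · subst hik
    rw [if_pos rfl, Finset.sum_eq_single l]
    · simp
    · intro m _ hm
      rw [Matrix.single_apply, if_neg (fun hh => hm hh.2.symm), zero_mul]
    · simp
  · rw [if_neg hik]
    apply Finset.sum_eq_zero
    intro m _
    rw [Matrix.single_apply, if_neg (fun hh => hik hh.1.symm), zero_mul]

theorem rowop {R : Type} [Ring R] (j0 : ι) (c : ι → R) (K : Finset ι) (hK : j0 ∉ K) :
    ∃ e ∈ El ι R, ∀ (b : Matrix ι ι R) (i j : ι),
      ((e : Matrix ι ι R) * b) i j = b i j + (if i ∈ K then c i * b j0 j else 0) := by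
  induction K using Finset.induction_on with
  | empty =>
    refine ⟨1, one_mem _, ?_⟩
    intro b i j
    simp
  | insert k K hk ih =>
    rw [Finset.mem_insert, not_or] at hK
    obtain ⟨e, he, h1⟩ := ih hK.2
    refine ⟨tv k j0 (Ne.symm hK.1) (c k) * e, mul_mem (tv_mem' _ _ _ _) he, ?_⟩
    intro b i j
    rw [Units.val_mul, mul_assoc, tv_mul_apply, h1 b i j, h1 b j0 j, if_neg hK.2, add_zero]
    by_cases hik : i = k
    · subst hik
      simp [hk]
    · simp [hik]

theorem gauss_aux {R : Type} [Ring R] (J : Ideal R) [J.IsTwoSided] (hJ : ∀ x ∈ J, IsUnit (1 + x))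
    (a : Matrix ι ι R) (hoff : ∀ i j, i ≠ j → a i j ∈ J) (hdiag : ∀ i, IsUnit (a i i))
    (T : Finset ι) :
    ∃ e ∈ El ι R, (∀ i j, i ≠ j → ((e : Matrix ι ι R) * a) i j ∈ J) ∧
      (∀ i, ((e : Matrix ι ι R) * a) i i - a i i ∈ J) ∧
      (∀ i, IsUnit (((e : Matrix ι ι R) * a) i i)) ∧
      ∀ j ∈ T, ∀ i, i ≠ j → ((e : Matrix ι ι R) * a) i j = 0 := by
  induction T using Finset.induction_on with
  | empty =>
    refine ⟨1, one_mem _, ?_, ?_, ?_, ?_⟩
    · simpa using hoff
    · simp
    · simpa using hdiag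
    · simp
  | insert j0 T hj0 ih =>
    obtain ⟨e, he, h1, h2, h3, h4⟩ := ih
    set b : Matrix ι ι R := (e : Matrix ι ι R) * a with hb
    obtain ⟨u, hu⟩ := h3 j0
    obtain ⟨f, hf, h5⟩ := rowop j0 (fun i => -(b i j0) * ((u⁻¹ : Rˣ) : R)) (Finset.univ.erase j0)
      (by simp)
    have h6 : ∀ i j, (((f * e : (Matrix ι ι R)ˣ) : Matrix ι ι R) * a) i j =
        b i j + (if i ≠ j0 then -(b i j0) * ((u⁻¹ : Rˣ) : R) * b j0 j else 0) := by
      intro i j
      rw [Units.val_mul, mul_assoc, ← hb, h5 b i j]
      simp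
    have hc : ∀ i, i ≠ j0 → ∀ y : R, -(b i j0) * ((u⁻¹ : Rˣ) : R) * y ∈ J := by
      intro i hi y
      exact J.mul_mem_right _ (J.mul_mem_right _ (J.neg_mem (h1 i j0 hi)))
    have hun : ∀ i, ∀ y ∈ J, IsUnit (b i i + y) := by
      intro i y hy
      obtain ⟨w, hw⟩ := h3 i
      have : b i i + y = (w : R) * (1 + ((w⁻¹ : Rˣ) : R) * y) := by
        rw [mul_add, mul_one, ← mul_assoc, Units.mul_inv, one_mul, hw]
      rw [this]
      exact w.isUnit.mul (hJ _ (J.mul_mem_left _ hy))
    refine ⟨f * e, mul_mem hf he, ?_, ?_, ?_, ?_⟩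
    · intro i j hij
      rw [h6]
      by_cases hi : i = j0
      · rw [if_neg (by simpa using hi), add_zero]
        exact h1 i j hij
      · rw [if_pos hi]
        exact J.add_mem (h1 i j hij) (hc i hi _)
    · intro i
      rw [h6]
      by_cases hi : i = j0
      · rw [if_neg (by simpa using hi), add_zero]
        exact h2 i
      · rw [if_pos hi]
        have := J.add_mem (h2 i) (hc i hi (b j0 i))
        convert this using 1
        abel
    · intro i
      rw [h6]
      by_cases hi : i = j0
      · rw [if_neg (by simpa using hi), add_zero]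
        exact h3 i
      · rw [if_pos hi]
        exact hun i _ (hc i hi _)
    · intro j hj i hij
      rw [h6]
      rw [Finset.mem_insert] at hj
      by_cases hjj : j = j0
      · subst hjj
        rw [if_pos hij, ← hu, mul_assoc, Units.inv_mul, mul_one]
        abel
      · have hjT := hj.resolve_left hjj
        rw [h4 j hjT i hij, h4 j hjT j0 (fun hh => hjj hh.symm), mul_zero, zero_add]
        simp

theorem gauss {R : Type} [Ring R] (J : Ideal R) [J.IsTwoSided] (hJ : ∀ x ∈ J, IsUnit (1 + x))
    (h : (Matrix ι ι R)ˣ) (hoff : ∀ i j, i ≠ j → (h : Matrix ι ι R) i j ∈ J)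
    (hdiag : ∀ i, IsUnit ((h : Matrix ι ι R) i i)) :
    ∃ e ∈ El ι R, ∃ d : ι → Rˣ, (∀ i, (d i : R) - (h : Matrix ι ι R) i i ∈ J) ∧ h = e * dg d := by
  obtain ⟨e, he, h1, h2, h3, h4⟩ := gauss_aux J hJ (h : Matrix ι ι R) hoff hdiag Finset.univ
  choose d hd using h3
  refine ⟨e⁻¹, inv_mem he, d, ?_, ?_⟩
  · intro i
    rw [hd i]
    exact h2 i
  · rw [eq_inv_mul_iff_mul_eq]
    ext : 1
    rw [Units.val_mul, dg_val]
    ext i j
    by_cases hij : i = j
    · subst hij
      rw [Matrix.diagonal_apply_eq, hd i]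
    · rw [Matrix.diagonal_apply_ne _ hij]
      exact h4 j (Finset.mem_univ _) i hij

theorem GE_aux {D : Type} [DivisionRing D] (g : (Matrix ι ι D)ˣ) (T : Finset ι) :
    ∃ e ∈ El ι D, ∀ j ∈ T, (∀ i, i ≠ j → ((e : Matrix ι ι D) * (g : Matrix ι ι D)) i j = 0) ∧
      ((e : Matrix ι ι D) * (g : Matrix ι ι D)) j j ≠ 0 := by
  induction T using Finset.induction_on with
  | empty => exact ⟨1, one_mem _, by simp⟩
  | insert j0 T hj0 ih =>
    obtain ⟨e, he, h1⟩ := ih
    set b : Matrix ι ι D := (e : Matrix ι ι D) * (g : Matrix ι ι D) with hb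
    have hbu : b = ((e * g : (Matrix ι ι D)ˣ) : Matrix ι ι D) := by rw [hb, Units.val_mul]
    -- a nonzero entry
    have h2 : ∃ i, i ∉ T ∧ b i j0 ≠ 0 := by
      by_contra hcon
      push Not at hcon
      let v : ι → D := fun j => if j = j0 then -1 else if j ∈ T then (b j j)⁻¹ * b j j0 else 0
      have hv : b *ᵥ v = 0 := by
        ext i
        rw [Matrix.mulVec, dotProduct, Pi.zero_apply]
        have hsum : ∀ j, b i j * v j =
            (if j = j0 then -(b i j0) else 0) + (if j = i then (if i ∈ T then b i j0 else 0) else 0)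
            := by
          intro j
          by_cases hj : j = j0
          · subst hj
            by_cases hji : j = i
            · subst hji
              simp [v, hj0]
            · simp [v, hji]
          · by_cases hjT : j ∈ T
            · by_cases hji : j = i
              · subst hji
                have hne := (h1 j hjT).2
                simp only [v, if_neg hj, if_pos hjT, if_true, zero_add]
                rw [← mul_assoc, mul_inv_cancel₀ hne, one_mul]
              · have hz := (h1 j hjT).1 i (fun hh => hji hh.symm)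
                simp [hz, hj, hji]
            · by_cases hji : j = i
              · subst hji
                simp [v, hj, hjT]
              · simp [v, hj, hji, hjT]
        rw [Finset.sum_congr rfl (fun j _ => hsum j), Finset.sum_add_distrib,
          Finset.sum_ite_eq' , Finset.sum_ite_eq']
        simp only [Finset.mem_univ, if_true]
        by_cases hi : i ∈ T
        · simp [hi]
        · simp [hi, hcon i hi]
      have hv0 : v = 0 := by
        have h3 := congrArg (fun w => ((((e * g)⁻¹ : (Matrix ι ι D)ˣ)) : Matrix ι ι D) *ᵥ w) hv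
        simp only [Matrix.mulVec_mulVec, Matrix.mulVec_zero] at h3
        rw [hbu, Units.inv_mul, Matrix.one_mulVec] at h3
        exact h3
      have := congrFun hv0 j0
      simp [v] at this
    -- make the diagonal entry nonzero
    have h3 : ∃ e1 ∈ El ι D, ((e1 : Matrix ι ι D) * b) j0 j0 ≠ 0 ∧
        ∀ j ∈ T, (∀ i, i ≠ j → ((e1 : Matrix ι ι D) * b) i j = 0) ∧
          ((e1 : Matrix ι ι D) * b) j j ≠ 0 := by
      by_cases hd : b j0 j0 = 0
      · obtain ⟨i, hiT, hi⟩ := h2
        have hij : j0 ≠ i := by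
          rintro rfl
          exact hi hd
        refine ⟨tv j0 i hij 1, tv_mem' _ _ _ _, ?_, ?_⟩
        · rw [tv_mul_apply, if_pos rfl, hd, zero_add, one_mul]
          exact hi
        · intro j hj
          have hij' : i ≠ j := by
            rintro rfl
            exact hiT hj
          have hjj0 : j0 ≠ j := by
            rintro rfl
            exact hj0 hj
          refine ⟨?_, ?_⟩
          · intro k hk
            rw [tv_mul_apply, (h1 j hj).1 k hk, (h1 j hj).1 i hij']
            simp
          · rw [tv_mul_apply, if_neg (Ne.symm hjj0), add_zero]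
            exact (h1 j hj).2
      · refine ⟨1, one_mem _, ?_, ?_⟩
        · simpa using hd
        · simpa using h1
    obtain ⟨e1, he1, h4, h5⟩ := h3
    set b1 : Matrix ι ι D := (e1 : Matrix ι ι D) * b with hb1
    obtain ⟨f, hf, h6⟩ := rowop j0 (fun i => -(b1 i j0) * (b1 j0 j0)⁻¹) (Finset.univ.erase j0)
      (by simp)
    have h7 : ∀ i j, (((f * (e1 * e) : (Matrix ι ι D)ˣ) : Matrix ι ι D) * (g : Matrix ι ι D)) i j =
        b1 i j + (if i ≠ j0 then -(b1 i j0) * (b1 j0 j0)⁻¹ * b1 j0 j else 0) := by
      intro i j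
      rw [Units.val_mul, Units.val_mul, mul_assoc, mul_assoc, ← hb, ← hb1, h6 b1 i j]
      simp
    refine ⟨f * (e1 * e), mul_mem hf (mul_mem he1 he), ?_⟩
    intro j hj
    rw [Finset.mem_insert] at hj
    by_cases hjj : j = j0
    · subst hjj
      refine ⟨?_, ?_⟩
      · intro i hi
        rw [h7, if_pos hi, mul_assoc, inv_mul_cancel₀ h4, mul_one]
        abel
      · rw [h7]
        simpa using h4
    · have hjT := hj.resolve_left hjj
      have hz : b1 j0 j = 0 := (h5 j hjT).1 j0 (fun hh => hjj hh.symm)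
      refine ⟨?_, ?_⟩
      · intro i hi
        rw [h7, (h5 j hjT).1 i hi, hz]
        simp
      · rw [h7, hz]
        simpa using (h5 j hjT).2

theorem GE_div {D : Type} [DivisionRing D] : GE ι D := by
  intro g
  obtain ⟨e, he, h1⟩ := GE_aux g Finset.univ
  refine ⟨e⁻¹, inv_mem he, fun j => Units.mk0 _ (h1 j (Finset.mem_univ _)).2, ?_⟩
  rw [eq_inv_mul_iff_mul_eq]
  ext : 1
  rw [Units.val_mul, dg_val]
  ext i j
  by_cases hij : i = j
  · subst hij
    rw [Matrix.diagonal_apply_eq, Units.val_mk0]
  · rw [Matrix.diagonal_apply_ne _ hij]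
    exact (h1 j (Finset.mem_univ _)).1 i hij

end statements

end Pool.Agent.Helper58.EN
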