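import Pool.Agent.Helper58.EN.Defs
import Pool.Agent.Helper58.EN.JA

set_option autoImplicit false

namespace Pool.Agent.Helper58.EN

open Matrix

variable {ι : Type} [Fintype ι] [DecidableEq ι]


section statements
open Polynomial

/-- `El * D` is a subgroup. -/
theorem h59_dg_conj_El {R : Type} [Ring R] (d : ι → Rˣ) {e : (Matrix ι ι R)ˣ} (he : e ∈ El ι R) :
    dg d * e * (dg d)⁻¹ ∈ El ι R := by
  unfold El EL at he
  induction he using Subgroup.closure_induction with
  | mem x hx =>
    obtain ⟨i, j, h, x, -, rfl⟩ := hx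
    rw [dg_conj]
    exact tv_mem' _ _ _ _
  | one => simp only [mul_one, mul_inv_cancel]; exact Subgroup.one_mem _
  | mul x y _ _ hx hy =>
    have : dg d * (x * y) * (dg d)⁻¹ = (dg d * x * (dg d)⁻¹) * (dg d * y * (dg d)⁻¹) := by group
    rw [this]
    exact Subgroup.mul_mem _ hx hy
  | inv x _ hx =>
    have : dg d * x⁻¹ * (dg d)⁻¹ = (dg d * x * (dg d)⁻¹)⁻¹ := by group
    rw [this]
    exact Subgroup.inv_mem _ hx

/-- `El * D` as a subgroup. -/
def h59ED (ι : Type) [Fintype ι] [DecidableEq ι] (R : Type) [Ring R] :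
    Subgroup (Matrix ι ι R)ˣ where
  carrier := {g | ∃ e ∈ El ι R, ∃ d : ι → Rˣ, g = e * dg d}
  one_mem' := ⟨1, Subgroup.one_mem _, 1, by
    ext : 1
    simp⟩
  mul_mem' := by
    rintro _ _ ⟨e, he, d, rfl⟩ ⟨e', he', d', rfl⟩
    refine ⟨e * (dg d * e' * (dg d)⁻¹), Subgroup.mul_mem _ he (h59_dg_conj_El d he'), d * d', ?_⟩
    rw [dg_mul]
    group
  inv_mem' := by
    rintro _ ⟨e, he, d, rfl⟩
    refine ⟨dg d⁻¹ * e⁻¹ * (dg d⁻¹)⁻¹, h59_dg_conj_El _ (Subgroup.inv_mem _ he), d⁻¹, ?_⟩
    rw [_root_.mul_inv_rev, ← dg_inv]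
    group

theorem h59_El_le {R : Type} [Ring R] : El ι R ≤ h59ED ι R := fun e he =>
  ⟨e, he, 1, by
    ext : 1
    simp⟩

theorem h59_dg_mem {R : Type} [Ring R] (d : ι → Rˣ) : dg d ∈ h59ED ι R :=
  ⟨1, Subgroup.one_mem _, d, by rw [one_mul]⟩

theorem GE_matrix {κ : Type} [Fintype κ] [DecidableEq κ] {D : Type} [Ring D]
    (h : GE (ι × κ) D) : GE ι (Matrix κ κ D) := by
  classical
  intro g
  let φ : Matrix ι ι (Matrix κ κ D) ≃+* Matrix (ι × κ) (ι × κ) D := Matrix.compRingEquiv ι κ D
  let u : (Matrix ι ι (Matrix κ κ D))ˣ ≃* (Matrix (ι × κ) (ι × κ) D)ˣ :=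
    Units.mapEquiv φ.toMulEquiv
  have hval : ∀ y : (Matrix (ι × κ) (ι × κ) D)ˣ,
      ((u.symm y : (Matrix ι ι (Matrix κ κ D))ˣ) : Matrix ι ι (Matrix κ κ D)) =
        φ.symm (y : Matrix (ι × κ) (ι × κ) D) := fun y => rfl
  have hone : φ.symm 1 = 1 := map_one _
  have htv : ∀ y ∈ El (ι × κ) D, u.symm y ∈ h59ED ι (Matrix κ κ D) := by
    intro y hy
    unfold El EL at hy
    induction hy using Subgroup.closure_induction with
    | mem x hx =>
      obtain ⟨⟨p, a⟩, ⟨q, b⟩, hne, x, -, rfl⟩ := hx
      by_cases hpq : p = q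
      · subst hpq
        have hab : a ≠ b := fun hab => hne (by rw [hab])
        have : u.symm (tv (p, a) (p, b) hne x) =
            dg (Function.update 1 p (tv a b hab x)) := by
          ext : 1
          rw [hval, tv_val, map_add, hone, dg_val]
          have h1 : φ.symm (Matrix.single (p, a) (p, b) x) =
              Matrix.single p p (Matrix.single a b x) := by
            show (Matrix.compRingEquiv ι κ D).symm _ = _
            rw [Matrix.compRingEquiv_symm_apply, Matrix.comp_symm_single]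
          rw [h1]
          ext i j : 2
          by_cases hij : i = j
          · subst hij
            rw [Matrix.add_apply, Matrix.one_apply_eq, Matrix.diagonal_apply_eq]
            by_cases hip : i = p
            · subst hip
              rw [Matrix.single_apply_same, Function.update_self]
              rfl
            · rw [Matrix.single_apply_of_row_ne (Ne.symm hip), Function.update_of_ne hip]
              simp
          · rw [Matrix.add_apply, Matrix.one_apply_ne hij, Matrix.diagonal_apply_ne _ hij,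
              Matrix.single_apply, if_neg, add_zero]
            rintro ⟨rfl, rfl⟩
            exact hij rfl
        rw [this]
        exact h59_dg_mem _
      · have : u.symm (tv (p, a) (q, b) hne x) = tv p q hpq (Matrix.single a b x) := by
          ext : 1
          rw [hval, tv_val, map_add, hone, tv_val]
          congr 1
          show (Matrix.compRingEquiv ι κ D).symm _ = _
          rw [Matrix.compRingEquiv_symm_apply, Matrix.comp_symm_single]
        rw [this]
        exact h59_El_le (tv_mem' _ _ _ _)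
    | one => rw [map_one]; exact Subgroup.one_mem _
    | mul x y _ _ hx hy => rw [map_mul]; exact Subgroup.mul_mem _ hx hy
    | inv x _ hx => rw [map_inv]; exact Subgroup.inv_mem _ hx
  obtain ⟨e, he, d, hed⟩ := h (u g)
  have hg : g = u.symm e * u.symm (dg d) := by
    rw [← map_mul, ← hed, MulEquiv.symm_apply_apply]
  have hd : u.symm (dg d) = dg (fun i => dg (fun a => d (i, a))) := by
    ext : 1
    rw [hval, dg_val, dg_val]
    show (Matrix.compRingEquiv ι κ D).symm _ = _
    rw [Matrix.compRingEquiv_symm_apply, Matrix.comp_symm_diagonal]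
    rfl
  have hmem : g ∈ h59ED ι (Matrix κ κ D) := by
    rw [hg, hd]
    exact Subgroup.mul_mem _ (htv e he) (h59_dg_mem _)
  exact hmem

theorem h59_pi_single {n : ℕ} {A : Fin n → Type} [∀ i, Ring (A i)] (k : Fin n)
    {e : (Matrix ι ι (A k))ˣ} (he : e ∈ El ι (A k)) :
    ∃ e' ∈ El ι (∀ i, A i), mapGL (Pi.evalRingHom A k) e' = e ∧
      ∀ l, l ≠ k → mapGL (Pi.evalRingHom A l) e' = 1 := by
  classical
  unfold El EL at he
  induction he using Subgroup.closure_induction with
  | mem x hx =>
    obtain ⟨i, j, h, x, -, rfl⟩ := hx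
    refine ⟨tv i j h (Pi.single k x), tv_mem' _ _ _ _, ?_, ?_⟩
    · rw [mapGL_tv]
      congr 1
      simp
    · intro l hl
      rw [mapGL_tv]
      have : (Pi.evalRingHom A l) (Pi.single k x) = 0 := by
        simp [Pi.single_eq_of_ne hl]
      rw [this, tv_zero]
  | one => exact ⟨1, Subgroup.one_mem _, map_one _, fun l _ => map_one _⟩
  | mul x y _ _ hx hy =>
    obtain ⟨x', hx', hx1, hx2⟩ := hx
    obtain ⟨y', hy', hy1, hy2⟩ := hy
    refine ⟨x' * y', Subgroup.mul_mem _ hx' hy', by rw [map_mul, hx1, hy1], fun l hl => ?_⟩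
    rw [map_mul, hx2 l hl, hy2 l hl, one_mul]
  | inv x _ hx =>
    obtain ⟨x', hx', hx1, hx2⟩ := hx
    refine ⟨x'⁻¹, Subgroup.inv_mem _ hx', by rw [map_inv, hx1], fun l hl => ?_⟩
    rw [map_inv, hx2 l hl, inv_one]

theorem GE_pi {n : ℕ} {A : Fin n → Type} [∀ i, Ring (A i)] (h : ∀ i, GE ι (A i)) :
    GE ι (∀ i, A i) := by
  classical
  intro g
  have h1 : ∀ k : Fin n, ∃ e ∈ El ι (A k), ∃ d : ι → (A k)ˣ,
      mapGL (Pi.evalRingHom A k) g = e * dg d := fun k => h k _
  choose e he d hd using h1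
  have h2 : ∀ s : Finset (Fin n), ∃ e' ∈ El ι (∀ i, A i), ∀ k,
      mapGL (Pi.evalRingHom A k) e' = if k ∈ s then e k else 1 := by
    intro s
    induction s using Finset.induction_on with
    | empty => exact ⟨1, Subgroup.one_mem _, fun k => by simp⟩
    | insert k s hk ih =>
      obtain ⟨e1, he1, h1⟩ := ih
      obtain ⟨e2, he2, h2, h3⟩ := h59_pi_single k (he k)
      refine ⟨e2 * e1, Subgroup.mul_mem _ he2 he1, fun l => ?_⟩
      rw [map_mul, h1]
      by_cases hl : l = k
      · subst hl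
        rw [h2, if_neg hk, mul_one, if_pos (Finset.mem_insert_self _ _)]
      · rw [h3 l hl, one_mul]
        simp [Finset.mem_insert, hl]
  obtain ⟨e', he', h3⟩ := h2 Finset.univ
  refine ⟨e', he', fun i => MulEquiv.piUnits.symm (fun k => d k i), ?_⟩
  have key : ∀ k, mapGL (Pi.evalRingHom A k) g = mapGL (Pi.evalRingHom A k)
      (e' * dg (fun i => MulEquiv.piUnits.symm (fun k => d k i))) := by
    intro k
    rw [map_mul, h3 k, if_pos (Finset.mem_univ _), hd k]
    congr 1
    ext : 1
    rw [mapGL_val, dg_val, dg_val]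
    rw [Matrix.diagonal_map (map_zero _)]
    rfl
  ext i j k
  have h5 := congrArg (fun m : (Matrix ι ι (A k))ˣ => (m : Matrix ι ι (A k)) i j) (key k)
  simp only [mapGL_val] at h5
  exact h5

theorem GE_equiv {A B : Type} [Ring A] [Ring B] (f : A ≃+* B) (h : GE ι A) : GE ι B := by
  intro g
  obtain ⟨e, he, d, hd⟩ := h (mapGL (f.symm : B →+* A) g)
  refine ⟨mapGL (f : A →+* B) e, mapGL_mem _ he, fun i => Units.map (f : A →+* B).toMonoidHom (d i),
    ?_⟩
  have h1 : g = mapGL (f : A →+* B) (mapGL (f.symm : B →+* A) g) := by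
    rw [← mapGL_comp]
    ext : 1
    rw [mapGL_val]
    ext i j
    simp
  rw [h1, hd, map_mul]
  congr 1
  ext : 1
  rw [mapGL_val, dg_val, dg_val]
  rw [Matrix.diagonal_map (map_zero _)]
  rfl

theorem GE_semisimple {A : Type} [Ring A] [IsSemisimpleRing A] : GE ι A := by
  classical
  obtain ⟨n, D, d, hD, -, ⟨f⟩⟩ := IsSemisimpleRing.exists_ringEquiv_pi_matrix_divisionRing A
  exact GE_equiv f.symm (GE_pi (fun i => GE_matrix GE_div))

end statements

end Pool.Agent.Helper58.EN
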