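import Pool.Agent.Helper58.EN.Defs
import Pool.Agent.Helper58.EN.JA
import Pool.Agent.Helper58.EN.JB

set_option autoImplicit false

namespace Pool.Agent.Helper58.EN

open Matrix

variable {ι : Type} [Fintype ι] [DecidableEq ι]


section statements
open Polynomial

theorem ec_isUnit_of {B : Type} [Ring B] {x : B} (h1 : ∃ y, x * y = 1) (h2 : ∃ z, z * x = 1) :
    IsUnit x := by
  obtain ⟨y, hy⟩ := h1
  obtain ⟨z, hz⟩ := h2
  have : z = y := by
    calc z = z * (x * y) := by rw [hy, mul_one]
      _ = (z * x) * y := by rw [mul_assoc]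
      _ = y := by rw [hz, one_mul]
  subst this
  exact ⟨⟨x, z, hy, hz⟩, rfl⟩

theorem ec_lift_unit {B A : Type} [Ring B] [Ring A] (π : B →+* A) (hπ : Function.Surjective π)
    (hker : ∀ x, π x = 0 → IsUnit (1 + x)) (x : B) (hx : IsUnit (π x)) : IsUnit x := by
  obtain ⟨u, hu⟩ := hx
  obtain ⟨y, hy⟩ := hπ ((u⁻¹ : Aˣ) : A)
  have h1 : IsUnit (x * y) := by
    have := hker (x * y - 1) (by rw [map_sub, map_mul, ← hu, hy, map_one, Units.mul_inv, sub_self])
    rwa [add_sub_cancel] at this
  have h2 : IsUnit (y * x) := by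
    have := hker (y * x - 1) (by rw [map_sub, map_mul, ← hu, hy, map_one, Units.inv_mul, sub_self])
    rwa [add_sub_cancel] at this
  apply ec_isUnit_of
  · obtain ⟨v, hv⟩ := h1
    exact ⟨y * ((v⁻¹ : Bˣ) : B), by rw [← mul_assoc, ← hv, Units.mul_inv]⟩
  · obtain ⟨v, hv⟩ := h2
    exact ⟨((v⁻¹ : Bˣ) : B) * y, by rw [mul_assoc, ← hv, Units.inv_mul]⟩

theorem GE_lift {B A : Type} [Ring B] [Ring A] (π : B →+* A) (hπ : Function.Surjective π)
    (hker : ∀ x, π x = 0 → IsUnit (1 + x)) (h : GE ι A) : GE ι B := by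
  intro g
  obtain ⟨e', he', d', hd'⟩ := h (mapGL π g)
  rw [← El_map_surj π hπ] at he'
  obtain ⟨e, he, rfl⟩ := he'
  have h1 : mapGL π (e⁻¹ * g) = dg d' := by
    rw [map_mul, map_inv, hd', inv_mul_cancel_left]
  have h2 : ∀ i j, π (((e⁻¹ * g : (Matrix ι ι B)ˣ) : Matrix ι ι B) i j)
      = Matrix.diagonal (fun i => (d' i : A)) i j := by
    intro i j
    have h3 : ((mapGL π (e⁻¹ * g) : (Matrix ι ι A)ˣ) : Matrix ι ι A) = dg d' := by rw [h1]
    rw [mapGL_val, dg_val] at h3
    exact congrFun (congrFun h3 i) j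
  obtain ⟨e2, he2, d, -, hd⟩ := gauss (RingHom.ker π) (fun x hx => hker x hx) (e⁻¹ * g)
    (fun i j hij => by
      rw [RingHom.mem_ker, h2, Matrix.diagonal_apply_ne _ hij])
    (fun i => by
      apply ec_lift_unit π hπ hker
      rw [h2, Matrix.diagonal_apply_eq]
      exact (d' i).isUnit)
  refine ⟨e * e2, mul_mem he he2, d, ?_⟩
  rw [mul_assoc, ← hd, mul_inv_cancel_left]

theorem GE_artinian {A : Type} [Ring A] [IsArtinianRing A] : GE ι A := by
  apply GE_lift (Ideal.Quotient.mk (Ring.jacobson A)) Ideal.Quotient.mk_surjective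
  · intro x hx
    rw [Ideal.Quotient.eq_zero_iff_mem] at hx
    have hnil : IsNilpotent (Ring.jacobson A) := IsSemiprimaryRing.isNilpotent
    obtain ⟨k, hk⟩ := hnil
    have : IsNilpotent x := ⟨k, by
      have := Ideal.pow_mem_pow hx k
      rw [hk] at this
      exact this⟩
    exact this.isUnit_one_add
  · exact GE_semisimple

theorem ec_nak (O : Type) [CommRing O] [IsLocalRing O] {B : Type} [Ring B] [Algebra O B]
    [Module.Finite O B] (x : B) (hx : x ∈ IsLocalRing.maximalIdeal O • (⊤ : Submodule O B)) :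
    IsUnit (1 + x) := by
  have hJ : IsLocalRing.maximalIdeal O ≤ Ideal.jacobson (⊥ : Ideal O) :=
    (IsLocalRing.jacobson_eq_maximalIdeal ⊥ bot_ne_top).ge
  have hmem : ∀ f : B →ₗ[O] B, f x ∈ IsLocalRing.maximalIdeal O • (⊤ : Submodule O B) := by
    intro f
    have h1 : f x ∈ (IsLocalRing.maximalIdeal O • (⊤ : Submodule O B)).map f := Submodule.mem_map_of_mem hx
    rw [Submodule.map_smul''] at h1
    exact Submodule.smul_mono le_rfl le_top h1
  have key : ∀ f : B →ₗ[O] B, (∀ b, b - f b ∈ IsLocalRing.maximalIdeal O • (⊤ : Submodule O B)) →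
      ∃ y, f y = 1 := by
    intro f hf
    have h1 : (⊤ : Submodule O B) ≤ LinearMap.range f := by
      apply Submodule.le_of_le_smul_of_le_jacobson_bot Module.Finite.fg_top hJ
      intro b _
      have : b = f b + (b - f b) := by abel
      rw [this]
      exact Submodule.add_mem_sup (LinearMap.mem_range_self f b) (hf b)
    exact h1 trivial
  apply ec_isUnit_of
  · obtain ⟨y, hy⟩ := key (LinearMap.mulLeft O (1 + x)) (fun b => by
      have : b - LinearMap.mulLeft O (1 + x) b = -(LinearMap.mulRight O b x) := by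
        simp only [LinearMap.mulLeft_apply, LinearMap.mulRight_apply]
        noncomm_ring
      rw [this]
      exact Submodule.neg_mem _ (hmem _))
    exact ⟨y, hy⟩
  · obtain ⟨y, hy⟩ := key (LinearMap.mulRight O (1 + x)) (fun b => by
      have : b - LinearMap.mulRight O (1 + x) b = -(LinearMap.mulLeft O b x) := by
        simp only [LinearMap.mulLeft_apply, LinearMap.mulRight_apply]
        noncomm_ring
      rw [this]
      exact Submodule.neg_mem _ (hmem _))
    exact ⟨y, hy⟩

theorem GE_local (O : Type) [CommRing O] [IsLocalRing O] {B : Type} [Ring B] [Algebra O B]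
    [Module.Finite O B] : GE ι B := by
  let k := O ⧸ IsLocalRing.maximalIdeal O
  let _ : Field k := Ideal.Quotient.field _
  let A := TensorProduct O k B
  have hart : IsArtinianRing A := IsArtinianRing.of_finite k A
  let π : B →+* A := (Algebra.TensorProduct.includeRight : B →ₐ[O] TensorProduct O k B).toRingHom
  have hπ : Function.Surjective π := by
    intro a
    induction a using TensorProduct.induction_on with
    | zero => exact ⟨0, map_zero π⟩
    | tmul c b =>
      obtain ⟨c, rfl⟩ := Ideal.Quotient.mk_surjective c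
      refine ⟨c • b, ?_⟩
      show (1 : k) ⊗ₜ[O] (c • b) = _
      rw [TensorProduct.tmul_smul, TensorProduct.smul_tmul']
      congr 1
      rw [Algebra.smul_def, mul_one]
      rfl
    | add x y hx hy =>
      obtain ⟨a, rfl⟩ := hx
      obtain ⟨b, rfl⟩ := hy
      exact ⟨a + b, map_add π a b⟩
  apply GE_lift π hπ _ GE_artinian
  intro x hx
  apply ec_nak O x
  have h1 : (1 : k) ⊗ₜ[O] x = 0 := hx
  have h2 := TensorProduct.quotTensorEquivQuotSMul_mk_tmul (M := B) (IsLocalRing.maximalIdeal O) 1 x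
  rw [map_one, one_smul] at h2
  rw [h1, map_zero] at h2
  exact (Submodule.Quotient.mk_eq_zero _).1 h2.symm

end statements

end Pool.Agent.Helper58.EN
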