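import Pool.Agent.Helper58.EN.Defs

set_option autoImplicit false

namespace Pool.Agent.Helper58.EN

open Matrix

variable {ι : Type} [Fintype ι] [DecidableEq ι]


section statements
open Polynomial

theorem conj_closure {G : Type} [Group G] (A : Set G) (H : Subgroup G) (g : G)
    (h : ∀ x ∈ A, g * x * g⁻¹ ∈ H) : ∀ x ∈ Subgroup.closure A, g * x * g⁻¹ ∈ H := by
  intro x hx
  have : Subgroup.closure A ≤ H.comap (MulAut.conj g).toMonoidHom := by
    rw [Subgroup.closure_le]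
    intro y hy
    exact h y hy
  exact this hx

theorem conj_tv (h3 : 3 ≤ Fintype.card ι) {B : Type} [Ring B] (M : Subring B) (σ s : B)
    (hσ : ∀ x, σ * x = x * σ) (hs : ∀ x, s * x = x * s) (hσM : σ ∈ M) (hsM : s ∈ M)
    (i j : ι) (hij : i ≠ j) (b : B) (hb : σ * b ∈ M) :
    ∀ x ∈ EL ι {y : B | ∃ m ∈ M, y = (σ * s) * ((σ * s) * m)},
      tv i j hij b * x * (tv i j hij b)⁻¹ ∈ EL ι {y : B | ∃ m ∈ M, y = s * m} := by
  have hSM : σ * s ∈ M := mul_mem hσM hsM
  have key1 : ∀ z, b * ((σ * s) * z) = s * ((σ * b) * z) := by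
    intro z
    calc b * ((σ * s) * z) = (b * σ) * (s * z) := by simp only [mul_assoc]
      _ = (σ * b) * (s * z) := by rw [← hσ b]
      _ = ((σ * b) * s) * z := by simp only [mul_assoc]
      _ = (s * (σ * b)) * z := by rw [← hs (σ * b)]
      _ = _ := by simp only [mul_assoc]
  have key2 : ∀ z, ((σ * s) * z) * b = s * (z * (σ * b)) := by
    intro z
    calc ((σ * s) * z) * b = ((s * σ) * z) * b := by rw [hs σ]
      _ = s * ((σ * z) * b) := by simp only [mul_assoc]
      _ = s * ((z * σ) * b) := by rw [hσ z]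
      _ = _ := by simp only [mul_assoc]
  have key3 : ∀ z, (σ * s) * z = s * (σ * z) := by
    intro z
    rw [← hs σ, mul_assoc]
  have mS : ∀ (p q : ι) (hpq : p ≠ q) (m : B), m ∈ M →
      tv p q hpq (s * m) ∈ EL ι {y : B | ∃ m ∈ M, y = s * m} := fun p q hpq m hm =>
    tv_mem p q hpq ⟨m, hm, rfl⟩
  -- right case
  have right : ∀ (q : ι) (hjq : j ≠ q) (hiq : i ≠ q) (m : B), m ∈ M →
      tv i j hij b * tv j q hjq ((σ * s) * m) * (tv i j hij b)⁻¹ ∈
        EL ι {y : B | ∃ m ∈ M, y = s * m} := by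
    intro q hjq hiq m hm
    rw [tv_conj_right i j q hij hjq hiq, key1, key3]
    exact mul_mem (mS _ _ _ _ (mul_mem hb hm)) (mS _ _ _ _ (mul_mem hσM hm))
  have left : ∀ (p : ι) (hpi : p ≠ i) (hpj : p ≠ j) (m : B), m ∈ M →
      tv i j hij b * tv p i hpi ((σ * s) * m) * (tv i j hij b)⁻¹ ∈
        EL ι {y : B | ∃ m ∈ M, y = s * m} := by
    intro p hpi hpj m hm
    rw [tv_conj_left i j p hij hpi hpj, key2, key3, ← mul_neg]
    exact mul_mem (mS _ _ _ _ (neg_mem (mul_mem hm hb))) (mS _ _ _ _ (mul_mem hσM hm))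
  apply conj_closure
  rintro x ⟨p, q, hpq, y, ⟨m, hm, rfl⟩, rfl⟩
  by_cases hqi : q = i
  · subst hqi
    by_cases hpj : p = j
    · subst hpj
      -- opposite root
      obtain ⟨l, hl1, hl2⟩ : ∃ l : ι, l ≠ q ∧ l ≠ p := by
        by_contra hcon
        push Not at hcon
        have hsub : (Finset.univ : Finset ι) ⊆ {q, p} := by
          intro l _
          rw [Finset.mem_insert, Finset.mem_singleton]
          by_cases h : l = q
          · exact Or.inl h
          · exact Or.inr (hcon l h)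
        have h1 := Finset.card_le_card hsub
        have h2 := Finset.card_le_two (a := q) (b := p)
        rw [Finset.card_univ] at h1
        omega
      have e := tv_comm p l q (Ne.symm hl2) hl1 hpq ((σ * s) * m) (σ * s)
      have e2 : (σ * s) * m * (σ * s) = (σ * s) * ((σ * s) * m) := by
        have c : ∀ z, (σ * s) * z = z * (σ * s) := by
          intro z
          calc (σ * s) * z = σ * (s * z) := mul_assoc _ _ _
            _ = (s * z) * σ := hσ _
            _ = (z * s) * σ := by rw [hs z]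
            _ = z * (s * σ) := mul_assoc _ _ _
            _ = z * (σ * s) := by rw [hs σ]
        rw [← c]
      rw [e2] at e
      rw [← e]
      have r1 := right l (Ne.symm hl2) (Ne.symm hl1) m hm
      have r2 := left l hl1 hl2 1 (one_mem M)
      rw [mul_one] at r2
      have e3 : tv q p hij b * (tv p l (Ne.symm hl2) ((σ * s) * m) * tv l q hl1 (σ * s) *
          (tv p l (Ne.symm hl2) ((σ * s) * m))⁻¹ * (tv l q hl1 (σ * s))⁻¹) * (tv q p hij b)⁻¹ =
          (tv q p hij b * tv p l (Ne.symm hl2) ((σ * s) * m) * (tv q p hij b)⁻¹) *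
          (tv q p hij b * tv l q hl1 (σ * s) * (tv q p hij b)⁻¹) *
          (tv q p hij b * tv p l (Ne.symm hl2) ((σ * s) * m) * (tv q p hij b)⁻¹)⁻¹ *
          (tv q p hij b * tv l q hl1 (σ * s) * (tv q p hij b)⁻¹)⁻¹ := by group
      rw [e3]
      exact mul_mem (mul_mem (mul_mem r1 r2) (inv_mem r1)) (inv_mem r2)
    · exact left p hpq hpj _ (mul_mem hSM hm)
  · by_cases hpj : p = j
    · subst hpj
      exact right q hpq (Ne.symm hqi) _ (mul_mem hSM hm)
    · rw [tv_commute i j p q hij hpq (Ne.symm hpj) (Ne.symm hqi), key3]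
      exact mS _ _ _ _ (mul_mem hσM (mul_mem hSM hm))

theorem conj_dg {B : Type} [Ring B] (M : Subring B) (σ s : B)
    (hσ : ∀ x, σ * x = x * σ) (hs : ∀ x, s * x = x * s)
    (d : ι → Bˣ) (hd : ∀ i, σ * (d i : B) ∈ M) (hd' : ∀ i, σ * (((d i)⁻¹ : Bˣ) : B) ∈ M) :
    ∀ x ∈ EL ι {y : B | ∃ m ∈ M, y = σ * (σ * (s * m))},
      dg d * x * (dg d)⁻¹ ∈ EL ι {y : B | ∃ m ∈ M, y = s * m} := by
  apply conj_closure
  rintro x ⟨p, q, hpq, y, ⟨m, hm, rfl⟩, rfl⟩
  rw [dg_conj]
  have e : (d p : B) * (σ * (σ * (s * m))) * (((d q)⁻¹ : Bˣ) : B) =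
      s * ((σ * (d p : B)) * m * (σ * (((d q)⁻¹ : Bˣ) : B))) := by
    calc (d p : B) * (σ * (σ * (s * m))) * (((d q)⁻¹ : Bˣ) : B)
        = ((d p : B) * σ) * (σ * (s * (m * (((d q)⁻¹ : Bˣ) : B)))) := by simp only [mul_assoc]
      _ = (σ * (d p : B)) * (σ * (s * (m * (((d q)⁻¹ : Bˣ) : B)))) := by rw [← hσ (d p : B)]
      _ = (σ * (d p : B)) * ((s * (m * (((d q)⁻¹ : Bˣ) : B))) * σ) := by
          rw [hσ (s * (m * (((d q)⁻¹ : Bˣ) : B)))]
      _ = ((σ * (d p : B)) * s) * (m * ((((d q)⁻¹ : Bˣ) : B) * σ)) := by simp only [mul_assoc]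
      _ = (s * (σ * (d p : B))) * (m * (σ * (((d q)⁻¹ : Bˣ) : B))) := by
          rw [← hs (σ * (d p : B)), ← hσ (((d q)⁻¹ : Bˣ) : B)]
      _ = _ := by simp only [mul_assoc]
  rw [e]
  exact tv_mem p q hpq ⟨_, mul_mem (mul_mem (hd p) hm) (hd' q), rfl⟩

end statements

end Pool.Agent.Helper58.EN
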