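import Pool.Agent.Helper58.EN.Defs

set_option autoImplicit false

namespace Pool.Agent.Helper58.EN

open Matrix

variable {ι : Type} [Fintype ι] [DecidableEq ι]


section statements
open Polynomial

theorem exists_loc (Z R : Type) [CommRing Z] [Ring R] [Algebra Z R] (S : Submonoid Z) :
    ∃ (B : Type) (_ : Ring B) (_ : Algebra (Localization S) B) (f : R →+* B), Loc S f ∧
      (∀ z : Z, algebraMap (Localization S) B (algebraMap Z (Localization S) z) =
        f (algebraMap Z R z)) ∧
      (Module.Finite Z R → Module.Finite (Localization S) B) := by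
  let B := TensorProduct Z (Localization S) R
  let f : R →ₐ[Z] B := Algebra.TensorProduct.includeRight
  have hl : IsLocalizedModule S (TensorProduct.mk Z (Localization S) R 1) := inferInstance
  have hf : ∀ r : R, f r = TensorProduct.mk Z (Localization S) R 1 r := fun r => rfl
  have hcompat : ∀ z : Z, algebraMap (Localization S) B (algebraMap Z (Localization S) z) =
      f (algebraMap Z R z) := by
    intro z
    rw [AlgHom.commutes]
    exact (IsScalarTower.algebraMap_apply Z (Localization S) B z).symm
  have hsm : ∀ (z : Z) (b : B), z • b = f (algebraMap Z R z) * b := by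
    intro z b
    rw [AlgHom.commutes]
    exact Algebra.smul_def z b
  refine ⟨B, inferInstance, inferInstance, f.toRingHom, ⟨?_, ?_, ?_, ?_⟩, ?_, ?_⟩
  · intro s hs
    show IsUnit (f (algebraMap Z R s))
    rw [← hcompat]
    exact (IsLocalization.map_units (Localization S) ⟨s, hs⟩).map
      (algebraMap (Localization S) B)
  · intro b
    obtain ⟨⟨r, s⟩, h⟩ := hl.surj b
    refine ⟨s, s.2, r, ?_⟩
    show f (algebraMap Z R s) * b = f r
    rw [← hsm, hf]
    exact h
  · intro r hr
    have hr' : TensorProduct.mk Z (Localization S) R 1 r = 0 := hr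
    obtain ⟨s, hs⟩ := (IsLocalizedModule.eq_zero_iff S _).1 hr'
    exact ⟨s, s.2, hs⟩
  · intro z b
    show f (algebraMap Z R z) * b = b * f (algebraMap Z R z)
    rw [AlgHom.commutes]
    exact Algebra.commutes z b
  · exact hcompat
  · intro hfin
    exact Module.Finite.base_change Z (Localization S) R

end statements

end Pool.Agent.Helper58.EN
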