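import Pool.Agent.Helper58.EN.Defs
import Pool.Agent.Helper58.EN.JD

set_option autoImplicit false

namespace Pool.Agent.Helper58.EN

open Matrix

variable {ι : Type} [Fintype ι] [DecidableEq ι]


section statements
open Polynomial

/-- the property P of the hint -/
def lcP {Z R B : Type} [CommRing Z] [Ring R] [Algebra Z R] [Ring B] (S : Submonoid Z)
    (f : R →+* B) (w : (Matrix ι ι B)ˣ) : Prop :=
  ∀ s' ∈ S, ∃ s ∈ S, ∀ x ∈ EL ι {y : B | ∃ r : R, y = f (s • r)},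
      w * x * w⁻¹ ∈ EL ι {y : B | ∃ r : R, y = f (s' • r)}

theorem lcP_one {Z R B : Type} [CommRing Z] [Ring R] [Algebra Z R] [Ring B] (S : Submonoid Z)
    (f : R →+* B) : lcP S f (1 : (Matrix ι ι B)ˣ) := by
  intro s' hs'
  refine ⟨s', hs', fun x hx => ?_⟩
  simpa using hx

theorem lcP_mul {Z R B : Type} [CommRing Z] [Ring R] [Algebra Z R] [Ring B] (S : Submonoid Z)
    (f : R →+* B) (w₁ w₂ : (Matrix ι ι B)ˣ) (h₁ : lcP S f w₁) (h₂ : lcP S f w₂) :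
    lcP S f (w₁ * w₂) := by
  intro s' hs'
  obtain ⟨s₁, hs₁, h1⟩ := h₁ s' hs'
  obtain ⟨s₂, hs₂, h2⟩ := h₂ s₁ hs₁
  refine ⟨s₂, hs₂, fun x hx => ?_⟩
  have h3 := h1 _ (h2 x hx)
  have e : w₁ * w₂ * x * (w₁ * w₂)⁻¹ = w₁ * (w₂ * x * w₂⁻¹) * w₁⁻¹ := by group
  rw [e]
  exact h3

theorem lc_smul {Z R B : Type} [CommRing Z] [Ring R] [Algebra Z R] [Ring B]
    (f : R →+* B) (s : Z) (r : R) : f (s • r) = f (algebraMap Z R s) * f r := by
  rw [Algebra.smul_def, map_mul]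

theorem lc_den {Z R B : Type} [CommRing Z] [Ring R] [Algebra Z R] [Ring B] {S : Submonoid Z}
    {f : R →+* B} (hf : Loc S f) (b : ι → B) :
    ∃ σ ∈ S, ∀ i, f (algebraMap Z R σ) * b i ∈ f.range := by
  choose τ hτ r hr using fun i => hf.surj (b i)
  refine ⟨∏ i, τ i, Submonoid.prod_mem S fun i _ => hτ i, fun i => ?_⟩
  obtain ⟨c, hc⟩ := Finset.dvd_prod_of_mem τ (Finset.mem_univ i)
  rw [hc, mul_comm (τ i) c, map_mul, map_mul, mul_assoc, hr i, ← map_mul]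
  exact ⟨_, rfl⟩

theorem lc_mul_mem {Z R B : Type} [CommRing Z] [Ring R] [Algebra Z R] [Ring B]
    {f : R →+* B} (σ τ : Z) (b : B) (h : f (algebraMap Z R σ) * b ∈ f.range) :
    f (algebraMap Z R (τ * σ)) * b ∈ f.range := by
  rw [map_mul, map_mul, mul_assoc]
  exact f.range.mul_mem ⟨_, rfl⟩ h

theorem lcP_tv (h3 : 3 ≤ Fintype.card ι) {Z R B : Type} [CommRing Z] [Ring R] [Algebra Z R]
    [Ring B] {S : Submonoid Z} {f : R →+* B} (hf : Loc S f) (i j : ι) (hij : i ≠ j) (b : B) :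
    lcP S f (tv i j hij b) := by
  intro s' hs'
  obtain ⟨σ₀, hσ₀, r, hr⟩ := hf.surj b
  refine ⟨(σ₀ * s') * (σ₀ * s'), S.mul_mem (S.mul_mem hσ₀ hs') (S.mul_mem hσ₀ hs'), ?_⟩
  intro x hx
  have key := conj_tv h3 f.range (f (algebraMap Z R σ₀)) (f (algebraMap Z R s'))
    (hf.central σ₀) (hf.central s') ⟨_, rfl⟩ ⟨_, rfl⟩ i j hij b (by rw [hr]; exact ⟨r, rfl⟩) x
    (by
      refine EL_mono ?_ hx
      rintro y ⟨r', rfl⟩
      refine ⟨f r', ⟨r', rfl⟩, ?_⟩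
      rw [lc_smul]
      simp only [map_mul, mul_assoc])
  refine EL_mono ?_ key
  rintro y ⟨m, ⟨r', rfl⟩, rfl⟩
  exact ⟨r', (lc_smul f s' r').symm⟩

theorem lcP_dg {Z R B : Type} [CommRing Z] [Ring R] [Algebra Z R]
    [Ring B] {S : Submonoid Z} {f : R →+* B} (hf : Loc S f) (d : ι → Bˣ) :
    lcP S f (dg d) := by
  intro s' hs'
  obtain ⟨σ₁, hσ₁, h1⟩ := lc_den hf (fun i => (d i : B))
  obtain ⟨σ₂, hσ₂, h2⟩ := lc_den hf (fun i => (((d i)⁻¹ : Bˣ) : B))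
  have hσ : σ₁ * σ₂ ∈ S := S.mul_mem hσ₁ hσ₂
  have h1' : ∀ i, f (algebraMap Z R (σ₁ * σ₂)) * (d i : B) ∈ f.range := by
    intro i
    rw [mul_comm σ₁ σ₂]
    exact lc_mul_mem σ₁ σ₂ _ (h1 i)
  have h2' : ∀ i, f (algebraMap Z R (σ₁ * σ₂)) * (((d i)⁻¹ : Bˣ) : B) ∈ f.range := fun i =>
    lc_mul_mem σ₂ σ₁ _ (h2 i)
  set σ₀ := σ₁ * σ₂ with hdef
  refine ⟨σ₀ * (σ₀ * s'), S.mul_mem hσ (S.mul_mem hσ hs'), ?_⟩
  intro x hx
  have key := conj_dg f.range (f (algebraMap Z R σ₀)) (f (algebraMap Z R s'))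
    (hf.central σ₀) (hf.central s') d h1' h2' x
    (by
      refine EL_mono ?_ hx
      rintro y ⟨r', rfl⟩
      refine ⟨f r', ⟨r', rfl⟩, ?_⟩
      rw [lc_smul]
      simp only [map_mul, mul_assoc])
  refine EL_mono ?_ key
  rintro y ⟨m, ⟨r', rfl⟩, rfl⟩
  exact ⟨r', (lc_smul f s' r').symm⟩

theorem lcP_El (h3 : 3 ≤ Fintype.card ι) {Z R B : Type} [CommRing Z] [Ring R] [Algebra Z R]
    [Ring B] {S : Submonoid Z} {f : R →+* B} (hf : Loc S f) (e : (Matrix ι ι B)ˣ)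
    (he : e ∈ El ι B) : lcP S f e ∧ lcP S f e⁻¹ := by
  unfold El EL at he
  induction he using Subgroup.closure_induction with
  | mem x hx =>
    obtain ⟨i, j, h, y, _, rfl⟩ := hx
    refine ⟨lcP_tv h3 hf i j h y, ?_⟩
    rw [tv_inv]
    exact lcP_tv h3 hf i j h (-y)
  | one =>
    rw [inv_one]
    exact ⟨lcP_one S f, lcP_one S f⟩
  | mul x y _ _ hx hy =>
    refine ⟨lcP_mul S f x y hx.1 hy.1, ?_⟩
    rw [_root_.mul_inv_rev]
    exact lcP_mul S f _ _ hy.2 hx.2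
  | inv x _ hx =>
    rw [inv_inv]
    exact ⟨hx.2, hx.1⟩

theorem loc_conj (h3 : 3 ≤ Fintype.card ι) {Z R B : Type} [CommRing Z] [Ring R] [Algebra Z R]
    [Ring B] {S : Submonoid Z} {f : R →+* B} (hf : Loc S f) (w : (Matrix ι ι B)ˣ)
    (hw : ∃ e ∈ El ι B, ∃ d : ι → Bˣ, w = e * dg d) (s' : Z) (hs' : s' ∈ S) :
    ∃ s ∈ S, ∀ x ∈ EL ι {y : B | ∃ r : R, y = f (s • r)},
      w * x * w⁻¹ ∈ EL ι {y : B | ∃ r : R, y = f (s' • r)} := by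
  obtain ⟨e, he, d, rfl⟩ := hw
  exact lcP_mul S f e (dg d) (lcP_El h3 hf e he).1 (lcP_dg hf d) s' hs'

end statements

end Pool.Agent.Helper58.EN
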