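import Pool.Agent.Helper58.EN.Defs
import Pool.Agent.Helper58.EN.JC
import Pool.Agent.Helper58.EN.JE
import Pool.Agent.Helper58.EN.JF

set_option autoImplicit false

namespace Pool.Agent.Helper58.EN

open Matrix

variable {ι : Type} [Fintype ι] [DecidableEq ι]


section statements
open Polynomial

theorem EL_one_add {Z Λ : Type} [CommRing Z] [Ring Λ] [Algebra Z Λ] (s1 : Z)
    (z : (Matrix ι ι Λ)ˣ) (hz : z ∈ EL ι {y : Λ | ∃ r : Λ, y = s1 • r}) :
    ∃ M : Matrix ι ι Λ, (z : Matrix ι ι Λ) = 1 + s1 • M := by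
  unfold EL at hz
  induction hz using Subgroup.closure_induction with
  | mem x hx =>
    obtain ⟨i, j, h, y, ⟨r, rfl⟩, rfl⟩ := hx
    refine ⟨Matrix.single i j r, ?_⟩
    rw [tv_val, Matrix.smul_single]
  | one => exact ⟨0, by simp⟩
  | mul x y _ _ hx hy =>
    obtain ⟨M, hM⟩ := hx
    obtain ⟨N, hN⟩ := hy
    refine ⟨M + N + s1 • (M * N), ?_⟩
    rw [Units.val_mul, hM, hN]
    simp only [mul_add, add_mul, one_mul, mul_one, smul_mul_assoc, mul_smul_comm, smul_add]
    abel
  | inv x _ hx =>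
    obtain ⟨M, hM⟩ := hx
    refine ⟨-(M * ((x⁻¹ : (Matrix ι ι Λ)ˣ) : Matrix ι ι Λ)), ?_⟩
    have h1 : (x : Matrix ι ι Λ) * ((x⁻¹ : (Matrix ι ι Λ)ˣ) : Matrix ι ι Λ) = 1 := x.mul_inv
    rw [hM, add_mul, one_mul, smul_mul_assoc] at h1
    rw [smul_neg, ← h1]
    abel

theorem loc_ker {Z Λ B : Type} [CommRing Z] [IsNoetherianRing Z]
    [Ring Λ] [Algebra Z Λ] [Module.Finite Z Λ] [Ring B] {S : Submonoid Z} {f : Λ →+* B}
    (hf : Loc S f) : ∃ s1 ∈ S, ∀ r : Λ, f r = 0 → s1 • r = 0 := by
  classical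
  let K : Submodule Z Λ :=
    { carrier := {r | f r = 0}
      add_mem' := by
        intro a b ha hb
        show f (a + b) = 0
        have ha' : f a = 0 := ha
        have hb' : f b = 0 := hb
        rw [map_add, ha', hb', add_zero]
      zero_mem' := map_zero f
      smul_mem' := by
        intro c x hx
        show f (c • x) = 0
        have hx' : f x = 0 := hx
        rw [Algebra.smul_def, map_mul, hx', mul_zero] }
  have : IsNoetherian Z Λ := inferInstance
  obtain ⟨T, hT⟩ := (IsNoetherian.noetherian K : K.FG)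
  have hk : ∀ r ∈ T, ∃ s ∈ S, s • r = 0 := by
    intro r hr
    have : r ∈ K := by rw [← hT]; exact Submodule.subset_span hr
    exact hf.ker r this
  choose! s hs hs' using hk
  have key : ∀ r ∈ Submodule.span Z (T : Set Λ), (∏ r ∈ T, s r) • r = 0 := by
    intro r hrK
    induction hrK using Submodule.span_induction with
    | mem x hx =>
      have hx' : x ∈ T := hx
      rw [← Finset.prod_erase_mul T s hx', mul_smul, hs' x hx', smul_zero]
    | zero => exact smul_zero _
    | add x y _ _ hx hy => rw [smul_add, hx, hy, add_zero]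
    | smul c x _ hx => rw [smul_comm, hx, smul_zero]
  refine ⟨∏ r ∈ T, s r, Submonoid.prod_mem _ hs, fun r hr => key r ?_⟩
  rw [hT]; exact hr

theorem ST_noeth (h3 : 3 ≤ Fintype.card ι) {Z Λ : Type} [CommRing Z] [IsNoetherianRing Z]
    [Ring Λ] [Algebra Z Λ] [Module.Finite Z Λ] (g : (Matrix ι ι Λ)ˣ) : NE g := by
  classical
  -- reduction to transvections
  suffices hmain : ∀ (i j : ι) (h : i ≠ j) (r : Λ), g * tv i j h r * g⁻¹ ∈ El ι Λ by
    intro e he
    unfold El EL at he
    induction he using Subgroup.closure_induction with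
    | mem x hx =>
      obtain ⟨i, j, h, y, _, rfl⟩ := hx
      exact hmain i j h y
    | one => simpa using Subgroup.one_mem _
    | mul x y _ _ hx hy =>
      have := Subgroup.mul_mem _ hx hy
      have e1 : g * (x * y) * g⁻¹ = g * x * g⁻¹ * (g * y * g⁻¹) := by group
      rw [e1]; exact this
    | inv x _ hx =>
      have := Subgroup.inv_mem _ hx
      have e1 : g * x⁻¹ * g⁻¹ = (g * x * g⁻¹)⁻¹ := by group
      rw [e1]; exact this
  let a : Ideal Z :=
    { carrier := {s | ∀ (i j : ι) (h : i ≠ j) (r : Λ), g * tv i j h (s • r) * g⁻¹ ∈ El ι Λ}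
      add_mem' := by
        intro s t hs ht i j h r
        have e1 : g * tv i j h ((s + t) • r) * g⁻¹ =
            g * tv i j h (s • r) * g⁻¹ * (g * tv i j h (t • r) * g⁻¹) := by
          rw [add_smul, tv_add]; group
        rw [e1]
        exact Subgroup.mul_mem _ (hs i j h r) (ht i j h r)
      zero_mem' := by
        intro i j h r
        rw [zero_smul, tv_zero]
        simpa using Subgroup.one_mem _
      smul_mem' := by
        intro c s hs i j h r
        have := hs i j h (c • r)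
        rw [smul_smul, mul_comm] at this
        exact this }
  have ha : ∀ s : Z, s ∈ a ↔ ∀ (i j : ι) (h : i ≠ j) (r : Λ), g * tv i j h (s • r) * g⁻¹ ∈ El ι Λ :=
    fun s => Iff.rfl
  by_cases hatop : a = ⊤
  · intro i j h r
    have h1 : (1 : Z) ∈ a := by rw [hatop]; trivial
    have := (ha 1).1 h1 i j h r
    rwa [one_smul] at this
  exfalso
  obtain ⟨m, hm, ham⟩ := Ideal.exists_le_maximal a hatop
  have hmp : m.IsPrime := hm.isPrime
  obtain ⟨B, instB, instA, f, hf, _, hfin⟩ := exists_loc Z Λ m.primeCompl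
  have hfinB : Module.Finite (Localization m.primeCompl) B := hfin inferInstance
  have hloc : IsLocalRing (Localization m.primeCompl) :=
    IsLocalization.AtPrime.isLocalRing (Localization m.primeCompl) m
  have hGE : GE ι B := GE_local (Localization m.primeCompl)
  obtain ⟨s1, hs1, hs1k⟩ := loc_ker hf
  obtain ⟨s, hs, hsx⟩ := loc_conj h3 hf (mapGL f g) (hGE (mapGL f g)) s1 hs1
  have hss : s * s1 ∈ a := by
    rw [ha]
    intro i j h r
    set y : (Matrix ι ι Λ)ˣ := g * tv i j h ((s * s1) • r) * g⁻¹ with hy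
    have h1 : mapGL f y ∈ EL ι {y : B | ∃ r : Λ, y = f (s1 • r)} := by
      have e1 : mapGL f y = mapGL f g * tv i j h (f ((s * s1) • r)) * (mapGL f g)⁻¹ := by
        rw [hy, map_mul, map_mul, map_inv, mapGL_tv]
      rw [e1]
      refine hsx _ (tv_mem i j h ⟨s1 • r, ?_⟩)
      rw [smul_smul]
    have h2 : {y : B | ∃ r : Λ, y = f (s1 • r)} = f '' {y : Λ | ∃ r : Λ, y = s1 • r} := by
      ext b
      constructor
      · rintro ⟨r, rfl⟩
        exact ⟨s1 • r, ⟨r, rfl⟩, rfl⟩
      · rintro ⟨_, ⟨r, rfl⟩, rfl⟩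
        exact ⟨r, rfl⟩
    rw [h2, ← mapGL_EL] at h1
    obtain ⟨z, hz, hzy⟩ := h1
    obtain ⟨N, hN⟩ := EL_one_add s1 z hz
    have hyM : (y : Matrix ι ι Λ) = 1 + s1 • ((g : Matrix ι ι Λ) * Matrix.single i j (s • r) *
        ((g⁻¹ : (Matrix ι ι Λ)ˣ) : Matrix ι ι Λ)) := by
      have e2 : Matrix.single i j ((s * s1) • r) = s1 • (Matrix.single i j (s • r) : Matrix ι ι Λ) := by
        rw [Matrix.smul_single, smul_smul, mul_comm]
      have e3 : (g : Matrix ι ι Λ) * ((g⁻¹ : (Matrix ι ι Λ)ˣ) : Matrix ι ι Λ) = 1 := g.mul_inv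
      rw [hy, Units.val_mul, Units.val_mul, tv_val, e2, mul_add, add_mul, mul_one, e3,
        mul_smul_comm, smul_mul_assoc]
    have hyz : y = z := by
      ext p q
      have h3 : f ((y : Matrix ι ι Λ) p q) = f ((z : Matrix ι ι Λ) p q) := by
        have h4 := congrArg (fun u : (Matrix ι ι B)ˣ => (u : Matrix ι ι B) p q) hzy
        simpa using h4.symm
      have h5 : ∃ x : Λ, (y : Matrix ι ι Λ) p q - (z : Matrix ι ι Λ) p q = s1 • x := by
        rw [hyM, hN]
        refine ⟨((g : Matrix ι ι Λ) * Matrix.single i j (s • r) *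
          ((g⁻¹ : (Matrix ι ι Λ)ˣ) : Matrix ι ι Λ)) p q - N p q, ?_⟩
        rw [Matrix.add_apply, Matrix.add_apply, Matrix.smul_apply, Matrix.smul_apply, smul_sub]
        abel
      obtain ⟨x, hx⟩ := h5
      have h6 : f (s1 • x) = 0 := by rw [← hx, map_sub, h3, sub_self]
      have h7 : f x = 0 := by
        rw [Algebra.smul_def, map_mul] at h6
        obtain ⟨u, hu⟩ := hf.unit s1 hs1
        rw [← hu] at h6
        exact (Units.mul_right_eq_zero u).1 h6
      have h8 := hs1k x h7
      rw [h8] at hx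
      exact sub_eq_zero.1 hx
    rw [hyz]
    exact EL_le_El hz
  have h9 : s * s1 ∈ m := ham hss
  have h10 : s * s1 ∈ m.primeCompl := Submonoid.mul_mem _ hs hs1
  exact h10 h9

end statements

end Pool.Agent.Helper58.EN
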