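import Pool.Agent.Helper58.EN.Defs
import Pool.Agent.Helper58.EN.JG

set_option autoImplicit false

namespace Pool.Agent.Helper58.EN

open Matrix

variable {ι : Type} [Fintype ι] [DecidableEq ι]


section statements
open Polynomial

theorem ST_aux_mem {Z Λ : Type} [CommRing Z] [Ring Λ] [Algebra Z Λ] (Z0 : Subalgebra ℤ Z)
    (T : Finset Λ) (f : Λ → Z) (x : Λ) (hx : ∑ t ∈ T, f t • t = x) (hf : ∀ t ∈ T, f t ∈ Z0) :
    x ∈ Submodule.span Z0 (T : Set Λ) := by
  rw [← hx]
  apply Submodule.sum_mem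
  intro t ht
  have : f t • t = (⟨f t, hf t ht⟩ : Z0) • t := rfl
  rw [this]
  exact Submodule.smul_mem _ _ (Submodule.subset_span ht)

theorem ST_aux (h3 : 3 ≤ Fintype.card ι) {Z Λ : Type} [CommRing Z]
    [Ring Λ] [Algebra Z Λ] [Module.Finite Z Λ] (g : (Matrix ι ι Λ)ˣ) (i j : ι) (h : i ≠ j) (r : Λ) :
    g * tv i j h r * g⁻¹ ∈ El ι Λ := by
  classical
  obtain ⟨s, hs⟩ := (Module.Finite.fg_top : (⊤ : Submodule Z Λ).FG)
  set T : Finset Λ := insert 1 s with hT
  have hTspan : Submodule.span Z (T : Set Λ) = ⊤ := by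
    rw [eq_top_iff, ← hs]
    apply Submodule.span_mono
    rw [hT]
    intro x hx
    simp only [Finset.coe_insert]
    exact Or.inr hx
  have hc : ∀ x : Λ, ∃ f : Λ → Z, ∑ t ∈ T, f t • t = x := by
    intro x
    have hx : x ∈ Submodule.span Z (T : Set Λ) := by rw [hTspan]; trivial
    obtain ⟨f, _, hf⟩ := Submodule.mem_span_finset.1 hx
    exact ⟨f, hf⟩
  choose c hc using hc
  set X : Finset Λ := ((T ×ˢ T).image (fun p => p.1 * p.2)) ∪
    (Finset.univ.image (fun p : ι × ι => (g : Matrix ι ι Λ) p.1 p.2)) ∪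
    (Finset.univ.image (fun p : ι × ι => ((g⁻¹ : (Matrix ι ι Λ)ˣ) : Matrix ι ι Λ) p.1 p.2)) ∪ {r}
    with hX
  set C : Finset Z := X.biUnion (fun x => T.image (c x)) with hC
  set Z0 : Subalgebra ℤ Z := Algebra.adjoin ℤ (C : Set Z) with hZ0
  have hft : Algebra.FiniteType ℤ Z0 := by
    have h1 : Z0.FG := Subalgebra.fg_adjoin_finset C
    exact (Subalgebra.fg_iff_finiteType Z0).1 h1
  have hnoeth : IsNoetherianRing Z0 := Algebra.FiniteType.isNoetherianRing ℤ Z0
  set N : Submodule Z0 Λ := Submodule.span Z0 (T : Set Λ) with hN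
  have hXN : ∀ x ∈ X, x ∈ N := by
    intro x hx
    apply ST_aux_mem Z0 T (c x) x (hc x)
    intro t ht
    apply Algebra.subset_adjoin
    rw [hC, Finset.mem_coe, Finset.mem_biUnion]
    exact ⟨x, hx, Finset.mem_image_of_mem _ ht⟩
  have hTN : ∀ t ∈ T, t ∈ N := fun t ht => Submodule.subset_span ht
  have h1N : (1 : Λ) ∈ N := hTN 1 (by rw [hT]; exact Finset.mem_insert_self _ _)
  have hmul : ∀ x y, x ∈ N → y ∈ N → x * y ∈ N := by
    intro x y hx hy
    have h2 : N * N ≤ N := by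
      rw [hN, Submodule.span_mul_span, Submodule.span_le]
      rintro _ ⟨a, ha, b, hb, rfl⟩
      apply hXN
      rw [hX]
      simp only [Finset.mem_union, Finset.mem_image, Finset.mem_product]
      exact Or.inl (Or.inl (Or.inl ⟨(a, b), ⟨ha, hb⟩, rfl⟩))
    exact h2 (Submodule.mul_mem_mul hx hy)
  let Λ0 : Subalgebra Z0 Λ := N.toSubalgebra h1N hmul
  have hmemΛ : ∀ x, x ∈ N → x ∈ Λ0 := fun x hx => hx
  have hfin : Module.Finite Z0 Λ0 := by
    have : Module.Finite Z0 N := Module.Finite.iff_fg.2 ⟨T, rfl⟩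
    exact this
  have hg : ∀ a b, (g : Matrix ι ι Λ) a b ∈ Λ0 := by
    intro a b
    apply hmemΛ
    apply hXN
    rw [hX]
    simp only [Finset.mem_union, Finset.mem_image, Finset.mem_univ, true_and]
    exact Or.inl (Or.inl (Or.inr ⟨(a, b), rfl⟩))
  have hg' : ∀ a b, ((g⁻¹ : (Matrix ι ι Λ)ˣ) : Matrix ι ι Λ) a b ∈ Λ0 := by
    intro a b
    apply hmemΛ
    apply hXN
    rw [hX]
    simp only [Finset.mem_union, Finset.mem_image, Finset.mem_univ, true_and]
    exact Or.inl (Or.inr ⟨(a, b), rfl⟩)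
  have hr : r ∈ Λ0 := by
    apply hmemΛ
    apply hXN
    rw [hX]
    simp
  have hinj : Function.Injective (Λ0.val : Λ0 →+* Λ) := Subtype.val_injective
  have hmapinj : ∀ A B : Matrix ι ι Λ0, A.map (Λ0.val : Λ0 →+* Λ) = B.map (Λ0.val : Λ0 →+* Λ) →
      A = B := by
    intro A B hAB
    ext a b
    have := congrFun (congrFun hAB a) b
    exact this
  let g0 : (Matrix ι ι Λ0)ˣ :=
    { val := Matrix.of fun a b => ⟨(g : Matrix ι ι Λ) a b, hg a b⟩
      inv := Matrix.of fun a b => ⟨((g⁻¹ : (Matrix ι ι Λ)ˣ) : Matrix ι ι Λ) a b, hg' a b⟩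
      val_inv := by
        apply hmapinj
        rw [Matrix.map_mul, Matrix.map_one _ (map_zero _) (map_one _)]
        have := g.mul_inv
        exact this
      inv_val := by
        apply hmapinj
        rw [Matrix.map_mul, Matrix.map_one _ (map_zero _) (map_one _)]
        have := g.inv_mul
        exact this }
  have hg0 : mapGL (Λ0.val : Λ0 →+* Λ) g0 = g := by
    ext : 1
    rfl
  have key := ST_noeth (ι := ι) h3 (Z := Z0) (Λ := Λ0) g0 (tv i j h ⟨r, hr⟩) (tv_mem' i j h _)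
  have key2 := mapGL_mem (Λ0.val : Λ0 →+* Λ) key
  rw [map_mul, map_mul, map_inv, hg0, mapGL_tv] at key2
  exact key2

theorem ST (h3 : 3 ≤ Fintype.card ι) {Z Λ : Type} [CommRing Z]
    [Ring Λ] [Algebra Z Λ] [Module.Finite Z Λ] (g : (Matrix ι ι Λ)ˣ) : NE g := by
  intro e he
  unfold El EL at he
  induction he using Subgroup.closure_induction with
  | mem x hx =>
    obtain ⟨i, j, h, r, _, rfl⟩ := hx
    exact ST_aux h3 (Z := Z) g i j h r
  | one => simpa using (El ι Λ).one_mem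
  | mul x y _ _ hx hy =>
    have : g * (x * y) * g⁻¹ = (g * x * g⁻¹) * (g * y * g⁻¹) := by group
    rw [this]
    exact (El ι Λ).mul_mem hx hy
  | inv x _ hx =>
    have : g * x⁻¹ * g⁻¹ = (g * x * g⁻¹)⁻¹ := by group
    rw [this]
    exact (El ι Λ).inv_mem hx

end statements

end Pool.Agent.Helper58.EN
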