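import Pool.Agent.Helper58.EN.Defs

set_option autoImplicit false

namespace Pool.Agent.Helper58.EN

open Matrix

variable {ι : Type} [Fintype ι] [DecidableEq ι]


section statements
open Polynomial

/-- conjugating a closure -/
theorem conj_closure_aux {G : Type} [Group G] (S : Set G) (K : Subgroup G) (t : G)
    (h : ∀ g ∈ S, t * g * t⁻¹ ∈ K) : ∀ w ∈ Subgroup.closure S, t * w * t⁻¹ ∈ K := by
  intro w hw
  induction hw using Subgroup.closure_induction with
  | mem g hg => exact h g hg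
  | one => simp [K.one_mem]
  | mul a b _ _ ha hb =>
    have h1 : t * (a * b) * t⁻¹ = (t * a * t⁻¹) * (t * b * t⁻¹) := by group
    rw [h1]; exact K.mul_mem ha hb
  | inv a _ ha =>
    have h1 : t * a⁻¹ * t⁻¹ = (t * a * t⁻¹)⁻¹ := by group
    rw [h1]; exact K.inv_mem ha

/-- the conjugated transvections -/
def zz {Λ : Type} [Ring Λ] (i j : ι) (h : i ≠ j) (a x : Λ) : (Matrix ι ι Λ)ˣ :=
  tv j i h.symm x * tv i j h a * (tv j i h.symm x)⁻¹

/-- the group generated by the conjugated transvections with entry in `c * (c * m)` -/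
def WW (ι : Type) [Fintype ι] [DecidableEq ι] {Λ : Type} [Ring Λ] (c : Λ) :
    Subgroup (Matrix ι ι Λ)ˣ :=
  Subgroup.closure {g | ∃ i j, ∃ h : i ≠ j, ∃ m x : Λ, g = zz i j h (c * (c * m)) x}

theorem zz_mem_WW {Λ : Type} [Ring Λ] {c : Λ} (i j : ι) (h : i ≠ j) (m x : Λ) :
    zz i j h (c * (c * m)) x ∈ WW ι c :=
  Subgroup.subset_closure ⟨i, j, h, m, x, rfl⟩

theorem tv_mem_WW {Λ : Type} [Ring Λ] {c : Λ} (i j : ι) (h : i ≠ j) (m : Λ) :
    tv i j h (c * (c * m)) ∈ WW ι c := by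
  have h1 := zz_mem_WW (c := c) i j h m 0
  unfold zz at h1
  simpa using h1

theorem tv_mem_WW' {Λ : Type} [Ring Λ] {c : Λ} (i j : ι) (h : i ≠ j) {a : Λ}
    (ha : ∃ m, a = c * (c * m)) : tv i j h a ∈ WW ι c := by
  obtain ⟨m, rfl⟩ := ha
  exact tv_mem_WW i j h m

theorem ideal_left {Λ : Type} [Ring Λ] {c : Λ} (hc : ∀ x, c * x = x * c) (y : Λ) {a : Λ}
    (ha : ∃ m, a = c * (c * m)) : ∃ m, y * a = c * (c * m) := by
  obtain ⟨m, rfl⟩ := ha
  refine ⟨y * m, ?_⟩
  rw [← mul_assoc, ← hc y, mul_assoc, ← mul_assoc y, ← hc y, mul_assoc]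

theorem ideal_right {Λ : Type} [Ring Λ] {c : Λ} (y : Λ) {a : Λ}
    (ha : ∃ m, a = c * (c * m)) : ∃ m, a * y = c * (c * m) := by
  obtain ⟨m, rfl⟩ := ha
  exact ⟨m * y, by simp only [mul_assoc]⟩

theorem ideal_neg {Λ : Type} [Ring Λ] {c : Λ} {a : Λ}
    (ha : ∃ m, a = c * (c * m)) : ∃ m, -a = c * (c * m) := by
  obtain ⟨m, rfl⟩ := ha
  exact ⟨-m, by simp only [mul_neg]⟩

theorem ideal_add {Λ : Type} [Ring Λ] {c : Λ} {a b : Λ}
    (ha : ∃ m, a = c * (c * m)) (hb : ∃ m, b = c * (c * m)) : ∃ m, a + b = c * (c * m) := by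
  obtain ⟨m, rfl⟩ := ha
  obtain ⟨m', rfl⟩ := hb
  exact ⟨m + m', by simp only [mul_add]⟩

theorem zz_mem_WW' {Λ : Type} [Ring Λ] {c : Λ} (i j : ι) (h : i ≠ j) {a : Λ} (x : Λ)
    (ha : ∃ m, a = c * (c * m)) : zz i j h a x ∈ WW ι c := by
  obtain ⟨m, rfl⟩ := ha
  exact zz_mem_WW i j h m x

/-- conj by `tv k i y`, `k` different from `i`, `j` -/
theorem zz_conj_B2i {Λ : Type} [Ring Λ] {c : Λ} (hc : ∀ x, c * x = x * c) (i j k : ι)
    (h : i ≠ j) (hki : k ≠ i) (hkj : k ≠ j) {a : Λ} (x y : Λ) (ha : ∃ m, a = c * (c * m)) :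
    tv k i hki y * zz i j h a x * (tv k i hki y)⁻¹ ∈ WW ι c := by
  have e1 : tv k i hki y * tv j i h.symm x * (tv k i hki y)⁻¹ = tv j i h.symm x :=
    tv_commute k i j i hki h.symm h hki y x
  have e2 : tv k i hki y * tv i j h a * (tv k i hki y)⁻¹ = tv k j hkj (y * a) * tv i j h a :=
    tv_conj_right k i j hki h hkj y a
  have e3 : tv j i h.symm x * tv k j hkj (y * a) * (tv j i h.symm x)⁻¹ =
      tv k i hki (-((y * a) * x)) * tv k j hkj (y * a) :=
    tv_conj_left j i k h.symm hkj hki x (y * a)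
  have e4 : tv k i hki y * zz i j h a x * (tv k i hki y)⁻¹ =
      (tv k i hki (-((y * a) * x)) * tv k j hkj (y * a)) * zz i j h a x := by
    unfold zz
    calc _ = (tv k i hki y * tv j i h.symm x * (tv k i hki y)⁻¹) *
          (tv k i hki y * tv i j h a * (tv k i hki y)⁻¹) *
          (tv k i hki y * tv j i h.symm x * (tv k i hki y)⁻¹)⁻¹ := by group
      _ = tv j i h.symm x * (tv k j hkj (y * a) * tv i j h a) * (tv j i h.symm x)⁻¹ := by
          rw [e1, e2]
      _ = (tv j i h.symm x * tv k j hkj (y * a) * (tv j i h.symm x)⁻¹) *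
          (tv j i h.symm x * tv i j h a * (tv j i h.symm x)⁻¹) := by group
      _ = _ := by rw [e3]
  rw [e4]
  have hya := ideal_left hc y ha
  exact (WW ι c).mul_mem ((WW ι c).mul_mem (tv_mem_WW' _ _ _ (ideal_neg (ideal_right x hya)))
    (tv_mem_WW' _ _ _ hya)) (zz_mem_WW' i j h x ha)

theorem zz_conj_B2j {Λ : Type} [Ring Λ] {c : Λ} (hc : ∀ x, c * x = x * c) (i j k : ι)
    (h : i ≠ j) (hki : k ≠ i) (hkj : k ≠ j) {a : Λ} (x y : Λ) (ha : ∃ m, a = c * (c * m)) :
    tv k j hkj y * zz i j h a x * (tv k j hkj y)⁻¹ ∈ WW ι c := by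
  have e1 : tv k j hkj y * tv j i h.symm x * (tv k j hkj y)⁻¹ =
      tv k i hki (y * x) * tv j i h.symm x := tv_conj_right k j i hkj h.symm hki y x
  have e2 : tv k j hkj y * tv i j h a * (tv k j hkj y)⁻¹ = tv i j h a :=
    tv_commute k j i j hkj h h.symm hkj y a
  have e4 : tv k j hkj y * zz i j h a x * (tv k j hkj y)⁻¹ =
      tv k i hki (y * x) * zz i j h a x * (tv k i hki (y * x))⁻¹ := by
    unfold zz
    calc _ = (tv k j hkj y * tv j i h.symm x * (tv k j hkj y)⁻¹) *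
          (tv k j hkj y * tv i j h a * (tv k j hkj y)⁻¹) *
          (tv k j hkj y * tv j i h.symm x * (tv k j hkj y)⁻¹)⁻¹ := by group
      _ = (tv k i hki (y * x) * tv j i h.symm x) * tv i j h a *
          (tv k i hki (y * x) * tv j i h.symm x)⁻¹ := by rw [e1, e2]
      _ = _ := by group
  rw [e4]
  exact zz_conj_B2i hc i j k h hki hkj x (y * x) ha

theorem zz_conj_B3j {Λ : Type} [Ring Λ] {c : Λ} (hc : ∀ x, c * x = x * c) (i j l : ι)
    (h : i ≠ j) (hil : i ≠ l) (hjl : j ≠ l) {a : Λ} (x y : Λ) (ha : ∃ m, a = c * (c * m)) :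
    tv j l hjl y * zz i j h a x * (tv j l hjl y)⁻¹ ∈ WW ι c := by
  have e1 : tv j l hjl y * tv j i h.symm x * (tv j l hjl y)⁻¹ = tv j i h.symm x :=
    tv_commute j l j i hjl h.symm hjl.symm h.symm y x
  have e2 : tv j l hjl y * tv i j h a * (tv j l hjl y)⁻¹ =
      tv i l hil (-(a * y)) * tv i j h a := tv_conj_left j l i hjl h hil y a
  have e3 : tv j i h.symm x * tv i l hil (-(a * y)) * (tv j i h.symm x)⁻¹ =
      tv j l hjl (x * (-(a * y))) * tv i l hil (-(a * y)) :=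
    tv_conj_right j i l h.symm hil hjl x (-(a * y))
  have e4 : tv j l hjl y * zz i j h a x * (tv j l hjl y)⁻¹ =
      (tv j l hjl (x * (-(a * y))) * tv i l hil (-(a * y))) * zz i j h a x := by
    unfold zz
    calc _ = (tv j l hjl y * tv j i h.symm x * (tv j l hjl y)⁻¹) *
          (tv j l hjl y * tv i j h a * (tv j l hjl y)⁻¹) *
          (tv j l hjl y * tv j i h.symm x * (tv j l hjl y)⁻¹)⁻¹ := by group
      _ = tv j i h.symm x * (tv i l hil (-(a * y)) * tv i j h a) * (tv j i h.symm x)⁻¹ := by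
          rw [e1, e2]
      _ = (tv j i h.symm x * tv i l hil (-(a * y)) * (tv j i h.symm x)⁻¹) *
          (tv j i h.symm x * tv i j h a * (tv j i h.symm x)⁻¹) := by group
      _ = _ := by rw [e3]
  rw [e4]
  have hay := ideal_neg (ideal_right y ha)
  exact (WW ι c).mul_mem ((WW ι c).mul_mem (tv_mem_WW' _ _ _ (ideal_left hc x hay))
    (tv_mem_WW' _ _ _ hay)) (zz_mem_WW' i j h x ha)

theorem zz_conj_B3i {Λ : Type} [Ring Λ] {c : Λ} (hc : ∀ x, c * x = x * c) (i j l : ι)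
    (h : i ≠ j) (hil : i ≠ l) (hjl : j ≠ l) {a : Λ} (x y : Λ) (ha : ∃ m, a = c * (c * m)) :
    tv i l hil y * zz i j h a x * (tv i l hil y)⁻¹ ∈ WW ι c := by
  have e1 : tv i l hil y * tv j i h.symm x * (tv i l hil y)⁻¹ =
      tv j l hjl (-(x * y)) * tv j i h.symm x := tv_conj_left i l j hil h.symm hjl y x
  have e2 : tv i l hil y * tv i j h a * (tv i l hil y)⁻¹ = tv i j h a :=
    tv_commute i l i j hil h hil.symm h y a
  have e4 : tv i l hil y * zz i j h a x * (tv i l hil y)⁻¹ =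
      tv j l hjl (-(x * y)) * zz i j h a x * (tv j l hjl (-(x * y)))⁻¹ := by
    unfold zz
    calc _ = (tv i l hil y * tv j i h.symm x * (tv i l hil y)⁻¹) *
          (tv i l hil y * tv i j h a * (tv i l hil y)⁻¹) *
          (tv i l hil y * tv j i h.symm x * (tv i l hil y)⁻¹)⁻¹ := by group
      _ = (tv j l hjl (-(x * y)) * tv j i h.symm x) * tv i j h a *
          (tv j l hjl (-(x * y)) * tv j i h.symm x)⁻¹ := by rw [e1, e2]
      _ = _ := by group
  rw [e4]
  exact zz_conj_B3j hc i j l h hil hjl x (-(x * y)) ha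

/-- conj by a transvection with both indices outside -/
theorem zz_conj_B1 {Λ : Type} [Ring Λ] {c : Λ} (i j k l : ι)
    (h : i ≠ j) (hkl : k ≠ l) (hki : k ≠ i) (hkj : k ≠ j) (hli : l ≠ i) (hlj : l ≠ j)
    {a : Λ} (x y : Λ) (ha : ∃ m, a = c * (c * m)) :
    tv k l hkl y * zz i j h a x * (tv k l hkl y)⁻¹ ∈ WW ι c := by
  have e1 : tv k l hkl y * tv j i h.symm x * (tv k l hkl y)⁻¹ = tv j i h.symm x :=
    tv_commute k l j i hkl h.symm hlj hki y x
  have e2 : tv k l hkl y * tv i j h a * (tv k l hkl y)⁻¹ = tv i j h a :=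
    tv_commute k l i j hkl h hli hkj y a
  have e4 : tv k l hkl y * zz i j h a x * (tv k l hkl y)⁻¹ = zz i j h a x := by
    unfold zz
    calc _ = (tv k l hkl y * tv j i h.symm x * (tv k l hkl y)⁻¹) *
          (tv k l hkl y * tv i j h a * (tv k l hkl y)⁻¹) *
          (tv k l hkl y * tv j i h.symm x * (tv k l hkl y)⁻¹)⁻¹ := by group
      _ = _ := by rw [e1, e2]
  rw [e4]
  exact zz_mem_WW' i j h x ha

/-- conj by the opposite transvection -/
theorem zz_conj_A {Λ : Type} [Ring Λ] {c : Λ} (i j : ι)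
    (h : i ≠ j) {a : Λ} (x y : Λ) (ha : ∃ m, a = c * (c * m)) :
    tv j i h.symm y * zz i j h a x * (tv j i h.symm y)⁻¹ ∈ WW ι c := by
  have e4 : tv j i h.symm y * zz i j h a x * (tv j i h.symm y)⁻¹ = zz i j h a (y + x) := by
    unfold zz
    rw [tv_add]
    group
  rw [e4]
  exact zz_mem_WW' i j h _ ha

/-- commutators of `α` and `β` -/
theorem zz_comm_mem {Λ : Type} [Ring Λ] {c : Λ} (hc : ∀ x, c * x = x * c) (i j p : ι)
    (h : i ≠ j) (hip : i ≠ p) (hjp : j ≠ p) {u v : Λ} (s t : Λ)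
    (hu : ∃ m, u = c * (c * m)) (hv : ∃ m, v = c * (c * m)) :
    (tv j p hjp u * tv i p hip v) * (tv p j hjp.symm t * tv p i hip.symm s) *
      (tv j p hjp u * tv i p hip v)⁻¹ * (tv p j hjp.symm t * tv p i hip.symm s)⁻¹ ∈ WW ι c := by
  -- the two factors of `β` commute
  have hβ : tv p j hjp.symm t * tv p i hip.symm s = tv p i hip.symm s * tv p j hjp.symm t := by
    have h1 := tv_commute p j p i hjp.symm hip.symm hjp hip.symm t s
    exact mul_inv_eq_iff_eq_mul.1 h1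
  have hα1 : tv j p hjp u * tv i p hip v ∈ WW ι c :=
    (WW ι c).mul_mem (tv_mem_WW' _ _ _ hu) (tv_mem_WW' _ _ _ hv)
  have h1 : (tv p j hjp.symm t * tv p i hip.symm s) * tv i p hip (-v) *
      (tv p j hjp.symm t * tv p i hip.symm s)⁻¹ ∈ WW ι c := by
    have h2 := zz_conj_B3j hc i p j hip h hjp.symm s t (ideal_neg hv)
    unfold zz at h2
    have h3 : (tv p j hjp.symm t * tv p i hip.symm s) * tv i p hip (-v) *
      (tv p j hjp.symm t * tv p i hip.symm s)⁻¹ =
      tv p j hjp.symm t * (tv p i hip.symm s * tv i p hip (-v) * (tv p i hip.symm s)⁻¹) *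
        (tv p j hjp.symm t)⁻¹ := by group
    rw [h3]; exact h2
  have h2 : (tv p j hjp.symm t * tv p i hip.symm s) * tv j p hjp (-u) *
      (tv p j hjp.symm t * tv p i hip.symm s)⁻¹ ∈ WW ι c := by
    have h2 := zz_conj_B3j hc j p i hjp h.symm hip.symm t s (ideal_neg hu)
    unfold zz at h2
    rw [hβ]
    have h3 : (tv p i hip.symm s * tv p j hjp.symm t) * tv j p hjp (-u) *
      (tv p i hip.symm s * tv p j hjp.symm t)⁻¹ =
      tv p i hip.symm s * (tv p j hjp.symm t * tv j p hjp (-u) * (tv p j hjp.symm t)⁻¹) *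
        (tv p i hip.symm s)⁻¹ := by group
    rw [h3]; exact h2
  have h3 : (tv j p hjp u * tv i p hip v) * (tv p j hjp.symm t * tv p i hip.symm s) *
      (tv j p hjp u * tv i p hip v)⁻¹ * (tv p j hjp.symm t * tv p i hip.symm s)⁻¹ =
      (tv j p hjp u * tv i p hip v) *
      (((tv p j hjp.symm t * tv p i hip.symm s) * tv i p hip (-v) *
      (tv p j hjp.symm t * tv p i hip.symm s)⁻¹) *
      ((tv p j hjp.symm t * tv p i hip.symm s) * tv j p hjp (-u) *
      (tv p j hjp.symm t * tv p i hip.symm s)⁻¹)) := by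
    rw [← tv_inv, ← tv_inv]
    group
  rw [h3]
  exact (WW ι c).mul_mem hα1 ((WW ι c).mul_mem h1 h2)

/-- the commutator expression of `zz` -/
theorem zz_eq_comm {Λ : Type} [Ring Λ] (i j p : ι) (h : i ≠ j) (hip : i ≠ p) (hjp : j ≠ p)
    (b d x : Λ) :
    zz i j h (b * d) x = (tv j p hjp (x * b) * tv i p hip b) *
      (tv p i hip.symm (-(d * x)) * tv p j hjp.symm d) *
      (tv j p hjp (x * b) * tv i p hip b)⁻¹ *
      (tv p i hip.symm (-(d * x)) * tv p j hjp.symm d)⁻¹ := by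
  have e1 : tv j i h.symm x * tv i p hip b * (tv j i h.symm x)⁻¹ =
      tv j p hjp (x * b) * tv i p hip b := tv_conj_right j i p h.symm hip hjp x b
  have e2 : tv j i h.symm x * tv p j hjp.symm d * (tv j i h.symm x)⁻¹ =
      tv p i hip.symm (-(d * x)) * tv p j hjp.symm d :=
    tv_conj_left j i p h.symm hjp.symm hip.symm x d
  rw [← e1, ← e2]
  unfold zz
  rw [← tv_comm i p j hip hjp.symm h b d]
  group

/-- conj by the transvection with the same indices -/
theorem zz_conj_C {Λ : Type} [Ring Λ] {c : Λ} (hc : ∀ x, c * x = x * c) (i j p : ι)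
    (h : i ≠ j) (hip : i ≠ p) (hjp : j ≠ p) {a : Λ} (x y : Λ) (ha : ∃ m, a = c * (c * m)) :
    tv i j h y * zz i j h a x * (tv i j h y)⁻¹ ∈ WW ι c := by
  have e0 := zz_eq_comm i j p h hip hjp a 1 x
  rw [mul_one, one_mul] at e0
  -- conjugates of the four factors
  have e1 : tv i j h y * tv j p hjp (x * a) * (tv i j h y)⁻¹ =
      tv i p hip (y * (x * a)) * tv j p hjp (x * a) := tv_conj_right i j p h hjp hip y (x * a)
  have e2 : tv i j h y * tv i p hip a * (tv i j h y)⁻¹ = tv i p hip a :=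
    tv_commute i j i p h hip h.symm hip y a
  have e3 : tv i j h y * tv p i hip.symm (-x) * (tv i j h y)⁻¹ =
      tv p j hjp.symm (-((-x) * y)) * tv p i hip.symm (-x) :=
    tv_conj_left i j p h hip.symm hjp.symm y (-x)
  have e4 : tv i j h y * tv p j hjp.symm 1 * (tv i j h y)⁻¹ = tv p j hjp.symm 1 :=
    tv_commute i j p j h hjp.symm hjp h y 1
  have e5 : tv i p hip (y * (x * a)) * tv j p hjp (x * a) =
      tv j p hjp (x * a) * tv i p hip (y * (x * a)) :=
    mul_inv_eq_iff_eq_mul.1 (tv_commute i p j p hip hjp hjp.symm hip (y * (x * a)) (x * a))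
  have e6 : tv p i hip.symm (-x) * tv p j hjp.symm 1 = tv p j hjp.symm 1 * tv p i hip.symm (-x) :=
    mul_inv_eq_iff_eq_mul.1 (tv_commute p i p j hip.symm hjp.symm hip hjp.symm (-x) 1)
  have key : tv i j h y * zz i j h a x * (tv i j h y)⁻¹ =
      (tv j p hjp (x * a) * tv i p hip (y * (x * a) + a)) *
        (tv p j hjp.symm (-((-x) * y) + 1) * tv p i hip.symm (-x)) *
      (tv j p hjp (x * a) * tv i p hip (y * (x * a) + a))⁻¹ *
        (tv p j hjp.symm (-((-x) * y) + 1) * tv p i hip.symm (-x))⁻¹ := by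
    have a1 : tv i j h y * (tv j p hjp (x * a) * tv i p hip a) * (tv i j h y)⁻¹ =
        tv j p hjp (x * a) * tv i p hip (y * (x * a) + a) := by
      calc _ = (tv i j h y * tv j p hjp (x * a) * (tv i j h y)⁻¹) *
            (tv i j h y * tv i p hip a * (tv i j h y)⁻¹) := by group
        _ = _ := by rw [e1, e2, e5, mul_assoc, ← tv_add]
    have a2 : tv i j h y * (tv p i hip.symm (-x) * tv p j hjp.symm 1) * (tv i j h y)⁻¹ =
        tv p j hjp.symm (-((-x) * y) + 1) * tv p i hip.symm (-x) := by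
      calc _ = (tv i j h y * tv p i hip.symm (-x) * (tv i j h y)⁻¹) *
            (tv i j h y * tv p j hjp.symm 1 * (tv i j h y)⁻¹) := by group
        _ = _ := by rw [e3, e4, mul_assoc, e6, ← mul_assoc, ← tv_add]
    rw [← a1, ← a2, e0]
    group
  rw [key]
  exact zz_comm_mem hc i j p h hip hjp (-x) (-((-x) * y) + 1) (ideal_left hc x ha)
    (ideal_add (ideal_left hc y (ideal_left hc x ha)) ha)

theorem exists_third (h3 : 3 ≤ Fintype.card ι) (i j : ι) : ∃ p : ι, i ≠ p ∧ j ≠ p := by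
  by_contra hcon
  push Not at hcon
  have h1 : (Finset.univ : Finset ι) ⊆ {i, j} := by
    intro p _
    by_cases hp : i = p
    · simp [hp]
    · simp [hcon p hp]
  have h2 := Finset.card_le_card h1
  have h4 : ({i, j} : Finset ι).card ≤ 2 := Finset.card_le_two
  rw [Finset.card_univ] at h2
  omega

theorem zz_conj_mem (h3 : 3 ≤ Fintype.card ι) {Λ : Type} [Ring Λ] {c : Λ}
    (hc : ∀ x, c * x = x * c) (k l : ι) (hkl : k ≠ l) (y : Λ) :
    ∀ w ∈ WW ι c, tv k l hkl y * w * (tv k l hkl y)⁻¹ ∈ WW ι c := by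
  refine conj_closure_aux _ _ _ ?_
  rintro _ ⟨i, j, h, m, x, rfl⟩
  have ha : ∃ m', c * (c * m) = c * (c * m') := ⟨m, rfl⟩
  by_cases hki : k = i
  · subst hki
    by_cases hlj : l = j
    · subst hlj
      obtain ⟨p, h1, h2⟩ := exists_third h3 k l
      exact zz_conj_C hc k l p h h1 h2 x y ha
    · exact zz_conj_B3i hc k j l h hkl (Ne.symm hlj) x y ha
  · by_cases hkj : k = j
    · subst hkj
      by_cases hli : l = i
      · subst hli
        exact zz_conj_A l k h x y ha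
      · exact zz_conj_B3j hc i k l h (Ne.symm hli) hkl x y ha
    · by_cases hli : l = i
      · subst hli
        exact zz_conj_B2i hc l j k h hkl hkj x y ha
      · by_cases hlj : l = j
        · subst hlj
          exact zz_conj_B2j hc i l k h hki hkl x y ha
        · exact zz_conj_B1 i j k l h hkl hki hkj hli hlj x y ha

theorem WW_le (h3 : 3 ≤ Fintype.card ι) {Λ : Type} [Ring Λ] {c : Λ}
    (hc : ∀ x, c * x = x * c) : WW ι c ≤ EL ι {y : Λ | ∃ m, y = c * m} := by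
  refine (Subgroup.closure_le _).2 ?_
  rintro _ ⟨i, j, h, m, x, rfl⟩
  obtain ⟨p, hip, hjp⟩ := exists_third h3 i j
  have h1 : c * (c * m) = (c * m) * c := hc _
  show zz i j h (c * (c * m)) x ∈ _
  rw [h1, zz_eq_comm i j p h hip hjp]
  have a1 : tv j p hjp (x * (c * m)) ∈ EL ι {y : Λ | ∃ m, y = c * m} :=
    tv_mem _ _ _ ⟨x * m, by rw [← mul_assoc, ← hc x, mul_assoc]⟩
  have a2 : tv i p hip (c * m) ∈ EL ι {y : Λ | ∃ m, y = c * m} := tv_mem _ _ _ ⟨m, rfl⟩
  have a3 : tv p i hip.symm (-(c * x)) ∈ EL ι {y : Λ | ∃ m, y = c * m} :=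
    tv_mem _ _ _ ⟨-x, by rw [mul_neg]⟩
  have a4 : tv p j hjp.symm c ∈ EL ι {y : Λ | ∃ m, y = c * m} :=
    tv_mem _ _ _ ⟨1, by rw [mul_one]⟩
  have b1 := (EL ι {y : Λ | ∃ m, y = c * m}).mul_mem a1 a2
  have b2 := (EL ι {y : Λ | ∃ m, y = c * m}).mul_mem a3 a4
  exact (EL ι {y : Λ | ∃ m, y = c * m}).mul_mem
    ((EL ι {y : Λ | ∃ m, y = c * m}).mul_mem
      ((EL ι {y : Λ | ∃ m, y = c * m}).mul_mem b1 b2)
      ((EL ι {y : Λ | ∃ m, y = c * m}).inv_mem b1))
    ((EL ι {y : Λ | ∃ m, y = c * m}).inv_mem b2)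

theorem rel_conj (h3 : 3 ≤ Fintype.card ι) {Λ : Type} [Ring Λ] (c : Λ)
    (hc : ∀ x, c * x = x * c) (e x : (Matrix ι ι Λ)ˣ) (he : e ∈ El ι Λ)
    (hx : x ∈ EL ι {y : Λ | ∃ m, y = c * (c * m)}) :
    e * x * e⁻¹ ∈ EL ι {y : Λ | ∃ m, y = c * m} := by
  have h1 : El ι Λ ≤ Subgroup.normalizer (WW ι c : Subgroup (Matrix ι ι Λ)ˣ) := by
    refine (Subgroup.closure_le _).2 ?_
    rintro _ ⟨k, l, hkl, y, -, rfl⟩
    refine Subgroup.mem_normalizer_iff.2 fun w => ⟨fun hw => zz_conj_mem h3 hc k l hkl y w hw, ?_⟩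
    intro hw
    have h2 := zz_conj_mem h3 hc k l hkl (-y) _ hw
    rw [← tv_inv] at h2
    have h4 : (tv k l hkl y)⁻¹ * (tv k l hkl y * w * (tv k l hkl y)⁻¹) * (tv k l hkl y)⁻¹⁻¹ = w := by
      group
    rwa [h4] at h2
  have h2 : EL ι {y : Λ | ∃ m, y = c * (c * m)} ≤ WW ι c := by
    refine (Subgroup.closure_le _).2 ?_
    rintro _ ⟨i, j, h, a, ha, rfl⟩
    exact tv_mem_WW' i j h ha
  exact WW_le h3 hc ((Subgroup.mem_normalizer_iff.1 (h1 he) x).1 (h2 hx))

end statements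

end Pool.Agent.Helper58.EN
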