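import Pool.Agent.Helper58.EN.Defs
import Pool.Agent.Helper58.EN.JH
import Pool.Agent.Helper58.EN.JI

set_option autoImplicit false

namespace Pool.Agent.Helper58.EN

open Matrix

variable {ι : Type} [Fintype ι] [DecidableEq ι]


section statements
open Polynomial

/-- the double of `Λ` along the ideal `(c * c)` -/
def Dbl {Z : Type} (Λ : Type) [CommRing Z] [Ring Λ] [Algebra Z Λ] (c : Z) :
    Subalgebra Z (Λ × Λ) where
  carrier := {p | ∃ m : Λ, p.1 - p.2 = (c * c) • m}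
  mul_mem' := by
    rintro ⟨a, b⟩ ⟨a', b'⟩ ⟨m, hm⟩ ⟨m', hm'⟩
    refine ⟨m * a' + b * m', ?_⟩
    simp only [Prod.fst_mul, Prod.snd_mul] at *
    rw [smul_add, ← smul_mul_assoc, ← mul_smul_comm, ← hm, ← hm']
    noncomm_ring
  add_mem' := by
    rintro ⟨a, b⟩ ⟨a', b'⟩ ⟨m, hm⟩ ⟨m', hm'⟩
    refine ⟨m + m', ?_⟩
    simp only [Prod.fst_add, Prod.snd_add] at *
    rw [smul_add, ← hm, ← hm']
    abel
  algebraMap_mem' := by
    intro r
    exact ⟨0, by simp⟩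

theorem Dbl_finite {Z : Type} (Λ : Type) [CommRing Z] [Ring Λ] [Algebra Z Λ] [Module.Finite Z Λ]
    (c : Z) : Module.Finite Z (Dbl Λ c) := by
  let f : (Λ × Λ) →ₗ[Z] (Dbl Λ c) :=
    { toFun := fun p => ⟨(p.1 + (c * c) • p.2, p.1), ⟨p.2, by simp⟩⟩
      map_add' := by
        intro p q
        apply Subtype.ext
        apply Prod.ext
        · simp only [Prod.fst_add, Prod.snd_add, smul_add, Subalgebra.coe_add]
          abel
        · rfl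
      map_smul' := by
        intro r p
        apply Subtype.ext
        apply Prod.ext
        · simp only [Prod.smul_fst, Prod.smul_snd, RingHom.id_apply, smul_add,
            Subalgebra.coe_smul]
          rw [smul_comm]
        · rfl }
  apply Module.Finite.of_surjective f
  rintro ⟨⟨a, b⟩, m, hm⟩
  refine ⟨(b, m), ?_⟩
  apply Subtype.ext
  apply Prod.ext
  · change b + (c * c) • m = a
    simp only at hm
    rw [← hm]; abel
  · rfl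

def pr1 {Z : Type} (Λ : Type) [CommRing Z] [Ring Λ] [Algebra Z Λ] (c : Z) : Dbl Λ c →+* Λ :=
  (RingHom.fst Λ Λ).comp (Dbl Λ c).subtype

def pr2 {Z : Type} (Λ : Type) [CommRing Z] [Ring Λ] [Algebra Z Λ] (c : Z) : Dbl Λ c →+* Λ :=
  (RingHom.snd Λ Λ).comp (Dbl Λ c).subtype

def dia {Z : Type} (Λ : Type) [CommRing Z] [Ring Λ] [Algebra Z Λ] (c : Z) : Λ →+* Dbl Λ c where
  toFun x := ⟨(x, x), ⟨0, by simp⟩⟩
  map_one' := rfl
  map_mul' _ _ := rfl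
  map_zero' := rfl
  map_add' _ _ := rfl

theorem dbl_ext {Z Λ : Type} [CommRing Z] [Ring Λ] [Algebra Z Λ] {c : Z} {x y : Dbl Λ c}
    (h1 : pr1 Λ c x = pr1 Λ c y) (h2 : pr2 Λ c x = pr2 Λ c y) : x = y := by
  apply Subtype.ext
  exact Prod.ext h1 h2

theorem dblM_ext {Z Λ : Type} [CommRing Z] [Ring Λ] [Algebra Z Λ] {c : Z}
    {x y : Matrix ι ι (Dbl Λ c)}
    (h1 : x.map (pr1 Λ c) = y.map (pr1 Λ c)) (h2 : x.map (pr2 Λ c) = y.map (pr2 Λ c)) :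
    x = y := by
  ext1 i j
  exact dbl_ext (congrFun (congrFun h1 i) j) (congrFun (congrFun h2 i) j)

/-- build a matrix over the double -/
def mkM {Z Λ : Type} [CommRing Z] [Ring Λ] [Algebra Z Λ] (c : Z) (a b : Matrix ι ι Λ)
    (h : ∃ y : Matrix ι ι Λ, a = b + (c * c) • y) : Matrix ι ι (Dbl Λ c) :=
  fun i j => ⟨(a i j, b i j), by
    obtain ⟨y, rfl⟩ := h
    exact ⟨y i j, by simp⟩⟩

theorem mkM_pr1 {Z Λ : Type} [CommRing Z] [Ring Λ] [Algebra Z Λ] (c : Z) (a b : Matrix ι ι Λ)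
    (h : ∃ y : Matrix ι ι Λ, a = b + (c * c) • y) : (mkM c a b h).map (pr1 Λ c) = a := rfl

theorem mkM_pr2 {Z Λ : Type} [CommRing Z] [Ring Λ] [Algebra Z Λ] (c : Z) (a b : Matrix ι ι Λ)
    (h : ∃ y : Matrix ι ι Λ, a = b + (c * c) • y) : (mkM c a b h).map (pr2 Λ c) = b := rfl

/-- the lift of `(h, 1)` to the double -/
theorem exists_lift {Z Λ : Type} [CommRing Z] [Ring Λ] [Algebra Z Λ] (c : Z)
    (h : (Matrix ι ι Λ)ˣ) (hh : ∃ y : Matrix ι ι Λ, (h : Matrix ι ι Λ) = 1 + (c * c) • y) :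
    ∃ H : (Matrix ι ι (Dbl Λ c))ˣ, mapGL (pr1 Λ c) H = h ∧ mapGL (pr2 Λ c) H = 1 := by
  have hh' : ∃ y : Matrix ι ι Λ, ((h⁻¹ : (Matrix ι ι Λ)ˣ) : Matrix ι ι Λ) = 1 + (c * c) • y := by
    obtain ⟨y, hy⟩ := hh
    refine ⟨-(((h⁻¹ : (Matrix ι ι Λ)ˣ) : Matrix ι ι Λ) * y), ?_⟩
    have h1 : ((h⁻¹ : (Matrix ι ι Λ)ˣ) : Matrix ι ι Λ) * (h : Matrix ι ι Λ) = 1 := h.inv_mul
    rw [hy, mul_add, mul_one, mul_smul_comm] at h1
    rw [smul_neg, ← h1]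
    abel
  refine ⟨⟨mkM c h 1 hh, mkM c ((h⁻¹ : (Matrix ι ι Λ)ˣ) : Matrix ι ι Λ) 1 hh', ?_, ?_⟩, ?_, ?_⟩
  · apply dblM_ext
    · rw [Matrix.map_mul, mkM_pr1, mkM_pr1, Matrix.map_one _ (map_zero _) (map_one _)]
      exact h.mul_inv
    · rw [Matrix.map_mul, mkM_pr2, mkM_pr2, Matrix.map_one _ (map_zero _) (map_one _), mul_one]
  · apply dblM_ext
    · rw [Matrix.map_mul, mkM_pr1, mkM_pr1, Matrix.map_one _ (map_zero _) (map_one _)]
      exact h.inv_mul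
    · rw [Matrix.map_mul, mkM_pr2, mkM_pr2, Matrix.map_one _ (map_zero _) (map_one _), mul_one]
  · ext1
    rfl
  · ext1
    rfl

/-- conjugates of transvections with entries in `(c * c)` -/
def WWJ {Z Λ : Type} (ι : Type) [Fintype ι] [DecidableEq ι] [CommRing Z] [Ring Λ] [Algebra Z Λ]
    (c : Z) : Subgroup (Matrix ι ι Λ)ˣ :=
  Subgroup.closure {g | ∃ u ∈ El ι Λ, ∃ i j, ∃ h : i ≠ j, ∃ m : Λ,
    g = u * tv i j h ((c * c) • m) * u⁻¹}

theorem WW_conj {Z Λ : Type} [CommRing Z] [Ring Λ] [Algebra Z Λ] (c : Z)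
    {n u : (Matrix ι ι Λ)ˣ} (hu : u ∈ El ι Λ) (hn : n ∈ WWJ (Z := Z) (Λ := Λ) ι c) :
    u * n * u⁻¹ ∈ WWJ (Z := Z) (Λ := Λ) ι c := by
  induction hn using Subgroup.closure_induction with
  | mem x hx =>
    obtain ⟨v, hv, i, j, hij, m, rfl⟩ := hx
    apply Subgroup.subset_closure
    refine ⟨u * v, mul_mem hu hv, i, j, hij, m, ?_⟩
    group
  | one => simpa using one_mem _
  | mul x y _ _ hx hy =>
    have : u * (x * y) * u⁻¹ = (u * x * u⁻¹) * (u * y * u⁻¹) := by group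
    rw [this]
    exact mul_mem hx hy
  | inv x _ hx =>
    have : u * x⁻¹ * u⁻¹ = (u * x * u⁻¹)⁻¹ := by group
    rw [this]
    exact inv_mem hx

theorem WW_split {Z Λ : Type} [CommRing Z] [Ring Λ] [Algebra Z Λ] (c : Z)
    {w : (Matrix ι ι (Dbl Λ c))ˣ} (hw : w ∈ El ι (Dbl Λ c)) :
    mapGL (pr2 Λ c) w ∈ El ι Λ ∧ ∃ n ∈ WWJ (Z := Z) (Λ := Λ) ι c,
      mapGL (pr1 Λ c) w = n * mapGL (pr2 Λ c) w := by
  refine ⟨mapGL_mem _ hw, ?_⟩
  have hw' : w ∈ Subgroup.closure {g | ∃ i j, ∃ h : i ≠ j, ∃ x ∈ (Set.univ : Set (Dbl Λ c)),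
    g = tv i j h x} := hw
  induction hw' using Subgroup.closure_induction with
  | mem x hx =>
    obtain ⟨i, j, hij, ⟨⟨a, b⟩, m, hm⟩, _, rfl⟩ := hx
    refine ⟨tv i j hij ((c * c) • m), ?_, ?_⟩
    · apply Subgroup.subset_closure
      exact ⟨1, one_mem _, i, j, hij, m, by simp⟩
    · rw [mapGL_tv, mapGL_tv, ← tv_add]
      congr 1
      change a = (c * c) • m + b
      simp only at hm
      rw [← hm]; abel
  | one => exact ⟨1, one_mem _, by simp⟩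
  | mul x y hx hy ihx ihy =>
    obtain ⟨n, hn, h1⟩ := ihx hx
    obtain ⟨n', hn', h2⟩ := ihy hy
    refine ⟨n * (mapGL (pr2 Λ c) x * n' * (mapGL (pr2 Λ c) x)⁻¹),
      mul_mem hn (WW_conj c (mapGL_mem _ hx) hn'), ?_⟩
    rw [map_mul, map_mul, h1, h2]
    group
  | inv x hx ihx =>
    obtain ⟨n, hn, h1⟩ := ihx hx
    refine ⟨(mapGL (pr2 Λ c) x)⁻¹ * n⁻¹ * ((mapGL (pr2 Λ c) x)⁻¹)⁻¹,
      WW_conj c (inv_mem (mapGL_mem _ hx)) (inv_mem hn), ?_⟩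
    rw [map_inv, map_inv, h1]
    group

theorem double (h3 : 3 ≤ Fintype.card ι) {Z Λ : Type} [CommRing Z] [Ring Λ] [Algebra Z Λ]
    [Module.Finite Z Λ] (c : Z) (h : (Matrix ι ι Λ)ˣ)
    (hh : ∃ y : Matrix ι ι Λ, (h : Matrix ι ι Λ) = 1 + (c * c) • y)
    (e : (Matrix ι ι Λ)ˣ) (he : e ∈ El ι Λ) :
    h * e * h⁻¹ * e⁻¹ ∈ EL ι {y : Λ | ∃ m : Λ, y = c • m} := by
  obtain ⟨H, hH1, hH2⟩ := exists_lift c h hh
  haveI : Module.Finite Z (Dbl Λ c) := Dbl_finite Λ c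
  set E := mapGL (dia Λ c) e with hE
  have hEm : E ∈ El ι (Dbl Λ c) := mapGL_mem _ he
  have hE1 : mapGL (pr1 Λ c) E = e := by
    rw [hE, ← mapGL_comp]
    ext1
    rfl
  have hE2 : mapGL (pr2 Λ c) E = e := by
    rw [hE, ← mapGL_comp]
    ext1
    rfl
  have hw : H * E * H⁻¹ * E⁻¹ ∈ El ι (Dbl Λ c) :=
    mul_mem (ST (Z := Z) h3 H E hEm) (inv_mem hEm)
  obtain ⟨_, n, hn, h1⟩ := WW_split c hw
  rw [map_mul, map_mul, map_mul, map_inv, map_inv, hH1, hE1] at h1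
  rw [h1]
  have h2 : mapGL (pr2 Λ c) (H * E * H⁻¹ * E⁻¹) = 1 := by
    rw [map_mul, map_mul, map_mul, map_inv, map_inv, hH2, hE2]
    group
  rw [h2, mul_one]
  have h4 : WWJ (Z := Z) (Λ := Λ) ι c ≤ EL ι {y : Λ | ∃ m : Λ, y = c • m} := by
    unfold WWJ
    rw [Subgroup.closure_le]
    rintro _ ⟨u, hu, i, j, hij, m, rfl⟩
    have h5 := rel_conj h3 (algebraMap Z Λ c) (fun x => Algebra.commutes c x) u
      (tv i j hij ((c * c) • m)) hu (tv_mem i j hij ⟨m, by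
        rw [← Algebra.smul_def, ← Algebra.smul_def, mul_smul]⟩)
    refine EL_mono ?_ h5
    rintro y ⟨m', rfl⟩
    exact ⟨m', by rw [Algebra.smul_def]⟩
  exact h4 hn

end statements

end Pool.Agent.Helper58.EN
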