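import Pool.Agent.Helper58.EN.Defs
import Pool.Agent.Helper58.EN.JJ

set_option autoImplicit false

namespace Pool.Agent.Helper58.EN

open Matrix

variable {ι : Type} [Fintype ι] [DecidableEq ι]


section statements
open Polynomial

theorem three_c_conj {R : Type} [Ring R] {S T : Set R} (d : ι → Rˣ)
    (h : ∀ a b, ∀ x ∈ S, (d a : R) * x * ((d b)⁻¹ : Rˣ) ∈ T) {g : (Matrix ι ι R)ˣ}
    (hg : g ∈ EL ι S) : dg d * g * (dg d)⁻¹ ∈ EL ι T := by
  unfold EL at hg
  induction hg using Subgroup.closure_induction with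
  | mem x hx =>
    obtain ⟨i, j, hij, x, hx, rfl⟩ := hx
    rw [dg_conj]
    exact tv_mem i j hij (h i j x hx)
  | one => simp
  | mul x y _ _ hx hy =>
    have : dg d * (x * y) * (dg d)⁻¹ = (dg d * x * (dg d)⁻¹) * (dg d * y * (dg d)⁻¹) := by group
    rw [this]
    exact mul_mem hx hy
  | inv x _ hx =>
    have : dg d * x⁻¹ * (dg d)⁻¹ = (dg d * x * (dg d)⁻¹)⁻¹ := by group
    rw [this]
    exact inv_mem hx

theorem three_c_lift {Λ B : Type} [Ring Λ] [Ring B] (inc : Λ →+* B)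
    (hinj : Function.Injective inc) (g : (Matrix ι ι B)ˣ) (P Q : Matrix ι ι Λ)
    (hP : P.map inc = (g : Matrix ι ι B)) (hQ : Q.map inc = ((g⁻¹ : (Matrix ι ι B)ˣ) : Matrix ι ι B)) :
    ∃ h' : (Matrix ι ι Λ)ˣ, (h' : Matrix ι ι Λ) = P ∧ mapGL inc h' = g := by
  have hi : Function.Injective (inc.mapMatrix : Matrix ι ι Λ →+* Matrix ι ι B) := by
    intro a b hab
    ext i j
    exact hinj (congrFun (congrFun hab i) j)
  have hP' : (inc.mapMatrix : Matrix ι ι Λ →+* Matrix ι ι B) P = (g : Matrix ι ι B) := hP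
  have hQ' : (inc.mapMatrix : Matrix ι ι Λ →+* Matrix ι ι B) Q
    = ((g⁻¹ : (Matrix ι ι B)ˣ) : Matrix ι ι B) := hQ
  have h1 : P * Q = 1 := by
    apply hi
    rw [map_mul, hP', hQ', map_one, Units.mul_inv]
  have h2 : Q * P = 1 := by
    apply hi
    rw [map_mul, hP', hQ', map_one, Units.inv_mul]
  refine ⟨⟨P, Q, h1, h2⟩, rfl, ?_⟩
  ext : 1
  rw [mapGL_val]
  exact hP

theorem three_c (h3 : 3 ≤ Fintype.card ι) {Z R B : Type} [CommRing Z] [Ring R] [Algebra Z R]
    [Ring B] (c : Z) {q : ℕ} (a : Fin q → R)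
    (hgood : ∀ r : R, ∃ z : Fin q → Z, c • r = ∑ i, z i • a i)
    {f : R →+* B} (hf : Loc (Submonoid.powers c) f) (k t : ℕ) :
    ∃ m : ℕ, ∀ h : (Matrix ι ι R)ˣ, (∃ y : Matrix ι ι R, (h : Matrix ι ι R) = 1 + (c ^ m) • y) →
      ∀ (i j : ι) (hij : i ≠ j) (b : B), (∃ r : R, f (algebraMap Z R (c ^ k)) * b = f r) →
        mapGL f h * tv i j hij b * (mapGL f h)⁻¹ * (tv i j hij b)⁻¹ ∈
          EL ι {y : B | ∃ r : R, y = f (c ^ t • r)} := by
  letI algB : Algebra Z B := RingHom.toAlgebra' (f.comp (algebraMap Z R)) (fun z b => hf.central z b)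
  have smulB : ∀ (z : Z) (b : B), z • b = f (algebraMap Z R z) * b := fun z b => by
    rw [Algebra.smul_def]; rfl
  have fsmul : ∀ (z : Z) (r : R), f (z • r) = z • f r := fun z r => by
    rw [smulB, Algebra.smul_def, map_mul]
  -- the finite subalgebra
  let v : Option (Fin q) → B := fun o => o.elim 1 (fun i => f (c • a i))
  let M : Submodule Z B := Submodule.span Z (Set.range v)
  have hv1 : (1 : B) ∈ M := Submodule.subset_span ⟨none, rfl⟩
  have hvi : ∀ i, f (c • a i) ∈ M := fun i => Submodule.subset_span ⟨some i, rfl⟩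
  have hc2 : ∀ r : R, f (c • (c • r)) ∈ M := by
    intro r
    obtain ⟨z, hz⟩ := hgood r
    rw [hz, Finset.smul_sum, map_sum]
    refine Submodule.sum_mem _ fun i _ => ?_
    rw [smul_comm, fsmul]
    exact Submodule.smul_mem _ _ (hvi i)
  have hmul : ∀ x y : B, x ∈ M → y ∈ M → x * y ∈ M := by
    have hle : M * M ≤ M := by
      show Submodule.span Z (Set.range v) * Submodule.span Z (Set.range v) ≤ M
      rw [Submodule.span_mul_span, Submodule.span_le]
      rintro _ ⟨_, ⟨o, rfl⟩, _, ⟨o', rfl⟩, rfl⟩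
      rcases o with _ | i
      · show (1 : B) * v o' ∈ M
        rw [one_mul]; exact Submodule.subset_span ⟨o', rfl⟩
      · rcases o' with _ | i'
        · show v (some i) * (1 : B) ∈ M
          rw [mul_one]; exact Submodule.subset_span ⟨some i, rfl⟩
        · show f (c • a i) * f (c • a i') ∈ M
          rw [← map_mul, smul_mul_assoc, mul_smul_comm]
          exact hc2 _
    intro x y hx hy
    exact hle (Submodule.mul_mem_mul hx hy)
  let Λ : Subalgebra Z B := M.toSubalgebra hv1 hmul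
  have hΛM : ∀ x, x ∈ Λ ↔ x ∈ M := fun x => Iff.rfl
  haveI hfin : Module.Finite Z Λ := by
    have h1 : Module.Finite Z M := Module.Finite.span_of_finite Z (Set.finite_range v)
    exact h1
  have hrange : ∀ x ∈ Λ, ∃ r : R, x = f r := by
    intro x hx
    have hx' : x ∈ Submodule.span Z (Set.range v) := hx
    clear hx
    induction hx' using Submodule.span_induction with
    | mem x h =>
      obtain ⟨o, rfl⟩ := h
      rcases o with _ | i
      · exact ⟨1, (map_one f).symm⟩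
      · exact ⟨c • a i, rfl⟩
    | zero => exact ⟨0, (map_zero f).symm⟩
    | add x y hx hy h1 h2 =>
      obtain ⟨r1, e1⟩ := h1
      obtain ⟨r2, e2⟩ := h2
      exact ⟨r1 + r2, by rw [map_add, ← e1, ← e2]⟩
    | smul z x hx h1 =>
      obtain ⟨r1, e1⟩ := h1
      exact ⟨z • r1, by rw [fsmul, ← e1]⟩
  let inc : Λ →+* B := Λ.val.toRingHom
  have hinc : Function.Injective inc := Subtype.val_injective
  have hincv : ∀ x : Λ, inc x = (x : B) := fun _ => rfl
  -- the central unit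
  obtain ⟨uB, huB⟩ := hf.unit c (Submonoid.mem_powers c)
  have hcen : ∀ b : B, (uB : B) * b = b * uB := fun b => by rw [huB]; exact hf.central c b
  have hcenp : ∀ (n : ℕ) (b : B), (uB : B) ^ n * b = b * (uB : B) ^ n := fun n b =>
    ((show Commute (uB : B) b from hcen b).pow_left n)
  have smulu : ∀ (n : ℕ) (b : B), (c ^ n) • b = (uB : B) ^ n * b := fun n b => by
    rw [smulB, map_pow, map_pow, huB]
  set K : ℕ := k + 2 with hK
  set s : ℕ := t + K with hs
  refine ⟨K + 2 + 2 * s, ?_⟩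
  rintro h ⟨y, hy⟩ i j hij b ⟨r, hr⟩
  let ex : ι → ℕ := fun a => if a = i then K else 0
  have exle : ∀ a, ex a ≤ K := fun a => by
    show (if a = i then K else 0) ≤ K
    split_ifs <;> omega
  let d : ι → Bˣ := fun a => uB ^ ex a
  set δ : (Matrix ι ι B)ˣ := dg d with hδ
  -- general entry computation
  have entry : ∀ (y : Matrix ι ι R), ∃ Y : Matrix ι ι Λ, ∀ (g : (Matrix ι ι R)ˣ),
      (g : Matrix ι ι R) = 1 + (c ^ (K + 2 + 2 * s)) • y →
      (1 + (c ^ s * c ^ s) • Y : Matrix ι ι Λ).map inc =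
        ((δ * mapGL f g * δ⁻¹ : (Matrix ι ι B)ˣ) : Matrix ι ι B) := by
    intro y
    refine ⟨Matrix.of (fun a b => ⟨f (c • (c • (c ^ (K + ex a - ex b) • y a b))), hc2 _⟩), ?_⟩
    intro g hg
    ext a' b'
    rw [hδ, dg_inv]
    simp only [Units.val_mul, dg_val, mapGL_val, Pi.inv_apply, Matrix.mul_diagonal,
      Matrix.diagonal_mul, Matrix.map_apply, Matrix.add_apply, Matrix.smul_apply, Matrix.of_apply, hg]
    rw [map_add, map_add, mul_add, add_mul]
    congr 1
    · by_cases hab : a' = b'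
      · subst hab
        simp
      · simp [Matrix.one_apply_ne hab]
    · rw [Units.eq_mul_inv_iff_mul_eq]
      rw [hincv]
      have e1 : (((c ^ s * c ^ s) • (⟨f (c • (c • (c ^ (K + ex a' - ex b') • y a' b'))), hc2 _⟩ : Λ) : Λ) : B)
          = (c ^ s * c ^ s) • f (c • (c • (c ^ (K + ex a' - ex b') • y a' b'))) := rfl
      rw [e1]
      have e2 : (c ^ s * c ^ s) • f (c • (c • (c ^ (K + ex a' - ex b') • y a' b')))
          = (uB : B) ^ (2 * s + 2 + (K + ex a' - ex b')) * f (y a' b') := by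
        rw [fsmul, fsmul, fsmul, smul_smul, smul_smul, smul_smul, ← smulu]
        congr 1
        ring
      rw [e2, fsmul, smulu]
      show _ * ((uB ^ ex b' : Bˣ) : B) = ((uB ^ ex a' : Bˣ) : B) * _
      rw [Units.val_pow_eq_pow_val, Units.val_pow_eq_pow_val, ← mul_assoc, ← pow_add, mul_assoc,
        ← hcenp, ← mul_assoc, ← pow_add]
      congr 2
      have := exle b'
      omega
  have hinv : ((h⁻¹ : (Matrix ι ι R)ˣ) : Matrix ι ι R) = 1 + (c ^ (K + 2 + 2 * s)) •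
      (-(((h⁻¹ : (Matrix ι ι R)ˣ) : Matrix ι ι R) * y)) := by
    have h1 : ((h⁻¹ : (Matrix ι ι R)ˣ) : Matrix ι ι R) * (h : Matrix ι ι R) = 1 := Units.inv_mul h
    rw [hy, mul_add, mul_one, Matrix.mul_smul] at h1
    rw [smul_neg, ← sub_eq_add_neg]
    exact eq_sub_of_add_eq h1
  obtain ⟨Y, hY⟩ := entry y
  obtain ⟨Y', hY'⟩ := entry (-(((h⁻¹ : (Matrix ι ι R)ˣ) : Matrix ι ι R) * y))
  have hY1 := hY h hy
  have hY2 := hY' h⁻¹ hinv
  obtain ⟨h', hh1, hh2⟩ := three_c_lift inc hinc (δ * mapGL f h * δ⁻¹) _ _ hY1 (by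
    rw [hY2]
    congr 1
    rw [map_inv]
    group)
  -- the transvection
  have hβ : (uB : B) ^ K * b ∈ Λ := by
    have e1 : (uB : B) ^ K * b = f (c • (c • r)) := by
      rw [fsmul, fsmul, ← hr, smul_smul, ← pow_two, smulu, map_pow, map_pow, huB, ← mul_assoc,
        ← pow_add, hK, add_comm k 2]
    rw [e1]
    exact hc2 r
  have htv : mapGL inc (tv i j hij (⟨(uB : B) ^ K * b, hβ⟩ : Λ)) = δ * tv i j hij b * δ⁻¹ := by
    rw [mapGL_tv, hδ, dg_conj]
    congr 1
    show (uB : B) ^ K * b = ((uB ^ ex i : Bˣ) : B) * b * (((uB ^ ex j)⁻¹ : Bˣ) : B)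
    have e1 : ex i = K := if_pos rfl
    have e2 : ex j = 0 := if_neg (Ne.symm hij)
    rw [e1, e2]
    simp
  have hdbl := double h3 (c ^ s) h' ⟨Y, hh1⟩ (tv i j hij (⟨(uB : B) ^ K * b, hβ⟩ : Λ))
    (tv_mem' i j hij _)
  have hmap := Subgroup.mem_map_of_mem (mapGL (ι := ι) inc) hdbl
  rw [mapGL_EL, map_mul, map_mul, map_mul, map_inv, map_inv, hh2, htv] at hmap
  have hfin2 := three_c_conj (T := {y : B | ∃ r : R, y = f (c ^ t • r)}) (fun a => (d a)⁻¹) (by
    rintro a' b' _ ⟨_, ⟨lam, rfl⟩, rfl⟩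
    obtain ⟨r', hr'⟩ := hrange (lam : B) lam.2
    refine ⟨c ^ (K + ex b' - ex a') • r', ?_⟩
    have e1 : inc (c ^ s • lam) = c ^ s • (lam : B) := rfl
    rw [e1, hr', fsmul, fsmul, smulu, smulu, smulu, inv_inv]
    show ((uB ^ ex a')⁻¹ : Bˣ) * _ * ((uB ^ ex b' : Bˣ) : B) = _
    rw [mul_assoc, Units.inv_mul_eq_iff_eq_mul, Units.val_pow_eq_pow_val,
      Units.val_pow_eq_pow_val, ← hcenp, ← mul_assoc, ← mul_assoc, ← mul_assoc, ← pow_add,
      ← pow_add, ← pow_add]
    congr 2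
    have := exle a'
    omega) hmap
  have hδi : dg (fun a => (d a)⁻¹) = δ⁻¹ := by
    rw [hδ, dg_inv]; rfl
  rw [hδi] at hfin2
  have efin : mapGL f h * tv i j hij b * (mapGL f h)⁻¹ * (tv i j hij b)⁻¹ =
      δ⁻¹ * (δ * mapGL f h * δ⁻¹ * (δ * tv i j hij b * δ⁻¹) * (δ * mapGL f h * δ⁻¹)⁻¹ *
        (δ * tv i j hij b * δ⁻¹)⁻¹) * δ⁻¹⁻¹ := by group
  rw [efin]
  exact hfin2

end statements

end Pool.Agent.Helper58.EN
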