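import Pool.Agent.Helper58.EN.Defs
import Pool.Agent.Helper58.EN.JD
import Pool.Agent.Helper58.EN.JK

set_option autoImplicit false

namespace Pool.Agent.Helper58.EN

open Matrix

variable {ι : Type} [Fintype ι] [DecidableEq ι]


section statements
open Polynomial

theorem three_d_step (h3 : 3 ≤ Fintype.card ι) {Z R B : Type} [CommRing Z] [Ring R] [Algebra Z R]
    [Ring B] (c : Z) {q : ℕ} (a : Fin q → R)
    (hgood : ∀ r : R, ∃ z : Fin q → Z, c • r = ∑ i, z i • a i)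
    {f : R →+* B} (hf : Loc (Submonoid.powers c) f) (w : (Matrix ι ι B)ˣ)
    (i j : ι) (hij : i ≠ j) (b : B)
    (ih : ∀ t : ℕ, ∃ m : ℕ, ∀ h : (Matrix ι ι R)ˣ,
      (∃ y : Matrix ι ι R, (h : Matrix ι ι R) = 1 + (c ^ m) • y) →
      mapGL f h * w * (mapGL f h)⁻¹ * w⁻¹ ∈ EL ι {y : B | ∃ r : R, y = f (c ^ t • r)})
    (t : ℕ) :
    ∃ m : ℕ, ∀ h : (Matrix ι ι R)ˣ, (∃ y : Matrix ι ι R, (h : Matrix ι ι R) = 1 + (c ^ m) • y) →
      mapGL f h * (tv i j hij b * w) * (mapGL f h)⁻¹ * (tv i j hij b * w)⁻¹ ∈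
        EL ι {y : B | ∃ r : R, y = f (c ^ t • r)} := by
  obtain ⟨s, hs, r, hr⟩ := hf.surj b
  obtain ⟨k, rfl⟩ := hs
  obtain ⟨m1, hm1⟩ := three_c h3 c a hgood hf k t
  obtain ⟨m2, hm2⟩ := ih (2 * (k + t))
  refine ⟨m1 + m2, ?_⟩
  rintro h ⟨y, hy⟩
  have e1 := hm1 h ⟨(c ^ m2) • y, by rw [hy, smul_smul, pow_add]⟩ i j hij b ⟨r, hr⟩
  have e2 := hm2 h ⟨(c ^ m1) • y, by rw [hy, smul_smul, pow_add, mul_comm]⟩
  have e3 := conj_tv h3 f.range (f (algebraMap Z R (c ^ k))) (f (algebraMap Z R (c ^ t)))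
    (hf.central _) (hf.central _) ⟨_, rfl⟩ ⟨_, rfl⟩ i j hij b ⟨r, hr.symm⟩ _
    (EL_mono (t := {y : B | ∃ m ∈ f.range, y = (f (algebraMap Z R (c ^ k)) *
      f (algebraMap Z R (c ^ t))) * ((f (algebraMap Z R (c ^ k)) *
      f (algebraMap Z R (c ^ t))) * m)}) (by
        rintro _ ⟨r', rfl⟩
        refine ⟨f r', ⟨r', rfl⟩, ?_⟩
        rw [Algebra.smul_def, map_mul, two_mul, pow_add, pow_add]
        simp only [map_mul]
        simp only [mul_assoc]) e2)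
  have e4 := EL_mono (ι := ι) (t := {y : B | ∃ r : R, y = f (c ^ t • r)}) (by
        rintro _ ⟨_, ⟨r', rfl⟩, rfl⟩
        refine ⟨r', ?_⟩
        rw [Algebra.smul_def, map_mul]) e3
  have e5 := Subgroup.mul_mem _ e1 e4
  convert e5 using 1
  group

theorem three_d (h3 : 3 ≤ Fintype.card ι) {Z R B : Type} [CommRing Z] [Ring R] [Algebra Z R]
    [Ring B] (c : Z) {q : ℕ} (a : Fin q → R)
    (hgood : ∀ r : R, ∃ z : Fin q → Z, c • r = ∑ i, z i • a i)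
    {f : R →+* B} (hf : Loc (Submonoid.powers c) f) (w : (Matrix ι ι B)ˣ) (hw : w ∈ El ι B)
    (t : ℕ) :
    ∃ m : ℕ, ∀ h : (Matrix ι ι R)ˣ, (∃ y : Matrix ι ι R, (h : Matrix ι ι R) = 1 + (c ^ m) • y) →
      mapGL f h * w * (mapGL f h)⁻¹ * w⁻¹ ∈ EL ι {y : B | ∃ r : R, y = f (c ^ t • r)} := by
  revert t
  refine Subgroup.closure_induction_left (p := fun w _ => ∀ t : ℕ, ∃ m : ℕ,
    ∀ h : (Matrix ι ι R)ˣ, (∃ y : Matrix ι ι R, (h : Matrix ι ι R) = 1 + (c ^ m) • y) →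
      mapGL f h * w * (mapGL f h)⁻¹ * w⁻¹ ∈ EL ι {y : B | ∃ r : R, y = f (c ^ t • r)})
    ?_ ?_ ?_ hw
  · intro t
    refine ⟨0, fun h _ => ?_⟩
    have : mapGL f h * 1 * (mapGL f h)⁻¹ * (1 : (Matrix ι ι B)ˣ)⁻¹ = 1 := by group
    rw [this]
    exact Subgroup.one_mem _
  · rintro _ ⟨i, j, hij, b, _, rfl⟩ y hy ih t
    exact three_d_step h3 c a hgood hf y i j hij b ih t
  · rintro _ ⟨i, j, hij, b, _, rfl⟩ y hy ih t
    rw [tv_inv]
    exact three_d_step h3 c a hgood hf y i j hij (-b) ih t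

end statements

end Pool.Agent.Helper58.EN
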