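import Pool.Agent.Helper58.EN.Defs
import Pool.Agent.Helper58.EN.JE
import Pool.Agent.Helper58.EN.JH
import Pool.Agent.Helper58.EN.JK
import Pool.Agent.Helper58.EN.JL

set_option autoImplicit false

namespace Pool.Agent.Helper58.EN

open Matrix

variable {ι : Type} [Fintype ι] [DecidableEq ι]


section statements
open Polynomial

/-- congruence to one modulo an element is stable under commutators. -/
theorem cs_comm {Z R : Type} [CommRing Z] [Ring R] [Algebra Z R] (c : Z)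
    (h w : (Matrix ι ι R)ˣ) (hh : ∃ y : Matrix ι ι R, (h : Matrix ι ι R) = 1 + c • y) :
    ∃ y : Matrix ι ι R, ((h * w * h⁻¹ * w⁻¹ : (Matrix ι ι R)ˣ) : Matrix ι ι R) = 1 + c • y := by
  obtain ⟨y, hy⟩ := hh
  refine ⟨(y * w - w * y) * ((h⁻¹ : (Matrix ι ι R)ˣ) : Matrix ι ι R) *
    ((w⁻¹ : (Matrix ι ι R)ˣ) : Matrix ι ι R), ?_⟩
  have h1 : (h : Matrix ι ι R) * w = w * h + c • (y * w - w * y) := by
    rw [hy, add_mul, mul_add, smul_sub, Matrix.smul_mul, Matrix.mul_smul]
    simp only [one_mul, mul_one]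
    abel
  simp only [Units.val_mul]
  rw [h1, add_mul, add_mul]
  congr 1
  · rw [mul_assoc (w : Matrix ι ι R), Units.mul_inv, mul_one, Units.mul_inv]
  · simp only [Matrix.smul_mul]

theorem cs_mul {Z R : Type} [CommRing Z] [Ring R] [Algebra Z R] (c : Z)
    (h w : (Matrix ι ι R)ˣ) (hh : ∃ y : Matrix ι ι R, (h : Matrix ι ι R) = 1 + c • y)
    (hw : ∃ y : Matrix ι ι R, (w : Matrix ι ι R) = 1 + c • y) :
    ∃ y : Matrix ι ι R, ((h * w : (Matrix ι ι R)ˣ) : Matrix ι ι R) = 1 + c • y := by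
  obtain ⟨y, hy⟩ := hh
  obtain ⟨z, hz⟩ := hw
  refine ⟨y + z + y * (c • z), ?_⟩
  rw [Units.val_mul, hy, hz]
  simp only [add_mul, mul_add, one_mul, mul_one, smul_add, Matrix.smul_mul]
  abel

theorem cs_inv {Z R : Type} [CommRing Z] [Ring R] [Algebra Z R] (c : Z)
    (h : (Matrix ι ι R)ˣ) (hh : ∃ y : Matrix ι ι R, (h : Matrix ι ι R) = 1 + c • y) :
    ∃ y : Matrix ι ι R, ((h⁻¹ : (Matrix ι ι R)ˣ) : Matrix ι ι R) = 1 + c • y := by
  obtain ⟨y, hy⟩ := hh
  refine ⟨-(y * ((h⁻¹ : (Matrix ι ι R)ˣ) : Matrix ι ι R)), ?_⟩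
  have h1 : (h : Matrix ι ι R) * ((h⁻¹ : (Matrix ι ι R)ˣ) : Matrix ι ι R) = 1 := Units.mul_inv h
  rw [hy, add_mul, one_mul, Matrix.smul_mul] at h1
  rw [smul_neg, ← sub_eq_add_neg, eq_sub_iff_add_eq]
  exact h1

/-- elements of the elementary group of the multiples of `c` are one modulo `c`. -/
theorem cs_EL {Z R : Type} [CommRing Z] [Ring R] [Algebra Z R] (c : Z)
    (z : (Matrix ι ι R)ˣ) (hz : z ∈ EL ι {x : R | ∃ r : R, x = c • r}) :
    ∃ y : Matrix ι ι R, (z : Matrix ι ι R) = 1 + c • y := by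
  unfold EL at hz
  induction hz using Subgroup.closure_induction with
  | mem x hx =>
    obtain ⟨i, j, hij, x, ⟨r, rfl⟩, rfl⟩ := hx
    refine ⟨Matrix.single i j r, ?_⟩
    rw [tv_val, Matrix.smul_single]
  | one => exact ⟨0, by simp⟩
  | mul x y _ _ hx hy => exact cs_mul c x y hx hy
  | inv x _ hx => exact cs_inv c x hx

theorem cs_fin {Z R B : Type} [CommRing Z] [Ring R] [Algebra Z R] [Ring B] (c : Z) {q : ℕ}
    (a : Fin q → R) (hgood : ∀ r : R, ∃ z : Fin q → Z, c • r = ∑ i, z i • a i)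
    {f : R →+* B} (hf : Loc (Submonoid.powers c) f)
    [Algebra (Localization (Submonoid.powers c)) B]
    (hcomp : ∀ z : Z, algebraMap (Localization (Submonoid.powers c)) B
      (algebraMap Z (Localization (Submonoid.powers c)) z) = f (algebraMap Z R z)) :
    Module.Finite (Localization (Submonoid.powers c)) B := by
  classical
  refine ⟨⟨(Finset.univ.image (fun i => f (a i))), ?_⟩⟩
  rw [eq_top_iff]
  intro b _
  obtain ⟨s, hs, r, hr⟩ := hf.surj b
  obtain ⟨z, hz⟩ := hgood r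
  have hcs : c * s ∈ Submonoid.powers c := Submonoid.mul_mem _ (Submonoid.mem_powers c) hs
  have hu : IsUnit (algebraMap Z (Localization (Submonoid.powers c)) (c * s)) :=
    IsLocalization.map_units _ (⟨c * s, hcs⟩ : Submonoid.powers c)
  obtain ⟨u, hu⟩ := hu
  have h1 : (u : Localization (Submonoid.powers c)) • b =
      ∑ i, (algebraMap Z (Localization (Submonoid.powers c)) (z i)) • f (a i) := by
    rw [hu, Algebra.smul_def, hcomp, map_mul, map_mul, mul_assoc, hr, ← map_mul,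
      ← Algebra.smul_def, hz, map_sum]
    refine Finset.sum_congr rfl fun i _ => ?_
    rw [Algebra.smul_def, Algebra.smul_def, hcomp, map_mul]
  have h2 : b = ((u⁻¹ : (Localization (Submonoid.powers c))ˣ) :
      Localization (Submonoid.powers c)) •
      ∑ i, (algebraMap Z (Localization (Submonoid.powers c)) (z i)) • f (a i) := by
    rw [← h1, smul_smul, Units.inv_mul, one_smul]
  rw [h2]
  refine Submodule.smul_mem _ _ (Submodule.sum_mem _ fun i _ => Submodule.smul_mem _ _ ?_)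
  apply Submodule.subset_span
  simp

theorem cs_inj {Z R B : Type} [CommRing Z] [Ring R] [Algebra Z R] [Ring B] (c : Z)
    (hinj : ∀ x : R, c • c • x = 0 → c • x = 0)
    {f : R →+* B} (hf : Loc (Submonoid.powers c) f) (y : R) (h : f (c • y) = 0) : c • y = 0 := by
  obtain ⟨s, ⟨k, rfl⟩, hk⟩ := hf.ker _ h
  simp only at hk
  induction k with
  | zero => simpa using hk
  | succ k ih =>
    apply ih
    have h2 : c • c • (c ^ k • y) = 0 := by
      rw [← hk, smul_smul, smul_smul, smul_smul]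
      congr 1
      ring
    have h3 := hinj _ h2
    rw [← h3, smul_smul, smul_smul]
    congr 1
    ring

theorem cs_lift {Z R B : Type} [CommRing Z] [Ring R] [Algebra Z R] [Ring B] (c : Z)
    (hinj : ∀ x : R, c • c • x = 0 → c • x = 0)
    {f : R →+* B} (hf : Loc (Submonoid.powers c) f) (u : (Matrix ι ι R)ˣ)
    (hu : ∃ y : Matrix ι ι R, (u : Matrix ι ι R) = 1 + c • y)
    (hm : mapGL f u ∈ EL ι {y : B | ∃ r : R, y = f (c ^ 1 • r)}) : u ∈ El ι R := by
  have h1 : {y : B | ∃ r : R, y = f (c ^ 1 • r)} = f '' {x : R | ∃ r : R, x = c • r} := by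
    ext y
    constructor
    · rintro ⟨r, rfl⟩
      exact ⟨c • r, ⟨r, rfl⟩, by rw [pow_one]⟩
    · rintro ⟨_, ⟨r, rfl⟩, rfl⟩
      exact ⟨r, by rw [pow_one]⟩
  rw [h1, ← mapGL_EL] at hm
  obtain ⟨z, hz, hzu⟩ := hm
  obtain ⟨y, hy⟩ := hu
  obtain ⟨y', hy'⟩ := cs_EL c z hz
  have h2 : z = u := by
    ext i j
    have h3 : ((mapGL f z : (Matrix ι ι B)ˣ) : Matrix ι ι B) = mapGL f u := by rw [hzu]
    have h4 := congrFun (congrFun h3 i) j
    simp only [mapGL_val, Matrix.map_apply] at h4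
    have h5 : (z : Matrix ι ι R) i j - (u : Matrix ι ι R) i j = c • (y' i j - y i j) := by
      rw [hy, hy']
      simp only [Matrix.add_apply, Matrix.smul_apply, smul_sub]
      abel
    have h6 : f (c • (y' i j - y i j)) = 0 := by
      rw [← h5, map_sub, h4, sub_self]
    have h7 := cs_inj c hinj hf _ h6
    rw [h7] at h5
    exact sub_eq_zero.mp h5
  rw [← h2]
  exact EL_le_El hz

theorem central_semiprime (h3 : 3 ≤ Fintype.card ι) {Z R : Type} [CommRing Z] [Ring R]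
    [Algebra Z R] (c : Z) {q : ℕ} (a : Fin q → R)
    (hgood : ∀ r : R, ∃ z : Fin q → Z, c • r = ∑ i, z i • a i)
    (hinj : ∀ x : R, c • c • x = 0 → c • x = 0) (g : (Matrix ι ι R)ˣ)
    (hg : ∀ m : ℕ, ∀ e ∈ El ι R, ∃ x ∈ El ι R, ∃ h : (Matrix ι ι R)ˣ, g * e * g⁻¹ = x * h ∧
      ∃ y : Matrix ι ι R, (h : Matrix ι ι R) = 1 + (c ^ m) • y) : NE g := by
  obtain ⟨B, rB, aB, f, hf, hcomp, _⟩ := exists_loc Z R (Submonoid.powers c)
  have hfin : Module.Finite (Localization (Submonoid.powers c)) B := cs_fin c a hgood hf hcomp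
  obtain ⟨m0, hm0⟩ := three_c h3 c a hgood hf 0 1
  -- weakening of congruences
  have hweak : ∀ (m n : ℕ) (h : (Matrix ι ι R)ˣ), m ≤ n →
      (∃ y : Matrix ι ι R, (h : Matrix ι ι R) = 1 + (c ^ n) • y) →
      (∃ y : Matrix ι ι R, (h : Matrix ι ι R) = 1 + (c ^ m) • y) := by
    rintro m n h hmn ⟨y, hy⟩
    refine ⟨c ^ (n - m) • y, ?_⟩
    rw [hy, smul_smul, ← pow_add]
    congr 3
    omega
  have hweak1 : ∀ (n : ℕ) (h : (Matrix ι ι R)ˣ), 1 ≤ n →
      (∃ y : Matrix ι ι R, (h : Matrix ι ι R) = 1 + (c ^ n) • y) →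
      (∃ y : Matrix ι ι R, (h : Matrix ι ι R) = 1 + c • y) := by
    intro n h hn hh
    obtain ⟨y, hy⟩ := hweak 1 n h hn hh
    exact ⟨y, by rw [hy, pow_one]⟩
  -- congruence elements normalise
  have hnorm : ∀ h : (Matrix ι ι R)ˣ,
      (∃ y : Matrix ι ι R, (h : Matrix ι ι R) = 1 + (c ^ (m0 + 1)) • y) → NE h := by
    intro h hh e he
    unfold El EL at he
    induction he using Subgroup.closure_induction with
    | mem x hx =>
      obtain ⟨i, j, hij, x, _, rfl⟩ := hx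
      have h1 : h * tv i j hij x * h⁻¹ * (tv i j hij x)⁻¹ ∈ El ι R := by
        apply cs_lift c hinj hf
        · exact cs_comm c h _ (hweak1 _ h (by omega) hh)
        · have h2 := hm0 h (hweak _ _ h (by omega) hh) i j hij (f x) ⟨x, by simp⟩
          simpa [mapGL_tv, map_mul, map_inv] using h2
      have h2 : h * tv i j hij x * h⁻¹ =
          (h * tv i j hij x * h⁻¹ * (tv i j hij x)⁻¹) * tv i j hij x := by group
      rw [h2]
      exact Subgroup.mul_mem _ h1 (tv_mem' i j hij x)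
    | one => simpa using Subgroup.one_mem _
    | mul x y _ _ hx hy =>
      have : h * (x * y) * h⁻¹ = (h * x * h⁻¹) * (h * y * h⁻¹) := by group
      rw [this]
      exact Subgroup.mul_mem _ hx hy
    | inv x _ hx =>
      have : h * x⁻¹ * h⁻¹ = (h * x * h⁻¹)⁻¹ := by group
      rw [this]
      exact Subgroup.inv_mem _ hx
  -- commutators
  have hcomm : ∀ e1 ∈ El ι R, ∀ e2 ∈ El ι R, g * (e1 * e2 * e1⁻¹ * e2⁻¹) * g⁻¹ ∈ El ι R := by
    intro e1 he1 e2 he2
    obtain ⟨x, hx, h, hxh, hh⟩ := hg (m0 + 1) e1 he1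
    have hB : mapGL f h ∈ El ι B := by
      have h1 : mapGL f h = (mapGL f x)⁻¹ *
          (mapGL f g * mapGL f e1 * (mapGL f g)⁻¹) := by
        have h2 : mapGL f g * mapGL f e1 * (mapGL f g)⁻¹ = mapGL f x * mapGL f h := by
          rw [← map_mul, ← map_inv, ← map_mul, hxh, map_mul]
        rw [h2, inv_mul_cancel_left]
      rw [h1]
      exact Subgroup.mul_mem _ (Subgroup.inv_mem _ (mapGL_mem f hx))
        (ST (Z := Localization (Submonoid.powers c)) h3 (mapGL f g) _ (mapGL_mem f he1))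
    obtain ⟨m1, hm1⟩ := three_d h3 c a hgood hf (mapGL f h) hB 1
    obtain ⟨y, hy, k, hyk, hk⟩ := hg (m1 + m0 + 1) e2 he2
    have hkh : k * h * k⁻¹ * h⁻¹ ∈ El ι R := by
      apply cs_lift c hinj hf
      · exact cs_comm c k h (hweak1 _ k (by omega) hk)
      · have h2 := hm1 k (hweak _ _ k (by omega) hk)
        simpa [map_mul, map_inv] using h2
    have hNh : NE h := hnorm h hh
    have hNk : NE k := hnorm k (hweak _ _ k (by omega) hk)
    have key : g * (e1 * e2 * e1⁻¹ * e2⁻¹) * g⁻¹ =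
        x * (h * y * h⁻¹) * (k * h * k⁻¹ * h⁻¹)⁻¹ * (k * x⁻¹ * k⁻¹) * y⁻¹ := by
      have : g * (e1 * e2 * e1⁻¹ * e2⁻¹) * g⁻¹ =
          (g * e1 * g⁻¹) * (g * e2 * g⁻¹) * (g * e1 * g⁻¹)⁻¹ * (g * e2 * g⁻¹)⁻¹ := by group
      rw [this, hxh, hyk]
      group
    rw [key]
    refine Subgroup.mul_mem _ (Subgroup.mul_mem _ (Subgroup.mul_mem _ (Subgroup.mul_mem _ hx
      (hNh y hy)) (Subgroup.inv_mem _ hkh)) (hNk _ (Subgroup.inv_mem _ hx)))
      (Subgroup.inv_mem _ hy)
  -- conclusion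
  intro e he
  unfold El EL at he
  induction he using Subgroup.closure_induction with
  | mem x hx =>
    obtain ⟨i, j, hij, x, _, rfl⟩ := hx
    obtain ⟨l, hl⟩ : ∃ l : ι, l ≠ i ∧ l ≠ j := by
      by_contra hcon
      push Not at hcon
      have h4 : (Finset.univ : Finset ι) ⊆ {i, j} := by
        intro l _
        by_cases hli : l = i
        · simp [hli]
        · simp [hcon l hli]
      have h5 := Finset.card_le_card h4
      have h6 : ({i, j} : Finset ι).card ≤ 2 := Finset.card_le_two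
      rw [Finset.card_univ] at h5
      omega
    have h4 := tv_comm i l j (Ne.symm hl.1) hl.2 hij x 1
    rw [mul_one] at h4
    rw [← h4]
    exact hcomm _ (tv_mem' _ _ _ _) _ (tv_mem' _ _ _ _)
  | one => simpa using Subgroup.one_mem _
  | mul x y _ _ hx hy =>
    have : g * (x * y) * g⁻¹ = (g * x * g⁻¹) * (g * y * g⁻¹) := by group
    rw [this]
    exact Subgroup.mul_mem _ hx hy
  | inv x _ hx =>
    have : g * x⁻¹ * g⁻¹ = (g * x * g⁻¹)⁻¹ := by group
    rw [this]
    exact Subgroup.inv_mem _ hx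

end statements

end Pool.Agent.Helper58.EN
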