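import Pool.Agent.Helper58.EN.Defs

set_option autoImplicit false

namespace Pool.Agent.Helper58.EN

open Matrix

variable {ι : Type} [Fintype ι] [DecidableEq ι]


section statements
open Polynomial

open scoped commutatorElement

/-- the additive subgroup generated by the long products -/
def JP {A : Type} [Ring A] (X : Finset A) (p : ℕ) : AddSubgroup A :=
  AddSubgroup.closure {a | ∃ l : List A, (∀ x ∈ l, x ∈ X) ∧ p ≤ l.length ∧ a = l.prod}

theorem JP_mul {A : Type} [Ring A] (X : Finset A) (p q : ℕ) {a b : A} (ha : a ∈ JP X p)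
    (hb : b ∈ JP X q) : a * b ∈ JP X (p + q) := by
  induction ha using AddSubgroup.closure_induction with
  | mem a ha =>
    induction hb using AddSubgroup.closure_induction with
    | mem b hb =>
      obtain ⟨l, h1, h2, rfl⟩ := ha
      obtain ⟨l', h1', h2', rfl⟩ := hb
      apply AddSubgroup.subset_closure
      refine ⟨l ++ l', ?_, ?_, ?_⟩
      · intro x hx
        rcases List.mem_append.mp hx with h | h
        · exact h1 x h
        · exact h1' x h
      · rw [List.length_append]; omega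
      · rw [List.prod_append]
    | zero => rw [mul_zero]; exact zero_mem _
    | add x y _ _ h1 h2 => rw [mul_add]; exact add_mem h1 h2
    | neg x _ h1 => rw [mul_neg]; exact neg_mem h1
  | zero => rw [zero_mul]; exact zero_mem _
  | add x y _ _ h1 h2 => rw [add_mul]; exact add_mem h1 h2
  | neg x _ h1 => rw [neg_mul]; exact neg_mem h1

theorem JP_anti {A : Type} [Ring A] (X : Finset A) {p q : ℕ} (h : p ≤ q) : JP X q ≤ JP X p := by
  apply AddSubgroup.closure_mono
  rintro a ⟨l, h1, h2, h3⟩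
  exact ⟨l, h1, le_trans h h2, h3⟩

theorem JP_bot {A : Type} [Ring A] (X : Finset A) (N : ℕ)
    (hN : ∀ l : List A, (∀ x ∈ l, x ∈ X) → l.length = N → l.prod = 0) {a : A} (ha : a ∈ JP X N) :
    a = 0 := by
  induction ha using AddSubgroup.closure_induction with
  | mem a ha =>
    obtain ⟨l, h1, h2, rfl⟩ := ha
    rw [← List.take_append_drop N l, List.prod_append, hN (l.take N) (fun x hx => h1 x (List.mem_of_mem_take hx))
      (by rw [List.length_take]; omega), zero_mul]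
  | zero => rfl
  | add x y _ _ h1 h2 => rw [h1, h2, add_zero]
  | neg x _ h1 => rw [h1, neg_zero]

/-- the filtration of the unit group -/
def GP {A : Type} [Ring A] (X : Finset A) (p : ℕ) : Subgroup Aˣ where
  carrier := {u | (u : A) - 1 ∈ JP X p ∧ ((u⁻¹ : Aˣ) : A) - 1 ∈ JP X p}
  one_mem' := by
    show ((1 : Aˣ) : A) - 1 ∈ JP X p ∧ (((1 : Aˣ)⁻¹ : Aˣ) : A) - 1 ∈ JP X p
    rw [inv_one, Units.val_one, sub_self]
    exact ⟨zero_mem _, zero_mem _⟩
  mul_mem' := by
    rintro u v ⟨hu, hu'⟩ ⟨hv, hv'⟩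
    constructor
    · have h1 : ((u * v : Aˣ) : A) - 1 = ((u : A) - 1) * ((v : A) - 1) + ((u : A) - 1) + ((v : A) - 1) := by
        rw [Units.val_mul]; noncomm_ring
      rw [h1]
      exact add_mem (add_mem (JP_anti X (by omega) (JP_mul X p p hu hv)) hu) hv
    · have h1 : (((u * v)⁻¹ : Aˣ) : A) - 1 = (((v⁻¹ : Aˣ) : A) - 1) * (((u⁻¹ : Aˣ) : A) - 1) +
          (((v⁻¹ : Aˣ) : A) - 1) + (((u⁻¹ : Aˣ) : A) - 1) := by
        rw [_root_.mul_inv_rev, Units.val_mul]; noncomm_ring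
      rw [h1]
      exact add_mem (add_mem (JP_anti X (by omega) (JP_mul X p p hv' hu')) hv') hu'
  inv_mem' := by
    rintro u ⟨hu, hu'⟩
    refine ⟨hu', ?_⟩
    rw [inv_inv]
    exact hu

theorem GP_comm_aux {A : Type} [Ring A] (X : Finset A) {p : ℕ} (hp : 1 ≤ p) {u v : Aˣ} (hu : u ∈ GP X p)
    (hv : v ∈ GP X p) : ((⁅u, v⁆ : Aˣ) : A) - 1 ∈ JP X (p + 1) := by
  have hw : (u⁻¹ * v⁻¹ : Aˣ) ∈ GP X p := mul_mem (inv_mem hu) (inv_mem hv)
  have h1 : ((⁅u, v⁆ : Aˣ) : A) - 1 =
      ((((u : A) - 1) * ((v : A) - 1) - ((v : A) - 1) * ((u : A) - 1)) *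
        (((u⁻¹ * v⁻¹ : Aˣ) : A) - 1)) + (((u : A) - 1) * ((v : A) - 1) - ((v : A) - 1) * ((u : A) - 1)) := by
    have h2 : (u : A) * v * ((u⁻¹ * v⁻¹ : Aˣ) : A) = ((⁅u, v⁆ : Aˣ) : A) := by
      rw [commutatorElement_def, ← Units.val_mul, ← Units.val_mul]
      congr 1
      group
    have h3 : (v : A) * u * ((u⁻¹ * v⁻¹ : Aˣ) : A) = 1 := by
      rw [← Units.val_mul, ← Units.val_mul, ← Units.val_one]
      congr 1
      group
    have h4 : ((((u : A) - 1) * ((v : A) - 1) - ((v : A) - 1) * ((u : A) - 1)) *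
        (((u⁻¹ * v⁻¹ : Aˣ) : A) - 1)) + (((u : A) - 1) * ((v : A) - 1) - ((v : A) - 1) * ((u : A) - 1)) =
        (u : A) * v * ((u⁻¹ * v⁻¹ : Aˣ) : A) - (v : A) * u * ((u⁻¹ * v⁻¹ : Aˣ) : A) := by
      noncomm_ring
    rw [h4, h2, h3]
  have hab : (((u : A) - 1) * ((v : A) - 1) - ((v : A) - 1) * ((u : A) - 1)) ∈ JP X (p + p) :=
    sub_mem (JP_mul X p p hu.1 hv.1) (JP_mul X p p hv.1 hu.1)
  rw [h1]
  exact add_mem (JP_anti X (by omega) (JP_mul X (p + p) p hab hw.1)) (JP_anti X (by omega) hab)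

theorem GP_comm {A : Type} [Ring A] (X : Finset A) {p : ℕ} (hp : 1 ≤ p) {u v : Aˣ} (hu : u ∈ GP X p)
    (hv : v ∈ GP X p) : ⁅u, v⁆ ∈ GP X (p + 1) := by
  refine ⟨GP_comm_aux X hp hu hv, ?_⟩
  rw [commutatorElement_inv]
  exact GP_comm_aux X hp hv hu

theorem ln_solvable {A : Type} [Ring A] (J : Ideal A) [J.IsTwoSided] (hJ : LN (J : Set A))
    (U : Finset Aˣ) (hU : ∀ u ∈ U, (u : A) - 1 ∈ J) :
    Group.IsSolvable (Subgroup.closure (U : Set Aˣ)) := by
  classical
  set X : Finset A := U.image (fun u : Aˣ => (u : A) - 1) ∪ U.image (fun u : Aˣ => ((u⁻¹ : Aˣ) : A) - 1) with hX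
  have hXJ : (X : Set A) ⊆ (J : Set A) := by
    intro x hx
    rw [hX, Finset.coe_union] at hx
    rcases hx with hx | hx
    · rw [Finset.mem_coe, Finset.mem_image] at hx
      obtain ⟨u, hu, rfl⟩ := hx
      exact hU u hu
    · rw [Finset.mem_coe, Finset.mem_image] at hx
      obtain ⟨u, hu, rfl⟩ := hx
      have h1 : ((u⁻¹ : Aˣ) : A) - 1 = (-((u⁻¹ : Aˣ) : A)) * ((u : A) - 1) := by
        rw [mul_sub, neg_mul, Units.inv_mul]
        noncomm_ring
      show ((u⁻¹ : Aˣ) : A) - 1 ∈ J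
      rw [h1]
      exact J.mul_mem_left _ (hU u hu)
  obtain ⟨N, hN⟩ := hJ X hXJ
  have hcl : Subgroup.closure (U : Set Aˣ) ≤ GP X 1 := by
    rw [Subgroup.closure_le]
    intro u hu
    rw [Finset.mem_coe] at hu
    constructor
    · apply AddSubgroup.subset_closure
      refine ⟨[(u : A) - 1], ?_, by simp, by simp⟩
      intro x hx
      rw [List.mem_singleton] at hx
      rw [hx, hX, Finset.mem_union]
      exact Or.inl (Finset.mem_image_of_mem (fun u : Aˣ => (u : A) - 1) hu)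
    · apply AddSubgroup.subset_closure
      refine ⟨[((u⁻¹ : Aˣ) : A) - 1], ?_, by simp, by simp⟩
      intro x hx
      rw [List.mem_singleton] at hx
      rw [hx, hX, Finset.mem_union]
      exact Or.inr (Finset.mem_image_of_mem (fun u : Aˣ => ((u⁻¹ : Aˣ) : A) - 1) hu)
  have key : ∀ n : ℕ, derivedSeries (Subgroup.closure (U : Set Aˣ)) n ≤
      (GP X (n + 1)).comap (Subgroup.closure (U : Set Aˣ)).subtype := by
    intro n
    induction n with
    | zero =>
      intro x _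
      exact hcl x.2
    | succ n ih =>
      rw [derivedSeries_succ, Subgroup.commutator_le]
      intro g₁ h₁ g₂ h₂
      have e1 := ih h₁
      have e2 := ih h₂
      rw [Subgroup.mem_comap] at e1 e2 ⊢
      rw [map_commutatorElement]
      exact GP_comm X (by omega) e1 e2
  refine ⟨⟨N, ?_⟩⟩
  rw [eq_bot_iff]
  intro x hx
  have h1 := key N hx
  rw [Subgroup.mem_comap] at h1
  have h2 := JP_bot X N hN (JP_anti X (Nat.le_succ N) h1.1)
  rw [Subgroup.mem_bot]
  apply Subtype.ext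
  apply Units.ext
  show ((x : Aˣ) : A) = 1
  exact sub_eq_zero.mp h2

end statements

end Pool.Agent.Helper58.EN
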