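import Pool.Agent.Helper58.EN.Defs

set_option autoImplicit false

namespace Pool.Agent.Helper58.EN

open Matrix

variable {ι : Type} [Fintype ι] [DecidableEq ι]


section statements
open Polynomial

theorem zz_mem_sup {G : Type} [Group G] (E D : Subgroup G)
    (hD : ∀ d ∈ D, ∀ e ∈ E, d * e * d⁻¹ ∈ E) {g : G} (hg : g ∈ E ⊔ D) :
    ∃ e ∈ E, ∃ d ∈ D, g = e * d := by
  let S : Subgroup G :=
    { carrier := {g | ∃ e ∈ E, ∃ d ∈ D, g = e * d}
      mul_mem' := by
        rintro _ _ ⟨e1, he1, d1, hd1, rfl⟩ ⟨e2, he2, d2, hd2, rfl⟩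
        refine ⟨e1 * (d1 * e2 * d1⁻¹), E.mul_mem he1 (hD d1 hd1 e2 he2), d1 * d2,
          D.mul_mem hd1 hd2, ?_⟩
        group
      one_mem' := ⟨1, E.one_mem, 1, D.one_mem, by simp⟩
      inv_mem' := by
        rintro _ ⟨e, he, d, hd, rfl⟩
        refine ⟨d⁻¹ * e⁻¹ * (d⁻¹)⁻¹, hD d⁻¹ (D.inv_mem hd) e⁻¹ (E.inv_mem he), d⁻¹,
          D.inv_mem hd, ?_⟩
        group }
  have h : E ⊔ D ≤ S := by
    apply sup_le
    · intro e he
      exact ⟨e, he, 1, D.one_mem, by simp⟩
    · intro d hd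
      exact ⟨1, E.one_mem, d, hd, by simp⟩
  exact h hg

open scoped commutatorElement in
theorem zz_comm_sup {G : Type} [Group G] (E D : Subgroup G)
    (hD : ∀ d ∈ D, ∀ e ∈ E, d * e * d⁻¹ ∈ E) : ⁅E ⊔ D, E ⊔ D⁆ ≤ E ⊔ ⁅D, D⁆ := by
  rw [Subgroup.commutator_le]
  intro a ha b hb
  obtain ⟨e1, he1, d1, hd1, rfl⟩ := zz_mem_sup E D hD ha
  obtain ⟨e2, he2, d2, hd2, rfl⟩ := zz_mem_sup E D hD hb
  have hc : ⁅d1, d2⁆ ∈ D := by
    rw [commutatorElement_def]
    exact D.mul_mem (D.mul_mem (D.mul_mem hd1 hd2) (D.inv_mem hd1)) (D.inv_mem hd2)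
  have h1 : d1 * e2 * d1⁻¹ ∈ E := hD d1 hd1 e2 he2
  have hd3 : d1 * d2 * d1⁻¹ ∈ D := D.mul_mem (D.mul_mem hd1 hd2) (D.inv_mem hd1)
  have h2 : (d1 * d2 * d1⁻¹) * e1⁻¹ * (d1 * d2 * d1⁻¹)⁻¹ ∈ E := hD _ hd3 _ (E.inv_mem he1)
  have h3 : ⁅d1, d2⁆ * e2⁻¹ * ⁅d1, d2⁆⁻¹ ∈ E := hD _ hc _ (E.inv_mem he2)
  have e : ⁅e1 * d1, e2 * d2⁆ = (e1 * (d1 * e2 * d1⁻¹) *
      ((d1 * d2 * d1⁻¹) * e1⁻¹ * (d1 * d2 * d1⁻¹)⁻¹) * (⁅d1, d2⁆ * e2⁻¹ * ⁅d1, d2⁆⁻¹)) *
      ⁅d1, d2⁆ := by
    simp only [commutatorElement_def]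
    group
  rw [e]
  apply Subgroup.mul_mem
  · exact Subgroup.mem_sup_left (E.mul_mem (E.mul_mem (E.mul_mem he1 h1) h2) h3)
  · exact Subgroup.mem_sup_right (Subgroup.commutator_mem_commutator hd1 hd2)

theorem perfect_le {G : Type} [Group G] (E D P : Subgroup G)
    (hD : ∀ d ∈ D, ∀ e ∈ E, d * e * d⁻¹ ∈ E) (hs : Group.IsSolvable D) (hP : P ≤ E ⊔ D)
    (hperf : P ≤ ⁅P, P⁆) : P ≤ E := by
  have key : ∀ n : ℕ, P ≤ E ⊔ (derivedSeries D n).map D.subtype := by
    intro n
    induction n with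
    | zero =>
      rw [derivedSeries_zero, ← MonoidHom.range_eq_map, Subgroup.range_subtype]
      exact hP
    | succ n ih =>
      have hle : (derivedSeries D n).map D.subtype ≤ D := Subgroup.map_subtype_le _
      calc P ≤ ⁅P, P⁆ := hperf
        _ ≤ ⁅E ⊔ (derivedSeries D n).map D.subtype, E ⊔ (derivedSeries D n).map D.subtype⁆ :=
            Subgroup.commutator_mono ih ih
        _ ≤ E ⊔ ⁅(derivedSeries D n).map D.subtype, (derivedSeries D n).map D.subtype⁆ :=
            zz_comm_sup E _ (fun d hd e he => hD d (hle hd) e he)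
        _ = E ⊔ (derivedSeries D (n + 1)).map D.subtype := by
            rw [derivedSeries_succ, Subgroup.map_commutator]
  obtain ⟨n, hn⟩ := hs.solvable
  have := key n
  rw [hn, Subgroup.map_bot, sup_bot_eq] at this
  exact this

theorem zz_third (h3 : 3 ≤ Fintype.card ι) (i j : ι) : ∃ k : ι, k ≠ i ∧ k ≠ j := by
  have h1 : ({i, j} : Finset ι).card < (Finset.univ : Finset ι).card := by
    have := Finset.card_le_two (a := i) (b := j)
    rw [Finset.card_univ]
    omega
  obtain ⟨k, _, hk⟩ := Finset.exists_mem_notMem_of_card_lt_card h1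
  simp only [Finset.mem_insert, Finset.mem_singleton, not_or] at hk
  exact ⟨k, hk.1, hk.2⟩

theorem El_perfect (h3 : 3 ≤ Fintype.card ι) {R : Type} [Ring R] : El ι R ≤ ⁅El ι R, El ι R⁆ := by
  conv_lhs => unfold El EL
  rw [Subgroup.closure_le]
  rintro g ⟨i, j, hij, x, -, rfl⟩
  obtain ⟨k, hki, hkj⟩ := zz_third h3 i j
  have h := tv_comm i k j (Ne.symm hki) hkj hij x (1 : R)
  rw [mul_one] at h
  rw [← h]
  have := Subgroup.commutator_mem_commutator (tv_mem' i k (Ne.symm hki) x)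
    (tv_mem' k j hkj (1 : R))
  rw [commutatorElement_def] at this
  exact this

theorem El_fg (h3 : 3 ≤ Fintype.card ι) {R : Type} [Ring R] (hfg : FG R) :
    ∃ X : Finset (Matrix ι ι R)ˣ, Subgroup.closure (X : Set (Matrix ι ι R)ˣ) = El ι R := by
  classical
  obtain ⟨X, hX⟩ := hfg
  let F : ι × ι × R → (Matrix ι ι R)ˣ := fun t =>
    if h : t.1 ≠ t.2.1 then tv t.1 t.2.1 h t.2.2 else 1
  let Y : Finset (Matrix ι ι R)ˣ :=
    ((Finset.univ : Finset ι) ×ˢ ((Finset.univ : Finset ι) ×ˢ (insert 1 X))).image F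
  refine ⟨Y, le_antisymm ?_ ?_⟩
  · rw [Subgroup.closure_le]
    intro g hg
    obtain ⟨⟨i, j, x⟩, _, rfl⟩ := Finset.mem_image.1 (Finset.mem_coe.1 hg)
    by_cases h : i ≠ j
    · have : F (i, j, x) = tv i j h x := by simp only [F]; rw [dif_pos h]
      rw [this]
      exact tv_mem' i j h x
    · have : F (i, j, x) = 1 := by simp only [F]; rw [dif_neg h]
      rw [this]
      exact Subgroup.one_mem _
  · have hY : ∀ i j (h : i ≠ j), ∀ x ∈ insert (1 : R) X,
        tv i j h x ∈ Subgroup.closure (Y : Set (Matrix ι ι R)ˣ) := by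
      intro i j h x hx
      apply Subgroup.subset_closure
      apply Finset.mem_coe.2
      apply Finset.mem_image.2
      refine ⟨(i, j, x), ?_, ?_⟩
      · simp only [Finset.mem_product, Finset.mem_univ, true_and]
        exact hx
      · simp only [F]
        rw [dif_pos h]
    let T : Subring R :=
      { carrier := {r | ∀ i j (h : i ≠ j), tv i j h r ∈
          Subgroup.closure (Y : Set (Matrix ι ι R)ˣ)}
        mul_mem' := by
          intro r s hr hs i j hij
          obtain ⟨k, hki, hkj⟩ := zz_third h3 i j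
          rw [← tv_comm i k j (Ne.symm hki) hkj hij r s]
          have h1 := hr i k (Ne.symm hki)
          have h2 := hs k j hkj
          exact Subgroup.mul_mem _ (Subgroup.mul_mem _ (Subgroup.mul_mem _ h1 h2)
            (Subgroup.inv_mem _ h1)) (Subgroup.inv_mem _ h2)
        one_mem' := fun i j h => hY i j h 1 (Finset.mem_insert_self _ _)
        add_mem' := by
          intro r s hr hs i j hij
          rw [tv_add]
          exact Subgroup.mul_mem _ (hr i j hij) (hs i j hij)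
        zero_mem' := by
          intro i j hij
          rw [tv_zero]
          exact Subgroup.one_mem _
        neg_mem' := by
          intro r hr i j hij
          rw [← tv_inv]
          exact Subgroup.inv_mem _ (hr i j hij) }
    have hT : (⊤ : Subring R) ≤ T := by
      rw [← hX, Subring.closure_le]
      intro x hx i j hij
      exact hY i j hij x (Finset.mem_insert_of_mem (Finset.mem_coe.1 hx))
    unfold El EL
    rw [Subgroup.closure_le]
    rintro g ⟨i, j, hij, x, -, rfl⟩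
    exact hT (Subring.mem_top x) i j hij

end statements

end Pool.Agent.Helper58.EN
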