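import Pool.Agent.Helper58.EN.Defs
import Pool.Agent.Helper58.EN.JA
import Pool.Agent.Helper58.EN.JN
import Pool.Agent.Helper58.EN.JO

set_option autoImplicit false

namespace Pool.Agent.Helper58.EN

open Matrix

variable {ι : Type} [Fintype ι] [DecidableEq ι]


section statements
open Polynomial

theorem LN_long_2437 {A : Type} [Ring A] {X : Finset A} {N : ℕ}
    (h : ∀ l : List A, (∀ x ∈ l, x ∈ X) → l.length = N → l.prod = 0)
    (l : List A) (hl : ∀ x ∈ l, x ∈ X) (hN : N ≤ l.length) : l.prod = 0 := by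
  have h1 : l = l.take N ++ l.drop N := (List.take_append_drop N l).symm
  rw [h1, List.prod_append, h (l.take N) (fun x hx => hl x (List.mem_of_mem_take hx))
    (by rw [List.length_take]; exact min_eq_left hN), zero_mul]

theorem LN_pi_2437 {R : Type} [Ring R] (J : Ideal R) (hJ : LN (J : Set R)) :
    LN ((Ideal.pi (fun _ : ι => J) : Ideal (ι → R)) : Set (ι → R)) := by
  classical
  intro X hX
  have h1 : ∀ i : ι, ∃ N : ℕ, ∀ l : List R, (∀ x ∈ l, x ∈ X.image (fun v => v i)) →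
      l.length = N → l.prod = 0 := by
    intro i
    refine hJ (X.image (fun v => v i)) ?_
    intro x hx
    rw [Finset.mem_coe, Finset.mem_image] at hx
    obtain ⟨v, hv, rfl⟩ := hx
    exact (Ideal.mem_pi _ _).1 (hX hv) i
  choose N hN using h1
  refine ⟨∑ i, N i, ?_⟩
  intro l hl hlen
  funext i
  have h2 : l.prod i = (l.map (fun v => v i)).prod := by
    exact map_list_prod (Pi.evalRingHom (fun _ : ι => R) i) l
  rw [h2]
  refine LN_long_2437 (hN i) _ ?_ ?_
  · intro x hx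
    rw [List.mem_map] at hx
    obtain ⟨v, hv, rfl⟩ := hx
    exact Finset.mem_image_of_mem _ (hl v hv)
  · rw [List.length_map, hlen]
    exact Finset.single_le_sum (f := N) (fun _ _ => Nat.zero_le _) (Finset.mem_univ i)

/-- the homomorphism from tuples of units to diagonal matrices -/
def dgHom_2437 (ι : Type) [Fintype ι] [DecidableEq ι] (R : Type) [Ring R] :
    (ι → Rˣ) →* (Matrix ι ι R)ˣ where
  toFun := dg
  map_one' := by
    ext : 1
    simp
  map_mul' := dg_mul

theorem dg_normal_2437 {R : Type} [Ring R] (d : ι → Rˣ) (e : (Matrix ι ι R)ˣ) (he : e ∈ El ι R) :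
    dg d * e * (dg d)⁻¹ ∈ El ι R := by
  have h1 : El ι R ≤ (El ι R).comap (MulAut.conj (dg d)).toMonoidHom := by
    unfold El EL
    rw [Subgroup.closure_le]
    rintro x ⟨i, j, hij, y, -, rfl⟩
    rw [SetLike.mem_coe, Subgroup.mem_comap]
    have h2 : (MulAut.conj (dg d)).toMonoidHom (tv i j hij y) =
        tv i j hij ((d i : R) * y * ((d j)⁻¹ : Rˣ)) := dg_conj d i j hij y
    rw [h2]
    exact Subgroup.subset_closure ⟨i, j, hij, _, Set.mem_univ _, rfl⟩
  exact h1 he

theorem lift_ln (h3 : 3 ≤ Fintype.card ι) {R Q : Type} [Ring R] [Ring Q] (hfg : FG R)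
    (π : R →+* Q) (hπ : Function.Surjective π) (hLN : LN {x : R | π x = 0})
    (g : (Matrix ι ι R)ˣ) (hg : NE (mapGL π g)) : NE g := by
  classical
  let J : Ideal R := RingHom.ker π
  have hmemJ : ∀ x, x ∈ J ↔ π x = 0 := fun x => RingHom.mem_ker
  have hJset : (J : Set R) = {x : R | π x = 0} := by
    ext x
    exact hmemJ x
  have hLNJ : LN (J : Set R) := by
    rw [hJset]; exact hLN
  have hunit : ∀ x ∈ J, IsUnit (1 + x) := by
    intro x hx
    obtain ⟨N, hN⟩ := hLNJ {x} (by simpa using hx)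
    have h1 := hN (List.replicate N x) (fun y hy => by
      rw [List.mem_replicate] at hy
      simp [hy.2]) (List.length_replicate ..)
    rw [List.prod_replicate] at h1
    exact IsNilpotent.isUnit_one_add ⟨N, h1⟩
  -- key decomposition
  have key : ∀ e ∈ El ι R, ∃ x ∈ El ι R, ∃ d : ι → Rˣ, (∀ i, (d i : R) - 1 ∈ J) ∧
      g * e * g⁻¹ = x * dg d := by
    intro e he
    have h1 : mapGL π (g * e * g⁻¹) ∈ El ι Q := by
      rw [map_mul, map_mul, map_inv]
      exact hg _ (mapGL_mem π he)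
    rw [← El_map_surj π hπ] at h1
    obtain ⟨x, hx, hxe⟩ := h1
    have h2 : mapGL π (x⁻¹ * (g * e * g⁻¹)) = 1 := by
      rw [map_mul, map_inv, ← hxe, inv_mul_cancel]
    have h3' : ∀ i j, π ((x⁻¹ * (g * e * g⁻¹) : (Matrix ι ι R)ˣ) i j) =
        (1 : Matrix ι ι Q) i j := by
      intro i j
      have h4 : ((mapGL π (x⁻¹ * (g * e * g⁻¹)) : (Matrix ι ι Q)ˣ) : Matrix ι ι Q) =
          ((1 : (Matrix ι ι Q)ˣ) : Matrix ι ι Q) := by rw [h2]
      exact congrFun (congrFun h4 i) j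
    have hoff : ∀ i j, i ≠ j → ((x⁻¹ * (g * e * g⁻¹) : (Matrix ι ι R)ˣ) : Matrix ι ι R) i j ∈ J := by
      intro i j hij
      rw [hmemJ, h3', Matrix.one_apply_ne hij]
    have hdiag1 : ∀ i, ((x⁻¹ * (g * e * g⁻¹) : (Matrix ι ι R)ˣ) : Matrix ι ι R) i i - 1 ∈ J := by
      intro i
      rw [hmemJ, map_sub, h3', Matrix.one_apply_eq, map_one, sub_self]
    obtain ⟨e', he', d, hd, hdec⟩ := gauss J hunit (x⁻¹ * (g * e * g⁻¹)) hoff (fun i => by
      have := hunit _ (hdiag1 i)
      rwa [add_sub_cancel] at this)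
    refine ⟨x * e', mul_mem hx he', d, ?_, ?_⟩
    · intro i
      have := J.add_mem (hd i) (hdiag1 i)
      rwa [sub_add_sub_cancel] at this
    · rw [mul_assoc x e', ← hdec, mul_inv_cancel_left]
  obtain ⟨X0, hX0⟩ := El_fg (ι := ι) h3 hfg
  have hX0mem : ∀ s ∈ X0, s ∈ El ι R := by
    intro s hs
    rw [← hX0]
    exact Subgroup.subset_closure hs
  have key2 : ∀ s : (Matrix ι ι R)ˣ, ∃ d : ι → Rˣ, s ∈ X0 → ((∀ i, (d i : R) - 1 ∈ J) ∧
      ∃ x ∈ El ι R, g * s * g⁻¹ = x * dg d) := by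
    intro s
    by_cases hs : s ∈ X0
    · obtain ⟨x, hx, d, hd, hdec⟩ := key s (hX0mem s hs)
      exact ⟨d, fun _ => ⟨hd, x, hx, hdec⟩⟩
    · exact ⟨1, fun h => absurd h hs⟩
  choose ds hds using key2
  let U : Finset (ι → R)ˣ := X0.image (fun s => (MulEquiv.piUnits (M := fun _ : ι => R)).symm (ds s))
  let Jp : Ideal (ι → R) := Ideal.pi (fun _ : ι => J)
  have hU : ∀ u ∈ U, (u : ι → R) - 1 ∈ Jp := by
    intro u hu
    simp only [U, Finset.mem_image] at hu
    obtain ⟨s, hs, rfl⟩ := hu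
    rw [Ideal.mem_pi]
    intro i
    have := (hds s hs).1 i
    simpa using this
  have hsolv : Group.IsSolvable (Subgroup.closure (U : Set (ι → R)ˣ)) :=
    ln_solvable Jp (LN_pi_2437 J hLNJ) U hU
  let φ : (ι → R)ˣ →* (Matrix ι ι R)ˣ :=
    (dgHom_2437 ι R).comp (MulEquiv.piUnits (M := fun _ : ι => R)).toMonoidHom
  let D : Subgroup (Matrix ι ι R)ˣ := (Subgroup.closure (U : Set (ι → R)ˣ)).map φ
  have hDsolv : Group.IsSolvable D := by
    have := hsolv
    exact Group.isSolvable_of_surjective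
      (f := φ.subgroupMap (Subgroup.closure (U : Set (ι → R)ˣ))) (φ.subgroupMap_surjective _)
  have hDn : ∀ d ∈ D, ∀ e ∈ El ι R, d * e * d⁻¹ ∈ El ι R := by
    rintro _ ⟨u, -, rfl⟩ e he
    exact dg_normal_2437 (MulEquiv.piUnits u) e he
  let P : Subgroup (Matrix ι ι R)ˣ := (El ι R).map (MulAut.conj g).toMonoidHom
  have hPle : P ≤ El ι R ⊔ D := by
    simp only [P]
    rw [← hX0, MonoidHom.map_closure, Subgroup.closure_le]
    rintro _ ⟨s, hs, rfl⟩
    obtain ⟨-, x, hx, hdec⟩ := hds s hs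
    have h5 : (MulAut.conj g).toMonoidHom s = x * dg (ds s) := by
      rw [← hdec]; rfl
    rw [SetLike.mem_coe, h5, hX0]
    refine mul_mem (Subgroup.mem_sup_left hx) (Subgroup.mem_sup_right ?_)
    refine ⟨(MulEquiv.piUnits (M := fun _ : ι => R)).symm (ds s), ?_, ?_⟩
    · refine Subgroup.subset_closure ?_
      simp only [U, Finset.coe_image]
      exact ⟨s, hs, rfl⟩
    · change dg ((MulEquiv.piUnits (M := fun _ : ι => R)) ((MulEquiv.piUnits (M := fun _ : ι => R)).symm (ds s))) = dg (ds s)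
      rw [MulEquiv.apply_symm_apply]
  have hPperf : P ≤ ⁅P, P⁆ := by
    simp only [P]
    rw [← Subgroup.map_commutator]
    exact Subgroup.map_mono (El_perfect h3)
  have hfin := perfect_le (El ι R) D P hDn hDsolv hPle hPperf
  intro e he
  exact hfin ⟨e, he, rfl⟩

end statements

end Pool.Agent.Helper58.EN
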