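import Pool.Agent.Helper58.EN.Defs

set_option autoImplicit false

namespace Pool.Agent.Helper58.EN

open Matrix

variable {ι : Type} [Fintype ι] [DecidableEq ι]


section statements
open Polynomial

theorem blocks {R : Type} [Ring R] (X : Finset R) (N : ℕ) : ∀ (M : ℕ) (l : List R),
    (∀ x ∈ l, x ∈ X) → l.length = N * M → ∃ L : List R, L.length = M ∧
      (∀ y ∈ L, ∃ l' : List R, (∀ x ∈ l', x ∈ X) ∧ l'.length = N ∧ l'.prod = y) ∧
        L.prod = l.prod := by
  intro M
  induction M with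
  | zero =>
    intro l hl hlen
    have : l = [] := by
      rw [← List.length_eq_zero_iff, hlen, Nat.mul_zero]
    subst this
    exact ⟨[], rfl, by simp, rfl⟩
  | succ M ih =>
    intro l hl hlen
    obtain ⟨L, hL1, hL2, hL3⟩ := ih (l.drop N) (fun x hx => hl x (List.mem_of_mem_drop hx))
      (by rw [List.length_drop, hlen, Nat.mul_succ]; omega)
    refine ⟨(l.take N).prod :: L, by simp [hL1], ?_, ?_⟩
    · intro y hy
      rcases List.mem_cons.mp hy with h | h
      · refine ⟨l.take N, fun x hx => hl x (List.mem_of_mem_take hx), ?_, h.symm⟩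
        rw [List.length_take, hlen, Nat.mul_succ]
        omega
      · exact hL2 y h
    · rw [List.prod_cons, hL3, ← List.prod_append, List.take_append_drop]

theorem LN_ext {R : Type} [Ring R] {I K : Set R} (hI : LN I)
    (hK : ∀ X : Finset R, (↑X ⊆ K) → ∃ N : ℕ, ∀ l : List R, (∀ x ∈ l, x ∈ X) →
      l.length = N → l.prod ∈ I) : LN K := by
  classical
  intro X hX
  obtain ⟨N, hN⟩ := hK X hX
  set Y : Finset R := (Fintype.piFinset fun _ : Fin N => X).image
    (fun f => (List.ofFn f).prod) with hY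
  have hYI : (↑Y : Set R) ⊆ I := by
    intro y hy
    rw [hY, Finset.coe_image] at hy
    obtain ⟨f, hf, rfl⟩ := hy
    rw [Finset.mem_coe, Fintype.mem_piFinset] at hf
    apply hN
    · intro x hx
      rw [List.mem_ofFn] at hx
      obtain ⟨i, rfl⟩ := hx
      exact hf i
    · simp
  obtain ⟨M, hM⟩ := hI Y hYI
  refine ⟨N * M, ?_⟩
  intro l hl hlen
  obtain ⟨L, hL1, hL2, hL3⟩ := blocks X N M l hl hlen
  rw [← hL3]
  apply hM L _ hL1
  intro y hy
  obtain ⟨l', h1, h2, h3⟩ := hL2 y hy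
  rw [hY, Finset.mem_image]
  refine ⟨fun i : Fin N => l'.get (i.cast h2.symm), ?_, ?_⟩
  · rw [Fintype.mem_piFinset]
    intro i
    exact h1 _ (List.get_mem _ _)
  · rw [← h3]
    congr 1
    subst h2
    simp

theorem prod_congr_ideal {R : Type} [Ring R] (I : Ideal R) (hI : I.IsTwoSided) (j : R → R) :
    ∀ l : List R, (∀ x ∈ l, x - j x ∈ I) → l.prod - (l.map j).prod ∈ I := by
  intro l
  induction l with
  | nil => intro _; simp
  | cons x l ih =>
    intro h
    rw [List.prod_cons, List.map_cons, List.prod_cons]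
    have h1 := ih (fun y hy => h y (List.mem_cons_of_mem _ hy))
    have h2 := h x List.mem_cons_self
    have e : x * l.prod - j x * (l.map j).prod = (x - j x) * l.prod +
        j x * (l.prod - (l.map j).prod) := by noncomm_ring
    rw [e]
    exact I.add_mem (hI.mul_mem_of_left _ h2) (I.mul_mem_left _ h1)

theorem LN_sup {R : Type} [Ring R] (I J : Ideal R) (hI : I.IsTwoSided)
    (hI' : LN (I : Set R)) (hJ' : LN (J : Set R)) : LN ((I ⊔ J : Ideal R) : Set R) := by
  classical
  apply LN_ext hI'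
  intro X hX
  have h1 : ∀ x : R, ∃ j : R, x ∈ X → (j ∈ J ∧ x - j ∈ I) := by
    intro x
    by_cases hx : x ∈ X
    · obtain ⟨i, hi, j, hj, hij⟩ := Submodule.mem_sup.mp (hX hx)
      exact ⟨j, fun _ => ⟨hj, by rw [← hij, add_sub_cancel_right]; exact hi⟩⟩
    · exact ⟨0, fun h => absurd h hx⟩
  choose j hj using h1
  obtain ⟨N, hN⟩ := hJ' (X.image j) (by
    intro y hy
    rw [Finset.coe_image] at hy
    obtain ⟨x, hx, rfl⟩ := hy
    exact (hj x hx).1)
  refine ⟨N, ?_⟩
  intro l hl hlen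
  have h2 := prod_congr_ideal I hI j l (fun x hx => (hj x (hl x hx)).2)
  have h3 : (l.map j).prod = 0 := by
    apply hN
    · intro y hy
      obtain ⟨x, hx, rfl⟩ := List.mem_map.mp hy
      exact Finset.mem_image_of_mem j (hl x hx)
    · rw [List.length_map, hlen]
  rw [h3, sub_zero] at h2
  exact h2

theorem twoSided_sup {R : Type} [Ring R] {I J : Ideal R} (hI : I.IsTwoSided)
    (hJ : J.IsTwoSided) : (I ⊔ J : Ideal R).IsTwoSided := by
  constructor
  intro x b hx
  obtain ⟨i, hi, j, hj, hij⟩ := Submodule.mem_sup.mp hx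
  rw [← hij, add_mul]
  exact Submodule.add_mem_sup (hI.mul_mem_of_left _ hi) (hJ.mul_mem_of_left _ hj)

theorem LN_bot {R : Type} [Ring R] : LN ((⊥ : Ideal R) : Set R) := by
  intro X hX
  refine ⟨1, ?_⟩
  intro l hl hlen
  obtain ⟨x, rfl⟩ := List.length_eq_one_iff.mp hlen
  have := hX (Finset.mem_coe.mpr (hl x List.mem_cons_self))
  have hx0 : x = 0 := this
  rw [hx0]; simp

/-- the Levitzki radical -/
def lev (R : Type) [Ring R] : Ideal R where
  carrier := {x | ∃ I : Ideal R, I.IsTwoSided ∧ LN (I : Set R) ∧ x ∈ I}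
  add_mem' := by
    rintro x y ⟨I, hI, hI', hx⟩ ⟨J, hJ, hJ', hy⟩
    exact ⟨I ⊔ J, twoSided_sup hI hJ, LN_sup I J hI hI' hJ', Submodule.add_mem_sup hx hy⟩
  zero_mem' := ⟨⊥, ⟨fun {a} b h => by
    have : a = 0 := h
    rw [this, zero_mul]; exact Submodule.zero_mem _⟩, LN_bot, Submodule.zero_mem _⟩
  smul_mem' := by
    rintro r x ⟨I, hI, hI', hx⟩
    exact ⟨I, hI, hI', I.mul_mem_left r hx⟩

theorem mem_lev {R : Type} [Ring R] {x : R} :
    x ∈ lev R ↔ ∃ I : Ideal R, I.IsTwoSided ∧ LN (I : Set R) ∧ x ∈ I := Iff.rfl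

theorem lev_twoSided {R : Type} [Ring R] : (lev R).IsTwoSided := by
  constructor
  rintro x b ⟨I, hI, hI', hx⟩
  exact ⟨I, hI, hI', hI.mul_mem_of_left _ hx⟩

theorem lev_finset {R : Type} [Ring R] (X : Finset R) (hX : (↑X : Set R) ⊆ lev R) :
    ∃ I : Ideal R, I.IsTwoSided ∧ LN (I : Set R) ∧ (↑X : Set R) ⊆ I := by
  classical
  induction X using Finset.induction_on with
  | empty =>
    obtain ⟨I, hI, hI', _⟩ := (lev R).zero_mem
    exact ⟨I, hI, hI', by simp⟩
  | insert x X _ ih =>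
    rw [Finset.coe_insert, Set.insert_subset_iff] at hX
    obtain ⟨I, hI, hI', hXI⟩ := ih hX.2
    obtain ⟨J, hJ, hJ', hxJ⟩ := hX.1
    refine ⟨I ⊔ J, twoSided_sup hI hJ, LN_sup I J hI hI' hJ', ?_⟩
    rw [Finset.coe_insert, Set.insert_subset_iff]
    exact ⟨(le_sup_right : J ≤ I ⊔ J) hxJ, hXI.trans (le_sup_left : I ≤ I ⊔ J)⟩

theorem lev_LN {R : Type} [Ring R] : LN (lev R : Set R) := by
  intro X hX
  obtain ⟨I, _, hI', hXI⟩ := lev_finset X hX
  exact hI' X hXI

theorem exists_levitzki (R : Type) [Ring R] :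
    ∃ (L : Ideal R) (_ : L.IsTwoSided), LN (L : Set R) ∧
      ∀ K : Ideal (R ⧸ L), K.IsTwoSided → LN (K : Set (R ⧸ L)) → K = ⊥ := by
  classical
  refine ⟨lev R, lev_twoSided, lev_LN, ?_⟩
  haveI : (lev R).IsTwoSided := lev_twoSided
  intro K hK hK'
  have h1 : LN ((K.comap (Ideal.Quotient.mk (lev R))) : Set R) := by
    apply LN_ext lev_LN
    intro X hX
    obtain ⟨N, hN⟩ := hK' (X.image (Ideal.Quotient.mk (lev R))) (by
      intro y hy
      rw [Finset.coe_image] at hy
      obtain ⟨x, hx, rfl⟩ := hy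
      exact hX hx)
    refine ⟨N, ?_⟩
    intro l hl hlen
    have h2 := hN (l.map (Ideal.Quotient.mk (lev R))) (by
      intro y hy
      obtain ⟨x, hx, rfl⟩ := List.mem_map.mp hy
      exact Finset.mem_image_of_mem _ (hl x hx)) (by rw [List.length_map, hlen])
    rw [← map_list_prod] at h2
    exact Ideal.Quotient.eq_zero_iff_mem.mp h2
  have h2 : (K.comap (Ideal.Quotient.mk (lev R))).IsTwoSided := by
    constructor
    intro a b ha
    rw [Ideal.mem_comap] at ha ⊢
    rw [map_mul]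
    exact hK.mul_mem_of_left _ ha
  rw [eq_bot_iff]
  intro y hy
  obtain ⟨x, rfl⟩ := Ideal.Quotient.mk_surjective y
  have h3 : x ∈ lev R := ⟨_, h2, h1, hy⟩
  rw [Ideal.Quotient.eq_zero_iff_mem.mpr h3]
  exact Submodule.zero_mem _

theorem semiprime_of_noLN {R : Type} [Ring R]
    (h : ∀ K : Ideal R, K.IsTwoSided → LN (K : Set R) → K = ⊥) (a : R)
    (ha : ∀ r, a * r * a = 0) : a = 0 := by
  set K : Ideal R := Ideal.span {x | ∃ s, x = a * s} with hK
  have h1 : ∀ y ∈ K, ∀ s, a * s * y = 0 := by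
    intro y hy
    refine Submodule.span_induction (p := fun y _ => ∀ s, a * s * y = 0) ?_ ?_ ?_ ?_ hy
    · rintro y ⟨t, rfl⟩ s
      rw [← mul_assoc, ha, zero_mul]
    · intro s; rw [mul_zero]
    · intro x y _ _ hx hy s
      rw [mul_add, hx, hy, add_zero]
    · intro r x _ hx s
      rw [smul_eq_mul, ← mul_assoc, mul_assoc a s r]
      exact hx _
  have h2 : ∀ x ∈ K, ∀ y ∈ K, x * y = 0 := by
    intro x hx
    refine Submodule.span_induction (p := fun x _ => ∀ y ∈ K, x * y = 0) ?_ ?_ ?_ ?_ hx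
    · rintro x ⟨s, rfl⟩ y hy
      exact h1 y hy s
    · intro y _; rw [zero_mul]
    · intro x x' _ _ hx hx' y hy
      rw [add_mul, hx y hy, hx' y hy, add_zero]
    · intro r x _ hx y hy
      rw [smul_eq_mul, mul_assoc, hx y hy, mul_zero]
  have h3 : K.IsTwoSided := by
    constructor
    intro x b hx
    refine Submodule.span_induction (p := fun x _ => x * b ∈ K) ?_ ?_ ?_ ?_ hx
    · rintro x ⟨s, rfl⟩
      exact Ideal.subset_span ⟨s * b, by rw [mul_assoc]⟩
    · rw [zero_mul]; exact K.zero_mem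
    · intro x x' _ _ hx hx'
      rw [add_mul]; exact K.add_mem hx hx'
    · intro r x _ hx
      rw [smul_eq_mul, mul_assoc]
      exact K.mul_mem_left _ hx
  have h4 : LN (K : Set R) := by
    intro X hX
    refine ⟨2, ?_⟩
    intro l hl hlen
    obtain ⟨x, y, rfl⟩ := List.length_eq_two.mp hlen
    simp only [List.prod_cons, List.prod_nil, mul_one]
    exact h2 x (hX (Finset.mem_coe.mpr (hl x (by simp)))) y
      (hX (Finset.mem_coe.mpr (hl y (by simp))))
  have h5 := h K h3 h4
  have h6 : a ∈ K := Ideal.subset_span ⟨1, by rw [mul_one]⟩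
  rw [h5] at h6
  exact h6

end statements

end Pool.Agent.Helper58.EN
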