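import Pool.Agent.Helper58.EN.Defs
import Pool.Agent.Helper58.EN.JM
import Pool.Agent.Helper58.EN.JP
import Pool.Agent.Helper58.EN.JQ

set_option autoImplicit false

namespace Pool.Agent.Helper58.EN

open Matrix

variable {ι : Type} [Fintype ι] [DecidableEq ι]


section statements
open Polynomial

theorem jR_NE_surj {A B : Type} [Ring A] [Ring B] (f : A →+* B) (hf : Function.Surjective f)
    (u : (Matrix ι ι A)ˣ) (hu : NE u) : NE (mapGL f u) := by
  intro e he
  rw [← El_map_surj f hf] at he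
  obtain ⟨e', he', rfl⟩ := he
  rw [← map_mul, ← map_inv, ← map_mul]
  exact mapGL_mem f (hu e' he')

theorem jR_FG_surj {A B : Type} [Ring A] [Ring B] (f : A →+* B) (hf : Function.Surjective f)
    (h : FG A) : FG B := by
  classical
  obtain ⟨X, hX⟩ := h
  refine ⟨X.image f, ?_⟩
  rw [Finset.coe_image, ← RingHom.map_closure, hX]
  ext y
  simp only [Subring.mem_map, Subring.mem_top, true_and, iff_true]
  exact hf y

theorem jR_span_two {A : Type} [Ring A] (d : A) (hd : ∀ x, d * x = x * d) :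
    (Ideal.span {d} : Ideal A).IsTwoSided := by
  constructor
  intro a b ha
  rw [Ideal.mem_span_singleton'] at ha ⊢
  obtain ⟨y, rfl⟩ := ha
  exact ⟨y * b, by rw [mul_assoc, mul_assoc, hd b]⟩

theorem jR_pow_comm {A : Type} [Ring A] (d : A) (hd : ∀ x, d * x = x * d) (m : ℕ) (x : A) :
    d ^ m * x = x * d ^ m := (Commute.pow_left (hd x : Commute d x) m)

/-- products of elements of the ideal generated by a central element -/
theorem jR_prod {A B : Type} [Ring A] [Ring B] (d : A) (hd : ∀ x, d * x = x * d) (f : A →+* B)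
    (l : List B) (hl : ∀ x ∈ l, ∃ y, x = f (y * d)) : ∃ y, l.prod = f (y * d ^ l.length) := by
  induction l with
  | nil => exact ⟨1, by simp⟩
  | cons x l ih =>
    obtain ⟨y, hy⟩ := ih (fun z hz => hl z (List.mem_cons_of_mem _ hz))
    obtain ⟨x', hx'⟩ := hl x (List.mem_cons_self)
    refine ⟨x' * y, ?_⟩
    rw [List.prod_cons, hy, hx', ← map_mul]
    congr 1
    have h1 : d * (y * d ^ l.length) = y * (d * d ^ l.length) := by
      rw [← mul_assoc, hd y, mul_assoc]
    rw [List.length_cons, pow_succ', mul_assoc x' d, h1, mul_assoc]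

/-- the lifting step for a central element -/
theorem jR_lift (h3 : 3 ≤ Fintype.card ι) {A : Type} [Ring A] (hfg : FG A) (d : A)
    (hd : ∀ x, d * x = x * d) (g : (Matrix ι ι A)ˣ) {B : Type} [Ring B] (f : A →+* B)
    (hf : Function.Surjective f) (hker : ∀ x, f x = 0 ↔ ∃ y, x = y * d)
    (hg : NE (mapGL f g)) (m : ℕ) (hm : 1 ≤ m) {C : Type} [Ring C] (k : A →+* C)
    (hk : Function.Surjective k) (hkker : ∀ x, k x = 0 ↔ ∃ y, x = y * d ^ m) :
    NE (mapGL k g) := by
  have hle : RingHom.ker k ≤ RingHom.ker f := by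
    intro x hx
    rw [RingHom.mem_ker] at hx ⊢
    obtain ⟨y, hy⟩ := (hkker x).1 hx
    rw [hker]
    obtain ⟨m', rfl⟩ : ∃ m', m = m' + 1 := ⟨m - 1, by omega⟩
    exact ⟨y * d ^ m', by rw [hy, pow_succ, mul_assoc]⟩
  let ρ : C →+* B := k.liftOfSurjective hk ⟨f, hle⟩
  have hρ : ∀ x, ρ (k x) = f x := fun x =>
    RingHom.liftOfRightInverse_comp_apply k _ (Function.rightInverse_surjInv hk) ⟨f, hle⟩ x
  have hρs : Function.Surjective ρ := by
    intro b
    obtain ⟨a, rfl⟩ := hf b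
    exact ⟨k a, hρ a⟩
  refine lift_ln h3 (jR_FG_surj k hk hfg) ρ hρs ?_ (mapGL k g) ?_
  · intro X hX
    refine ⟨m, ?_⟩
    intro l hl hlen
    have : ∀ x ∈ l, ∃ y, x = k (y * d) := by
      intro x hx
      have h1 : ρ x = 0 := hX (hl x hx)
      obtain ⟨a, rfl⟩ := hk x
      rw [hρ, hker] at h1
      obtain ⟨y, rfl⟩ := h1
      exact ⟨y, rfl⟩
    obtain ⟨y, hy⟩ := jR_prod d hd k l this
    rw [hy, hlen, hkker]
    exact ⟨y, rfl⟩
  · rw [← mapGL_comp]
    have : ρ.comp k = f := by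
      ext x
      exact hρ x
    rw [this]
    exact hg

/-- splitting off a congruence element -/
theorem jR_split (h3 : 3 ≤ Fintype.card ι) {A : Type} [Ring A] (hfg : FG A) (d : A)
    (hd : ∀ x, d * x = x * d) (g : (Matrix ι ι A)ˣ) {B : Type} [Ring B] (f : A →+* B)
    (hf : Function.Surjective f) (hker : ∀ x, f x = 0 ↔ ∃ y, x = y * d)
    (hg : NE (mapGL f g)) (m : ℕ) (e : (Matrix ι ι A)ˣ) (he : e ∈ El ι A) :
    ∃ x ∈ El ι A, ∃ h : (Matrix ι ι A)ˣ, g * e * g⁻¹ = x * h ∧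
      ∃ y : Matrix ι ι A, (h : Matrix ι ι A) = 1 + y.map (fun t => d ^ m * t) := by
  by_cases hm : m = 0
  · subst hm
    refine ⟨1, one_mem _, g * e * g⁻¹, by rw [one_mul], ((g * e * g⁻¹ : (Matrix ι ι A)ˣ) : Matrix ι ι A) - 1, ?_⟩
    ext i j
    simp
  · have hm1 : 1 ≤ m := by omega
    have hdm := jR_pow_comm d hd m
    have : (Ideal.span {d ^ m} : Ideal A).IsTwoSided := jR_span_two (d ^ m) hdm
    let k : A →+* A ⧸ (Ideal.span {d ^ m} : Ideal A) := Ideal.Quotient.mk _
    have hk : Function.Surjective k := Ideal.Quotient.mk_surjective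
    have hkker : ∀ x, k x = 0 ↔ ∃ y, x = y * d ^ m := by
      intro x
      rw [show k x = Ideal.Quotient.mk _ x from rfl, Ideal.Quotient.eq_zero_iff_mem,
        Ideal.mem_span_singleton']
      constructor
      · rintro ⟨a, ha⟩
        exact ⟨a, ha.symm⟩
      · rintro ⟨a, ha⟩
        exact ⟨a, ha.symm⟩
    have hNE : NE (mapGL k g) := jR_lift h3 hfg d hd g f hf hker hg m hm1 k hk hkker
    have h1 : mapGL k (g * e * g⁻¹) ∈ El ι (A ⧸ (Ideal.span {d ^ m} : Ideal A)) := by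
      rw [map_mul, map_mul, map_inv]
      exact hNE _ (mapGL_mem k he)
    rw [← El_map_surj k hk] at h1
    obtain ⟨x, hx, hxe⟩ := h1
    refine ⟨x, hx, x⁻¹ * (g * e * g⁻¹), by rw [mul_inv_cancel_left], ?_⟩
    have h2 : mapGL k (x⁻¹ * (g * e * g⁻¹)) = 1 := by
      rw [map_mul, map_inv, hxe, inv_mul_cancel]
    have h3' : ∀ i j, ∃ y, (((x⁻¹ * (g * e * g⁻¹) : (Matrix ι ι A)ˣ) : Matrix ι ι A) i j)
        = (1 : Matrix ι ι A) i j + d ^ m * y := by
      intro i j
      have h4 : ((mapGL k (x⁻¹ * (g * e * g⁻¹)) : (Matrix ι ι (A ⧸ (Ideal.span {d ^ m} : Ideal A)))ˣ)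
          : Matrix ι ι (A ⧸ (Ideal.span {d ^ m} : Ideal A))) = 1 := by
        rw [h2]; rfl
      rw [mapGL_val] at h4
      have h5 := congrFun (congrFun h4 i) j
      rw [Matrix.map_apply] at h5
      have h6 : k ((((x⁻¹ * (g * e * g⁻¹) : (Matrix ι ι A)ˣ) : Matrix ι ι A) i j)
          - (1 : Matrix ι ι A) i j) = 0 := by
        rw [map_sub, h5, sub_eq_zero]
        by_cases hij : i = j
        · subst hij
          simp
        · simp [Matrix.one_apply_ne hij]
      rw [hkker] at h6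
      obtain ⟨y, hy⟩ := h6
      refine ⟨y, ?_⟩
      rw [hdm, ← hy]
      abel
    choose y hy using h3'
    refine ⟨Matrix.of y, ?_⟩
    ext i j
    rw [hy i j]
    rfl

theorem central_step (h3 : 3 ≤ Fintype.card ι) {R Q : Type} [Ring R] [Ring Q] (hfg : FG R)
    (c : R) (hc : ∀ x, c * x = x * c) {q : ℕ} (a : Fin q → R)
    (hgood : ∀ r : R, ∃ z : Fin q → R, (∀ i, z i ∈ Subring.center R) ∧ c * r = ∑ i, z i * a i)
    (π : R →+* Q) (hπ : Function.Surjective π) (hker : ∀ x, π x = 0 ↔ ∃ y, x = c * y)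
    (g : (Matrix ι ι R)ˣ) (hg : NE (mapGL π g)) : NE g := by
  obtain ⟨L, hL2, hLN, hL⟩ := exists_levitzki R
  have := hL2
  let p : R →+* R ⧸ L := Ideal.Quotient.mk L
  have hp : Function.Surjective p := Ideal.Quotient.mk_surjective
  have hpker : ∀ x, p x = 0 ↔ x ∈ L := fun x => Ideal.Quotient.eq_zero_iff_mem
  refine lift_ln h3 hfg p hp ?_ g ?_
  · intro X hX
    exact hLN X (fun x hx => (hpker x).1 (hX hx))
  -- now work over R' = R/L
  have hfg' : FG (R ⧸ L) := jR_FG_surj p hp hfg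
  set d : R ⧸ L := p c with hd_def
  have hd : ∀ x, d * x = x * d := by
    intro x
    obtain ⟨r, rfl⟩ := hp x
    rw [hd_def, ← map_mul, hc, map_mul]
  have hdc : d ∈ Subring.center (R ⧸ L) := by
    rw [Subring.mem_center_iff]
    intro x
    exact (hd x).symm
  -- the quotient by d
  have hT : (Ideal.span {d} : Ideal (R ⧸ L)).IsTwoSided := jR_span_two d hd
  let f : (R ⧸ L) →+* (R ⧸ L) ⧸ (Ideal.span {d} : Ideal (R ⧸ L)) := Ideal.Quotient.mk _
  have hf : Function.Surjective f := Ideal.Quotient.mk_surjective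
  have hfker : ∀ x, f x = 0 ↔ ∃ y, x = y * d := by
    intro x
    rw [show f x = Ideal.Quotient.mk _ x from rfl, Ideal.Quotient.eq_zero_iff_mem,
      Ideal.mem_span_singleton']
    constructor
    · rintro ⟨b, hb⟩
      exact ⟨b, hb.symm⟩
    · rintro ⟨b, hb⟩
      exact ⟨b, hb.symm⟩
  have hle : RingHom.ker π ≤ RingHom.ker (f.comp p) := by
    intro x hx
    rw [RingHom.mem_ker] at hx ⊢
    obtain ⟨y, rfl⟩ := (hker x).1 hx
    rw [RingHom.comp_apply, map_mul, hfker]
    exact ⟨p y, hd _⟩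
  let ρ : Q →+* (R ⧸ L) ⧸ (Ideal.span {d} : Ideal (R ⧸ L)) := π.liftOfSurjective hπ ⟨f.comp p, hle⟩
  have hρ : ∀ x, ρ (π x) = f (p x) := fun x =>
    RingHom.liftOfRightInverse_comp_apply π _ (Function.rightInverse_surjInv hπ) ⟨f.comp p, hle⟩ x
  have hρs : Function.Surjective ρ := by
    intro b
    obtain ⟨b1, rfl⟩ := hf b
    obtain ⟨b2, rfl⟩ := hp b1
    exact ⟨π b2, hρ b2⟩
  have hNE1 : NE (mapGL f (mapGL p g)) := by
    have h1 := jR_NE_surj ρ hρs _ hg
    rw [← mapGL_comp] at h1 ⊢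
    have h2 : ρ.comp π = f.comp p := by
      ext x
      exact hρ x
    rwa [h2] at h1
  refine central_semiprime h3 (Z := Subring.center (R ⧸ L)) (R := R ⧸ L) ⟨d, hdc⟩
    (fun i => p (a i)) ?_ ?_ (mapGL p g) ?_
  · intro r'
    obtain ⟨r, rfl⟩ := hp r'
    obtain ⟨z, hz, hzr⟩ := hgood r
    have hz' : ∀ i, p (z i) ∈ Subring.center (R ⧸ L) := by
      intro i
      rw [Subring.mem_center_iff]
      intro x
      obtain ⟨s, rfl⟩ := hp x
      rw [← map_mul, ← map_mul, (Subring.mem_center_iff.1 (hz i)) s]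
    refine ⟨fun i => ⟨p (z i), hz' i⟩, ?_⟩
    have h1 : (⟨d, hdc⟩ : Subring.center (R ⧸ L)) • p r = d * p r := rfl
    rw [h1, hd_def, ← map_mul, hzr, map_sum]
    refine Finset.sum_congr rfl (fun i _ => ?_)
    rw [map_mul]
    rfl
  · intro x hx
    have h1 : d * (d * x) = 0 := hx
    show d * x = 0
    refine semiprime_of_noLN hL (d * x) ?_
    intro r
    calc d * x * r * (d * x) = d * (d * x) * (r * x) := by
          rw [mul_assoc (d * x) r, ← mul_assoc r d x, ← hd r, mul_assoc d r x,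
            ← mul_assoc (d * x) d, ← hd (d * x)]
      _ = 0 := by rw [h1, zero_mul]
  · intro m e he
    obtain ⟨x, hx, h, hxh, y, hy⟩ := jR_split h3 hfg' d hd (mapGL p g) f hf hfker hNE1 m e he
    refine ⟨x, hx, h, hxh, y, ?_⟩
    rw [hy]
    congr 1

end statements

end Pool.Agent.Helper58.EN
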