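import Pool.Agent.Helper58.EN.Defs

set_option autoImplicit false

namespace Pool.Agent.Helper58.EN

open Matrix

variable {ι : Type} [Fintype ι] [DecidableEq ι]


section statements
open Polynomial

theorem j2440_zero {R : Type} [Ring R] : ∀ (n : ℕ) (f : Fin (n + 1) → R) (j : Fin n),
    f j.castSucc * f j.succ = 0 → (List.ofFn f).prod = 0 := by
  intro n
  induction n with
  | zero => intro f j; exact j.elim0
  | succ n ih =>
    intro f j h
    rw [List.ofFn_succ, List.prod_cons]
    rcases Fin.eq_zero_or_eq_succ j with rfl | ⟨j', rfl⟩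
    · rw [List.ofFn_succ, List.prod_cons, ← mul_assoc]
      have : f 0 * f (Fin.succ 0) = 0 := h
      rw [this, zero_mul]
    · rw [ih (fun i => f i.succ) j' (by simpa using h), mul_zero]

theorem j2440_step {R : Type} [Ring R] (m : ℕ) (c : Equiv.Perm (Fin (m + 1)) → ℤ)
    (a b a' : R) (ha' : a' = a * b * a) (hz : a * b * a * b * a = 0)
    (hsp : ∀ a : R, (∀ r, a * r * a = 0) → a = 0)
    (H : ∀ r : Fin (m + 1) → R,
      a * ∑ σ : Equiv.Perm (Fin (m + 1)), ((c σ : ℤ) : R) *
        (List.ofFn (fun i => r (σ i) * a)).prod = 0) (r' : Fin m → R) :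
    a' * ∑ σ : Equiv.Perm (Fin m), ((c (Equiv.Perm.decomposeFin.symm (0, σ)) : ℤ) : R) *
        (List.ofFn (fun i => r' (σ i) * a')).prod = 0 := by
  obtain ⟨Z, hZ⟩ : ∃ Z, Z = ∑ σ : Equiv.Perm (Fin m),
    ((c (Equiv.Perm.decomposeFin.symm (0, σ)) : ℤ) : R) *
        (List.ofFn (fun i => r' (σ i) * a')).prod := ⟨_, rfl⟩
  rw [← hZ]
  have key : ∀ s : R, a' * s * (a * Z) = 0 := by
    intro s
    have h := H (Fin.cons (b * a * s) (fun i => r' i * a * b))
    rw [← Equiv.sum_comp Equiv.Perm.decomposeFin.symm, Fintype.sum_prod_type,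
      Fintype.sum_eq_single (0 : Fin (m + 1))] at h
    · have e1 : ∀ σ : Equiv.Perm (Fin m),
          (List.ofFn (fun i => (Fin.cons (b * a * s) (fun i => r' i * a * b) : Fin (m + 1) → R)
            ((Equiv.Perm.decomposeFin.symm (0, σ)) i) * a)).prod =
          (b * a * s * a) * (List.ofFn (fun i => r' (σ i) * a')).prod := by
        intro σ
        rw [List.ofFn_succ, List.prod_cons, Equiv.Perm.decomposeFin_symm_apply_zero, Fin.cons_zero]
        have e3 : (fun i : Fin m => (Fin.cons (b * a * s) (fun i => r' i * a * b) : Fin (m + 1) → R)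
            ((Equiv.Perm.decomposeFin.symm (0, σ)) i.succ) * a) = fun i => r' (σ i) * a' := by
          funext i
          rw [Equiv.Perm.decomposeFin_symm_apply_succ, Equiv.swap_self, Equiv.refl_apply,
            Fin.cons_succ, ha']
          simp only [mul_assoc]
        rw [e3]
      simp_rw [e1] at h
      have e2 : ∑ σ : Equiv.Perm (Fin m), ((c (Equiv.Perm.decomposeFin.symm (0, σ)) : ℤ) : R) *
          ((b * a * s * a) * (List.ofFn (fun i => r' (σ i) * a')).prod) = (b * a * s * a) * Z := by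
        rw [hZ, Finset.mul_sum]
        apply Finset.sum_congr rfl
        intro σ _
        rw [← mul_assoc, (Int.cast_commute (c (Equiv.Perm.decomposeFin.symm (0, σ)))
          (b * a * s * a)).eq, mul_assoc]
      rw [e2] at h
      rw [ha', ← h]
      simp only [mul_assoc]
    · intro p hp
      apply Finset.sum_eq_zero
      intro σ _
      rw [show (List.ofFn (fun i => (Fin.cons (b * a * s) (fun i => r' i * a * b) :
        Fin (m + 1) → R) ((Equiv.Perm.decomposeFin.symm (p, σ)) i) * a)).prod = 0 from ?_, mul_zero]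
      obtain ⟨τ, hτ⟩ : ∃ τ : Equiv.Perm (Fin (m + 1)), τ = Equiv.Perm.decomposeFin.symm (p, σ) :=
        ⟨_, rfl⟩
      have hτ0 : τ 0 ≠ 0 := by
        rw [hτ, Equiv.Perm.decomposeFin_symm_apply_zero]; exact hp
      rw [← hτ]
      rcases Fin.eq_zero_or_eq_succ (τ.symm 0) with h0 | ⟨j, hj⟩
      · exfalso
        apply hτ0
        rw [← h0, Equiv.apply_symm_apply, h0]
      · have hjs : τ j.succ = 0 := by rw [← hj, Equiv.apply_symm_apply]
        have hjc : τ j.castSucc ≠ 0 := by
          intro hcon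
          rw [← hjs] at hcon
          have := τ.injective hcon
          exact absurd this (Fin.castSucc_lt_succ (i := j)).ne
        obtain ⟨t, ht⟩ := Fin.exists_succ_eq.2 hjc
        apply j2440_zero m _ j
        show (Fin.cons (b * a * s) (fun i => r' i * a * b) : Fin (m + 1) → R) (τ j.castSucc) * a *
          ((Fin.cons (b * a * s) (fun i => r' i * a * b) : Fin (m + 1) → R) (τ j.succ) * a) = 0
        rw [hjs, ← ht, Fin.cons_succ, Fin.cons_zero]
        calc r' t * a * b * a * (b * a * s * a) = r' t * (a * b * a * b * a) * s * a := by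
              simp only [mul_assoc]
          _ = 0 := by rw [hz]; simp
  apply hsp
  intro s
  have := key (Z * s * a * b)
  rw [← this]
  conv_lhs => rw [ha']
  rw [ha']
  simp only [mul_assoc]

theorem no_nil {R : Type} [Ring R] (d : ℕ) (c : Equiv.Perm (Fin d) → ℤ) (hc : c 1 = 1)
    (hPI : PI d c R) (hsp : ∀ a : R, (∀ r, a * r * a = 0) → a = 0) (N : Set R)
    (hN : ∀ a ∈ N, ∀ r, a * r ∈ N) (hnil : ∀ a ∈ N, IsNilpotent a) : ∀ a ∈ N, a = 0 := by
  intro a0 ha0
  by_contra hne
  have Q : ∀ j m : ℕ, m + j = d → ∃ a ∈ N, a ≠ 0 ∧ ∃ c : Equiv.Perm (Fin m) → ℤ, c 1 = 1 ∧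
      ∀ r : Fin m → R, a * ∑ σ : Equiv.Perm (Fin m), ((c σ : ℤ) : R) *
        (List.ofFn (fun i => r (σ i) * a)).prod = 0 := by
    intro j
    induction j with
    | zero =>
      intro m hm
      have hm' : m = d := by omega
      subst hm'
      refine ⟨a0, ha0, hne, c, hc, ?_⟩
      intro r
      rw [hPI (fun i => r i * a0), mul_zero]
    | succ j ih =>
      intro m hm
      obtain ⟨a, haN, ha, c1, hc1, H⟩ := ih (m + 1) (by omega)
      obtain ⟨r0, hr0⟩ : ∃ r, a * r * a ≠ 0 := by
        by_contra hcon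
        push Not at hcon
        exact ha (hsp a hcon)
      obtain ⟨n, hn⟩ := hnil _ (hN a haN r0)
      have hex : ∃ n, (a * r0) ^ n * a = 0 := ⟨n, by rw [hn, zero_mul]⟩
      classical
      obtain ⟨k, hk⟩ : ∃ k, k = Nat.find hex := ⟨_, rfl⟩
      have hk1 : (a * r0) ^ k * a = 0 := by rw [hk]; exact Nat.find_spec hex
      have hk0 : k ≠ 0 := by
        rintro rfl
        rw [pow_zero, one_mul] at hk1
        exact ha hk1
      have hk2 : k ≠ 1 := by
        intro h1
        rw [h1, pow_one] at hk1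
        exact hr0 hk1
      obtain ⟨k', rfl⟩ : ∃ k', k = k' + 2 := ⟨k - 2, by omega⟩
      have hmin : (a * r0) ^ (k' + 1) * a ≠ 0 := by
        apply Nat.find_min hex
        rw [← hk]; omega
      have hab : a * (r0 * (a * r0) ^ k') = (a * r0) ^ (k' + 1) := by
        rw [pow_succ', mul_assoc]
      refine ⟨a * (r0 * (a * r0) ^ k') * a, ?_, ?_,
        fun σ => c1 (Equiv.Perm.decomposeFin.symm (0, σ)), ?_, ?_⟩
      · rw [mul_assoc]
        exact hN a haN _
      · rw [hab]; exact hmin
      · have hone : Equiv.Perm.decomposeFin.symm ((0 : Fin (m + 1)), (1 : Equiv.Perm (Fin m))) = 1 := by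
          apply Equiv.ext
          intro i
          rcases Fin.eq_zero_or_eq_succ i with rfl | ⟨i', rfl⟩
          · rw [Equiv.Perm.decomposeFin_symm_apply_zero]; rfl
          · rw [Equiv.Perm.decomposeFin_symm_apply_succ, Equiv.swap_self]; rfl
        show c1 (Equiv.Perm.decomposeFin.symm (0, 1)) = 1
        rw [hone, hc1]
      · apply j2440_step m c1 a (r0 * (a * r0) ^ k') _ rfl ?_ hsp H
        rw [hab, mul_assoc ((a * r0) ^ (k' + 1) * a), mul_assoc ((a * r0) ^ (k' + 1)),
          ← mul_assoc a, hab]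
        rw [← mul_assoc]
        rw [← pow_add, show k' + 1 + (k' + 1) = k' + (k' + 2) by ring, pow_add, mul_assoc, hk1,
          mul_zero]
  obtain ⟨a, _, ha, c1, hc1, H⟩ := Q d 0 (by omega)
  have h := H (fun i => i.elim0)
  rw [Fintype.sum_eq_single (1 : Equiv.Perm (Fin 0))] at h
  · rw [hc1] at h
    simp at h
    exact ha h
  · intro σ hσ
    exact absurd (Subsingleton.elim σ 1) hσ

end statements

end Pool.Agent.Helper58.EN
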