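import Pool.Agent.Helper58.EN.Defs

set_option autoImplicit false

namespace Pool.Agent.Helper58.EN

open Matrix

variable {ι : Type} [Fintype ι] [DecidableEq ι]


section statements
open Polynomial

theorem poly_jac {R : Type} [Ring R] (a : R) (ha : (C a : R[X]) ∈ Ring.jacobson R[X]) :
    IsNilpotent a := by
  have h1 : -(X * C a : R[X]) ∈ Ring.jacobson R[X] :=
    (Ring.jacobson R[X]).neg_mem ((Ring.jacobson R[X]).mul_mem_left X ha)
  have h2 : Ideal.span {(1 + -(X * C a) : R[X])} = ⊤ := by
    by_contra hne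
    obtain ⟨m, hm, hle⟩ := IsCoatomic.eq_top_or_exists_le_coatom
      (Ideal.span {(1 + -(X * C a) : R[X])}) |>.resolve_left hne
    have h3 : -(X * C a : R[X]) ∈ m := by
      have h4 : Ring.jacobson R[X] ≤ m := sInf_le hm
      exact h4 h1
    have h5 : (1 + -(X * C a) : R[X]) ∈ m := hle (Ideal.subset_span rfl)
    have h6 : (1 : R[X]) ∈ m := by
      have := m.sub_mem h5 h3
      rwa [add_sub_cancel_right] at this
    exact hm.1 ((Ideal.eq_top_iff_one m).2 h6)
  obtain ⟨p, hp⟩ := Ideal.mem_span_singleton'.1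
    (show (1 : R[X]) ∈ Ideal.span {(1 + -(X * C a) : R[X])} by rw [h2]; trivial)
  have hX : (X * C a : R[X]) = C a * X := X_mul_C a
  rw [hX, mul_add, mul_one, mul_neg, ← mul_assoc] at hp
  have hc : ∀ k, p.coeff k = a ^ k := by
    intro k
    induction k with
    | zero =>
      have h3 := congrArg (fun q => q.coeff 0) hp
      simpa using h3
    | succ k ih =>
      have h3 := congrArg (fun q => q.coeff (k + 1)) hp
      simp only [coeff_add, coeff_neg, coeff_mul_X, coeff_mul_C, ih] at h3
      rw [coeff_one, if_neg (Nat.succ_ne_zero k)] at h3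
      rw [pow_succ]
      exact sub_eq_zero.1 (by rw [sub_eq_add_neg]; exact h3)
  refine ⟨p.natDegree + 1, ?_⟩
  rw [← hc]
  exact coeff_eq_zero_of_natDegree_lt (Nat.lt_succ_self _)

end statements

end Pool.Agent.Helper58.EN
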