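import Pool.Agent.Helper58.EN.Defs

set_option autoImplicit false

namespace Pool.Agent.Helper58.EN

open Matrix

variable {ι : Type} [Fintype ι] [DecidableEq ι]


section statements
open Polynomial

/-- products of shift like operators -/
theorem kap_shift {K V : Type} [Field K] [AddCommGroup V] [Module K V] (D : ℕ) (v : ℕ → V) :
    ∀ (n m : ℕ) (b : Fin n → Module.End K V) (τ : Fin n → ℕ), m + n ≤ D →
    (∀ i, ∀ l ≤ D, b i (v l) = if l = τ i + 1 then v (τ i) else 0) →
    (List.ofFn b).prod (v (m + n)) = if ∀ i, τ i = m + (i : ℕ) then v m else 0 := by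
  intro n
  induction n with
  | zero =>
    intro m b τ _ _
    simp
  | succ n ih =>
    intro m b τ hD hb
    rw [List.ofFn_succ, List.prod_cons, Module.End.mul_apply]
    have h1 := ih (m + 1) (fun i => b i.succ) (fun i => τ i.succ) (by omega)
      (fun i l hl => hb i.succ l hl)
    have h2 : m + (n + 1) = m + 1 + n := by ring
    rw [h2, h1]
    by_cases hc : ∀ i : Fin n, τ i.succ = m + 1 + (i : ℕ)
    · rw [if_pos hc, hb 0 (m + 1) (by omega)]
      by_cases h0 : τ 0 = m
      · rw [if_pos (by omega), if_pos, h0]
        intro i
        refine Fin.cases ?_ (fun i => ?_) i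
        · simp [h0]
        · rw [hc i]; simp; ring
      · rw [if_neg (by omega), if_neg]
        intro h
        have := h 0
        simp at this
        exact h0 this
    · rw [if_neg hc, map_zero, if_neg]
      intro h
      apply hc
      intro i
      have := h i.succ
      rw [this]; simp; ring

/-- a multilinear identity passes to the span -/
theorem kap_span {K E : Type} [Field K] [Ring E] [Algebra K E] (d : ℕ)
    (P : MultilinearMap K (fun _ : Fin d => E) E) (s : Set E)
    (h : ∀ x : Fin d → E, (∀ i, x i ∈ s) → P x = 0) :
    ∀ x : Fin d → E, (∀ i, x i ∈ Submodule.span K s) → P x = 0 := by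
  have key : ∀ t : Finset (Fin d), ∀ x : Fin d → E, (∀ i ∈ t, x i ∈ Submodule.span K s) →
      (∀ i ∉ t, x i ∈ s) → P x = 0 := by
    intro t
    induction t using Finset.induction_on with
    | empty => intro x _ hx; exact h x fun i => hx i (by simp)
    | insert a t ha ih =>
      intro x hx1 hx2
      have key2 : ∀ y ∈ Submodule.span K s, P (Function.update x a y) = 0 := by
        intro y hy
        induction hy using Submodule.span_induction with
        | mem y hy =>
          apply ih
          · intro i hi
            have : i ≠ a := by rintro rfl; exact ha hi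
            rw [Function.update_of_ne this]
            exact hx1 i (Finset.mem_insert_of_mem hi)
          · intro i hi
            by_cases hia : i = a
            · subst hia; rw [Function.update_self]; exact hy
            · rw [Function.update_of_ne hia]
              exact hx2 i (by simp [hia, hi])
        | zero => exact P.map_update_zero x a
        | add y z _ _ hy hz => rw [P.map_update_add, hy, hz, add_zero]
        | smul c y _ hy => rw [P.map_update_smul, hy, smul_zero]
      have := key2 (x a) (hx1 a (Finset.mem_insert_self _ _))
      rwa [Function.update_eq_self] at this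
  intro x hx
  exact key Finset.univ x (fun i _ => hx i) (fun i hi => absurd (Finset.mem_univ i) hi)

theorem kap_core {R : Type} [Ring R] (K : Type) [Field K] (V : Type) [AddCommGroup V]
    [Module K V] [Nontrivial V] (g : R →+* Module.End K V)
    (hirr : ∀ W : Submodule K V, (∀ r, ∀ w ∈ W, g r w ∈ W) → W = ⊥ ∨ W = ⊤)
    (hcent : ∀ E : Module.End K V, (∀ r, ∀ v, E (g r v) = g r (E v)) → ∃ k : K, ∀ v, E v = k • v)
    (d : ℕ) (c : Equiv.Perm (Fin d) → ℤ) (hc : c 1 = 1) (hPI : PI d c R) :
    ∃ (j : ℕ) (φ : R →+* Matrix (Fin j) (Fin j) K),
      Submodule.span K (Set.range φ) = ⊤ ∧ ∀ r, φ r = 0 → ∀ v : V, g r v = 0 := by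
  classical
  set A : Subalgebra K (Module.End K V) := Algebra.adjoin K (Set.range g) with hA
  have hAs : Subalgebra.toSubmodule A = Submodule.span K (Set.range g) := by
    rw [hA, Algebra.adjoin_eq_span]
    congr 1
    apply le_antisymm
    · have : Submonoid.closure (Set.range g) ≤ MonoidHom.mrange (g : R →* Module.End K V) := by
        rw [Submonoid.closure_le]
        rintro _ ⟨r, rfl⟩
        exact ⟨r, rfl⟩
      intro x hx
      obtain ⟨r, hr⟩ := this hx
      exact ⟨r, hr⟩
    · exact Submonoid.subset_closure
  have hgA : ∀ r, g r ∈ A := fun r => Algebra.subset_adjoin ⟨r, rfl⟩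
  have hsimp : IsSimpleModule A V := by
    have hnt : Nontrivial (Submodule A V) := inferInstance
    refine { toIsSimpleOrder := { toNontrivial := hnt, eq_bot_or_eq_top := ?_ } }
    intro W
    let W' : Submodule K V :=
      { carrier := W
        add_mem' := fun ha hb => W.add_mem ha hb
        zero_mem' := W.zero_mem
        smul_mem' := fun k w hw => by
          have := W.smul_mem (algebraMap K A k) hw
          simpa [Subalgebra.smul_def, Module.algebraMap_end_apply] using this }
    rcases hirr W' (fun r w hw => W.smul_mem (⟨g r, hgA r⟩ : A) hw) with h | h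
    · left
      ext w
      have : w ∈ W' ↔ w ∈ (⊥ : Submodule K V) := by rw [h]
      simpa [W'] using this
    · right
      ext w
      have : w ∈ W' ↔ w ∈ (⊤ : Submodule K V) := by rw [h]
      simpa [W'] using this
  have hEnd : ∀ E : Module.End A V, ∃ k : K, ∀ v, E v = k • v := by
    intro E
    have hK : ∀ (k : K) (v : V), E (k • v) = k • E v := by
      intro k v
      have := E.map_smul (algebraMap K A k) v
      simpa [Subalgebra.smul_def, Module.algebraMap_end_apply] using this
    let E' : Module.End K V :=
      { toFun := E
        map_add' := E.map_add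
        map_smul' := hK }
    exact hcent E' (fun r v => E.map_smul (⟨g r, hgA r⟩ : A) v)
  have hdens : ∀ (F : Module.End K V) (s : Finset V), ∃ a ∈ A, ∀ m ∈ s, a m = F m := by
    intro F s
    let F' : Module.End (Module.End A V) V :=
      { toFun := F
        map_add' := F.map_add
        map_smul' := fun E v => by
          obtain ⟨k, hk⟩ := hEnd E
          simp only [Module.End.smul_def, RingHom.id_apply]
          rw [hk, hk, F.map_smul] }
    obtain ⟨a, ha⟩ := jacobson_density (R := A) F' s
    exact ⟨a.1, a.2, fun m hm => (ha m hm).symm⟩
  -- the identity on A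
  let P : MultilinearMap K (fun _ : Fin d => Module.End K V) (Module.End K V) :=
    ∑ σ : Equiv.Perm (Fin d),
      (c σ : K) • (MultilinearMap.mkPiAlgebraFin K d (Module.End K V)).domDomCongr σ
  have hP : ∀ x : Fin d → Module.End K V, P x =
      ∑ σ : Equiv.Perm (Fin d), (c σ : K) • (List.ofFn (fun i => x (σ i))).prod := by
    intro x
    simp only [P, MultilinearMap.sum_apply, MultilinearMap.smul_apply,
      MultilinearMap.domDomCongr_apply, MultilinearMap.mkPiAlgebraFin_apply]
  have hP0 : ∀ x : Fin d → Module.End K V, (∀ i, x i ∈ Set.range g) → P x = 0 := by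
    intro x hx
    choose r hr using hx
    have h1 := congrArg g (hPI r)
    rw [map_zero, map_sum] at h1
    rw [hP, ← h1]
    refine Finset.sum_congr rfl fun σ _ => ?_
    rw [map_mul, map_intCast, map_list_prod, List.map_ofFn]
    have h2 : (g ∘ fun i => r (σ i)) = fun i => x (σ i) := by
      funext i; exact hr (σ i)
    rw [h2, Algebra.smul_def]
    congr 1
    simp
  have hPA : ∀ x : Fin d → Module.End K V, (∀ i, x i ∈ A) → P x = 0 := by
    intro x hx
    refine kap_span d P (Set.range g) hP0 x fun i => ?_
    rw [← hAs]; exact hx i
  -- bound on the dimension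
  have hdim : ¬ ∃ v : Fin (d + 1) → V, LinearIndependent K v := by
    rintro ⟨v, hv⟩
    have hF : ∀ i : Fin d, ∃ F : Module.End K V, ∀ l, F (v l) =
        if l = i.succ then v i.castSucc else 0 := by
      intro i
      let b := Module.Basis.span hv
      let F0 : Submodule.span K (Set.range v) →ₗ[K] V :=
        b.constr K (fun l => if l = i.succ then v i.castSucc else 0)
      obtain ⟨F, hF⟩ := LinearMap.exists_extend F0
      refine ⟨F, fun l => ?_⟩
      have h1 : v l = (Submodule.span K (Set.range v)).subtype (b l) := by
        simp [b, Module.Basis.span_apply]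
      rw [h1, ← LinearMap.comp_apply, hF]
      simp [F0, Module.Basis.constr_basis]
    choose F hF using hF
    choose a haA ha using fun i => hdens (F i) (Finset.univ.image v)
    have ha' : ∀ i l, a i (v l) = if l = i.succ then v i.castSucc else 0 := by
      intro i l
      rw [ha i (v l) (Finset.mem_image_of_mem v (Finset.mem_univ l)), hF]
    let v' : ℕ → V := fun l => if h : l < d + 1 then v ⟨l, h⟩ else 0
    have hv' : ∀ l (h : l < d + 1), v' l = v ⟨l, h⟩ := fun l h => dif_pos h
    have hkey : ∀ σ : Equiv.Perm (Fin d), (List.ofFn (fun i => a (σ i))).prod (v' (0 + d)) =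
        if ∀ i, ((σ i : Fin d) : ℕ) = 0 + (i : ℕ) then v' 0 else 0 := by
      intro σ
      refine kap_shift d v' d 0 (fun i => a (σ i)) (fun i => ((σ i : Fin d) : ℕ)) (by omega) ?_
      intro i l hl
      rw [hv' l (by omega), ha', hv' (σ i) (by have := (σ i).2; omega)]
      simp only [Fin.ext_iff, Fin.val_succ]
      rfl
    have h0 := hPA a haA
    rw [hP] at h0
    have h1 := congrArg (fun F : Module.End K V => F (v' (0 + d))) h0
    simp only [LinearMap.sum_apply, LinearMap.smul_apply, LinearMap.zero_apply] at h1
    rw [Finset.sum_eq_single (1 : Equiv.Perm (Fin d))] at h1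
    · rw [hkey, if_pos (by intro i; simp), hc] at h1
      simp only [Int.cast_one, one_smul] at h1
      rw [hv' 0 (by omega)] at h1
      exact hv.ne_zero _ h1
    · intro σ _ hσ
      rw [hkey, if_neg, smul_zero]
      intro h
      apply hσ
      ext i
      have := h i
      simpa using this
    · intro h; exact absurd (Finset.mem_univ _) h
  have hrank : Module.rank K V < ((d + 1 : ℕ) : Cardinal) := by
    by_contra hcon
    push Not at hcon
    exact hdim (by
      obtain ⟨f, hf⟩ := exists_linearIndependent_of_le_rank hcon
      exact ⟨f, hf⟩)
  have hfin : Module.Finite K V := by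
    rw [← Module.rank_lt_aleph0_iff]
    exact hrank.trans (Cardinal.natCast_lt_aleph0)
  let b := Module.finBasis K V
  have htop : Submodule.span K (Set.range g) = ⊤ := by
    rw [← hAs, eq_top_iff]
    intro F _
    obtain ⟨a, haA, ha⟩ := hdens F (Finset.univ.image b)
    have : a = F := b.ext fun i => ha (b i) (Finset.mem_image_of_mem b (Finset.mem_univ i))
    rw [← this]; exact haA
  let e := LinearMap.toMatrixAlgEquiv b
  refine ⟨_, (e.toAlgHom.toRingHom).comp g, ?_, ?_⟩
  · have h1 : Set.range ((e.toAlgHom.toRingHom).comp g) =
        e.toLinearMap '' Set.range g := by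
      rw [← Set.range_comp]; rfl
    rw [h1, ← Submodule.map_span, htop, Submodule.map_top, LinearMap.range_eq_top]
    exact e.surjective
  · intro r hr v
    have h1 : e (g r) = 0 := hr
    have h2 : g r = 0 := by
      rw [← map_zero e] at h1
      exact e.injective h1
    rw [h2]; simp

theorem kaplansky {R S : Type} [Ring R] [Ring S] (f : R →+* S) (t : S)
    (ht : ∀ s, t * s = s * t) (hgen : Subring.closure (Set.range f ∪ {t}) = ⊤)
    (V : Type) [AddCommGroup V] [Module S V] [IsSimpleModule S V]
    (d : ℕ) (c : Equiv.Perm (Fin d) → ℤ) (hc : c 1 = 1) (hPI : PI d c R) :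
    ∃ (K : Type) (_ : Field K) (j : ℕ) (φ : R →+* Matrix (Fin j) (Fin j) K),
      Submodule.span K (Set.range φ) = ⊤ ∧ ∀ r, φ r = 0 → ∀ v : V, f r • v = 0 := by
  classical
  have hnV : Nontrivial V := IsSimpleModule.nontrivial S V
  -- a maximal commutative subring of the endomorphism ring
  let C : Set (Subring (Module.End S V)) := {K | ∀ x ∈ K, ∀ y ∈ K, x * y = y * x}
  obtain ⟨K, hK⟩ : ∃ K, Maximal (· ∈ C) K := by
    refine zorn_le₀ C ?_
    intro ch hch hchain
    rcases ch.eq_empty_or_nonempty with rfl | hne
    · refine ⟨⊥, ?_, by simp⟩
      intro x hx y hy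
      rw [Subring.mem_bot] at hx hy
      obtain ⟨n, rfl⟩ := hx
      exact Int.cast_commute n y
    · refine ⟨sSup ch, ?_, fun z hz => le_sSup hz⟩
      intro x hx y hy
      rw [Subring.mem_sSup_of_directedOn hne hchain.directedOn] at hx hy
      obtain ⟨A, hA, hxA⟩ := hx
      obtain ⟨B, hB, hyB⟩ := hy
      rcases hchain.total hA hB with h | h
      · exact hch hB x (h hxA) y hyB
      · exact hch hA x hxA y (h hyB)
  have hKc : ∀ x ∈ K, ∀ y ∈ K, x * y = y * x := hK.prop
  have hmax : ∀ x : Module.End S V, (∀ y ∈ K, x * y = y * x) → x ∈ K := by
    intro x hx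
    have h1 : Subring.closure ((K : Set (Module.End S V)) ∪ {x}) ∈ C := by
      have hcomm : ∀ a ∈ (K : Set (Module.End S V)) ∪ {x},
          ∀ b ∈ (K : Set (Module.End S V)) ∪ {x}, a * b = b * a := by
        rintro a (ha | ha) b (hb | hb)
        · exact hKc a ha b hb
        · rw [Set.mem_singleton_iff.1 hb]; exact (hx a ha).symm
        · rw [Set.mem_singleton_iff.1 ha]; exact hx b hb
        · rw [Set.mem_singleton_iff.1 ha, Set.mem_singleton_iff.1 hb]
      intro a ha b hb
      letI := Subring.closureCommRingOfComm hcomm
      have := mul_comm (⟨a, ha⟩ : Subring.closure ((K : Set (Module.End S V)) ∪ {x})) ⟨b, hb⟩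
      exact congrArg Subtype.val this
    have h2 : K ≤ Subring.closure ((K : Set (Module.End S V)) ∪ {x}) := fun y hy =>
      Subring.subset_closure (Or.inl hy)
    exact hK.le_of_ge h1 h2 (Subring.subset_closure (Or.inr rfl))
  have hField : IsField K := by
    refine { exists_pair_ne := ⟨0, 1, ?_⟩, mul_comm := ?_, mul_inv_cancel := ?_ }
    · intro h
      have h1 : (0 : Module.End S V) = 1 := congrArg Subtype.val h
      obtain ⟨v, hv⟩ := exists_ne (0 : V)
      apply hv
      have := congrArg (fun F : Module.End S V => F v) h1
      simpa using this.symm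
    · intro a b
      exact Subtype.ext (hKc a a.2 b b.2)
    · intro a ha
      have ha' : (a : Module.End S V) ≠ 0 := fun h => ha (Subtype.ext h)
      have hbij := (LinearMap.bijective_or_eq_zero (a : Module.End S V)).resolve_right ha'
      let e := LinearEquiv.ofBijective (a : Module.End S V) hbij
      let y : Module.End S V := e.symm.toLinearMap
      have hay : (a : Module.End S V) * y = 1 := by
        ext v; exact e.apply_symm_apply v
      have hya : y * (a : Module.End S V) = 1 := by
        ext v; exact e.symm_apply_apply v
      have hyK : y ∈ K := by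
        apply hmax
        intro z hz
        calc y * z = y * z * (a * y) := by rw [hay, mul_one]
          _ = y * (z * a) * y := by simp only [mul_assoc]
          _ = y * (a * z) * y := by rw [hKc z hz a a.2]
          _ = (y * a) * z * y := by simp only [mul_assoc]
          _ = z * y := by rw [hya, one_mul]
      exact ⟨⟨y, hyK⟩, Subtype.ext hay⟩
  letI : Field K := hField.toField
  letI : Module K V :=
    { smul := fun k v => (k : Module.End S V) v
      one_smul := fun v => rfl
      mul_smul := fun a b v => rfl
      smul_zero := fun a => (a : Module.End S V).map_zero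
      smul_add := fun a x y => (a : Module.End S V).map_add x y
      add_smul := fun a b v => rfl
      zero_smul := fun v => rfl }
  have hsm : ∀ (k : K) (v : V), k • v = (k : Module.End S V) v := fun k v => rfl
  let g : R →+* Module.End K V :=
    { toFun := fun r =>
        { toFun := fun v => f r • v
          map_add' := fun x y => smul_add _ _ _
          map_smul' := fun k v => by
            simp only [RingHom.id_apply, hsm]
            rw [LinearMap.map_smul] }
      map_one' := by ext v; simp
      map_mul' := fun a b => by ext v; simp [mul_smul]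
      map_zero' := by ext v; simp
      map_add' := fun a b => by ext v; simp [add_smul] }
  have hg : ∀ r v, g r v = f r • v := fun r v => rfl
  -- the scalar τ
  let τ : Module.End S V :=
    { toFun := fun v => t • v
      map_add' := fun x y => smul_add _ _ _
      map_smul' := fun s v => by
        simp only [RingHom.id_apply]
        rw [smul_smul, smul_smul, ht] }
  have hτK : τ ∈ K := by
    apply hmax
    intro y _
    ext v
    simp only [τ, Module.End.mul_apply, LinearMap.coe_mk, AddHom.coe_mk]
    rw [LinearMap.map_smul]
  have hτ : ∀ v : V, t • v = (⟨τ, hτK⟩ : K) • v := fun v => rfl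
  obtain ⟨j, φ, h1, h2⟩ := kap_core K V g (by
    intro W hW
    let W' : Submodule S V :=
      { carrier := W
        add_mem' := fun ha hb => W.add_mem ha hb
        zero_mem' := W.zero_mem
        smul_mem' := by
          intro s
          have hs : s ∈ Subring.closure (Set.range f ∪ {t}) := by rw [hgen]; trivial
          induction hs using Subring.closure_induction with
          | mem x hx =>
            intro w hw
            rcases hx with ⟨r, rfl⟩ | hx
            · exact hW r w hw
            · rw [Set.mem_singleton_iff.1 hx, hτ]
              exact W.smul_mem _ hw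
          | zero => intro w _; rw [zero_smul]; exact W.zero_mem
          | one => intro w hw; rw [one_smul]; exact hw
          | add x y _ _ hx hy => intro w hw; rw [add_smul]; exact W.add_mem (hx hw) (hy hw)
          | neg x _ hx => intro w hw; rw [neg_smul]; exact W.neg_mem (hx hw)
          | mul x y _ _ hx hy => intro w hw; rw [mul_smul]; exact hx (hy hw) }
    rcases eq_bot_or_eq_top W' with h | h
    · left
      ext w
      have : w ∈ W' ↔ w ∈ (⊥ : Submodule S V) := by rw [h]
      simpa [W'] using this
    · right
      ext w
      have : w ∈ W' ↔ w ∈ (⊤ : Submodule S V) := by rw [h]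
      simpa [W'] using this) (by
    intro E hE
    have hES : ∀ (s : S) (v : V), E (s • v) = s • E v := by
      intro s
      have hs : s ∈ Subring.closure (Set.range f ∪ {t}) := by rw [hgen]; trivial
      induction hs using Subring.closure_induction with
      | mem x hx =>
        intro v
        rcases hx with ⟨r, rfl⟩ | hx
        · exact hE r v
        · rw [Set.mem_singleton_iff.1 hx, hτ, hτ]
          exact E.map_smul _ v
      | zero => intro v; simp
      | one => intro v; simp
      | add x y _ _ hx hy => intro v; rw [add_smul, add_smul, map_add, hx, hy]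
      | neg x _ hx => intro v; rw [neg_smul, neg_smul, map_neg, hx]
      | mul x y _ _ hx hy => intro v; rw [mul_smul, mul_smul, hx, hy]
    let E' : Module.End S V :=
      { toFun := E
        map_add' := E.map_add
        map_smul' := hES }
    have hE'K : E' ∈ K := by
      apply hmax
      intro y hy
      ext v
      exact E.map_smul (⟨y, hy⟩ : K) v
    exact ⟨⟨E', hE'K⟩, fun v => rfl⟩) d c hc hPI
  exact ⟨K, inferInstance, j, φ, h1, h2⟩

end statements

end Pool.Agent.Helper58.EN
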