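import Pool.Agent.Helper58.EN.Defs

set_option autoImplicit false

namespace Pool.Agent.Helper58.EN

open Matrix

variable {ι : Type} [Fintype ι] [DecidableEq ι]


section statements
open Polynomial

/-- elementary matrices indexed by natural numbers -/
def Emat (K : Type) [Field K] (j : ℕ) (a : ℕ) : Matrix (Fin j) (Fin j) K :=
  Matrix.of (fun u v => if u.val = a ∧ v.val = a + 1 then 1 else 0)

theorem prodE {K : Type} [Field K] {j : ℕ} (n : ℕ) : ∀ (s : Fin n → ℕ), (∀ i, s i + 1 < j) →
    ∀ u v : Fin j, (List.ofFn (fun i => Emat K j (s i))).prod u v =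
      if (∀ i : Fin n, s i = u.val + i.val) ∧ v.val = u.val + n then 1 else 0 := by
  induction n with
  | zero =>
    intro s _ u v
    simp only [List.ofFn_zero, List.prod_nil, Matrix.one_apply]
    have : u = v ↔ (∀ i : Fin 0, s i = u.val + i.val) ∧ v.val = u.val + 0 := by
      constructor
      · rintro rfl
        exact ⟨fun i => i.elim0, rfl⟩
      · rintro ⟨_, h⟩
        exact Fin.ext (by omega)
    simp only [this]
  | succ n ih =>
    intro s hs u v
    rw [List.ofFn_succ, List.prod_cons, Matrix.mul_apply]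
    have hs0 := hs 0
    have h1 : ∀ w : Fin j, Emat K j (s 0) u w *
        (List.ofFn (fun i : Fin n => Emat K j (s i.succ))).prod w v =
        if w = ⟨s 0 + 1, hs0⟩ then (if u.val = s 0 then
          (List.ofFn (fun i : Fin n => Emat K j (s i.succ))).prod w v else 0) else 0 := by
      intro w
      simp only [Emat, Matrix.of_apply]
      by_cases hw : w = ⟨s 0 + 1, hs0⟩
      · have hw' : w.val = s 0 + 1 := by rw [hw]
        by_cases hu : u.val = s 0
        · rw [if_pos ⟨hu, hw'⟩, if_pos hw, if_pos hu, one_mul]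
        · rw [if_neg (fun h => hu h.1), if_pos hw, if_neg hu, zero_mul]
      · have hw' : ¬ w.val = s 0 + 1 := fun h => hw (Fin.ext h)
        rw [if_neg (fun h => hw' h.2), if_neg hw, zero_mul]
    rw [Finset.sum_congr rfl (fun w _ => h1 w), Finset.sum_ite_eq' Finset.univ, if_pos (Finset.mem_univ _)]
    by_cases hu : u.val = s 0
    · rw [if_pos hu, ih (fun i => s i.succ) (fun i => hs i.succ)]
      refine if_congr ?_ rfl rfl
      rw [Fin.forall_fin_succ]
      simp only [Fin.val_zero, Fin.val_succ]
      constructor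
      · rintro ⟨h2, h3⟩
        exact ⟨⟨by omega, fun i => by have := h2 i; omega⟩, by omega⟩
      · rintro ⟨⟨_, h2⟩, h3⟩
        exact ⟨fun i => by have := h2 i; omega, by omega⟩
    · rw [if_neg hu, if_neg]
      rintro ⟨h2, _⟩
      have := h2 0
      simp only [Fin.val_zero] at this
      omega

/-- the identity as a multilinear map -/
noncomputable def idMap (K : Type) [Field K] (j d : ℕ) (c : Equiv.Perm (Fin d) → ℤ) :
    MultilinearMap K (fun _ : Fin d => Matrix (Fin j) (Fin j) K) (Matrix (Fin j) (Fin j) K) :=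
  ∑ σ : Equiv.Perm (Fin d), ((c σ : ℤ) : K) •
    (MultilinearMap.mkPiAlgebraFin K d (Matrix (Fin j) (Fin j) K)).domDomCongr σ

theorem idMap_apply (K : Type) [Field K] (j d : ℕ) (c : Equiv.Perm (Fin d) → ℤ)
    (x : Fin d → Matrix (Fin j) (Fin j) K) :
    idMap K j d c x = ∑ σ : Equiv.Perm (Fin d), ((c σ : ℤ) : K) •
      (List.ofFn (fun i => x (σ i))).prod := by
  unfold idMap
  rw [MultilinearMap.sum_apply]
  refine Finset.sum_congr rfl fun σ _ => ?_
  rw [MultilinearMap.smul_apply, MultilinearMap.domDomCongr_apply, MultilinearMap.mkPiAlgebraFin_apply]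

theorem idMap_zero {R : Type} [Ring R] (d : ℕ) (c : Equiv.Perm (Fin d) → ℤ)
    (hPI : PI d c R) {K : Type} [Field K] {j : ℕ} (φ : R →+* Matrix (Fin j) (Fin j) K)
    (hφ : Submodule.span K (Set.range φ) = ⊤) (n : ℕ) : n ≤ d →
    ∀ x : Fin d → Matrix (Fin j) (Fin j) K, (∀ i : Fin d, n ≤ i.val → x i ∈ Set.range φ) →
      idMap K j d c x = 0 := by
  induction n with
  | zero =>
    intro _ x hx
    choose r hr using fun i => hx i (Nat.zero_le _)
    rw [idMap_apply]
    have h1 := congrArg φ (hPI r)
    rw [map_zero, map_sum] at h1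
    rw [← h1]
    refine Finset.sum_congr rfl fun σ _ => ?_
    rw [map_mul, map_intCast, map_list_prod, List.map_ofFn]
    have h2 : (φ ∘ fun i => r (σ i)) = fun i => x (σ i) := by
      funext i; exact hr (σ i)
    rw [h2, Int.cast_smul_eq_zsmul, zsmul_eq_mul]
  | succ n ih =>
    intro hn x hx
    have hnd : n < d := hn
    have hL : (idMap K j d c).toLinearMap x ⟨n, hnd⟩ = 0 := by
      apply LinearMap.ext_on_range (v := φ) hφ
      intro r
      rw [MultilinearMap.toLinearMap_apply, LinearMap.zero_apply]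
      apply ih hnd.le
      intro i hi
      by_cases hin : i = ⟨n, hnd⟩
      · subst hin
        rw [Function.update_self]
        exact ⟨r, rfl⟩
      · rw [Function.update_of_ne hin]
        apply hx
        have : i.val ≠ n := fun h => hin (Fin.ext h)
        omega
    have := LinearMap.congr_fun hL (x ⟨n, hnd⟩)
    rw [MultilinearMap.toLinearMap_apply, LinearMap.zero_apply, Function.update_eq_self] at this
    exact this

theorem rep_le {R : Type} [Ring R] (d : ℕ) (c : Equiv.Perm (Fin d) → ℤ) (hc : c 1 = 1)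
    (hPI : PI d c R) {K : Type} [Field K] {j : ℕ} (φ : R →+* Matrix (Fin j) (Fin j) K)
    (hφ : Submodule.span K (Set.range φ) = ⊤) : j ≤ d := by
  by_contra hcon
  push Not at hcon
  have h1 := idMap_zero d c hPI φ hφ d le_rfl (fun i => Emat K j i.val) (fun i hi => by
    have := i.2; omega)
  rw [idMap_apply] at h1
  have h2 := congrFun (congrFun h1 ⟨0, by omega⟩) ⟨d, hcon⟩
  rw [Matrix.sum_apply] at h2
  have h3 : ∀ σ : Equiv.Perm (Fin d), (((c σ : ℤ) : K) •
      (List.ofFn (fun i => Emat K j (σ i).val)).prod) ⟨0, by omega⟩ ⟨d, hcon⟩ =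
      if σ = 1 then 1 else 0 := by
    intro σ
    rw [Matrix.smul_apply, prodE d (fun i => (σ i).val) (fun i => by have := (σ i).2; omega)]
    by_cases hσ : σ = 1
    · subst hσ
      rw [if_pos ⟨fun i => by simp, by simp⟩, if_pos rfl, hc]
      simp
    · rw [if_neg, if_neg hσ, smul_zero]
      rintro ⟨h4, _⟩
      apply hσ
      ext i
      have := h4 i
      simpa using this
  rw [Finset.sum_congr rfl (fun σ _ => h3 σ), Finset.sum_ite_eq' Finset.univ,
    if_pos (Finset.mem_univ _)] at h2
  simp at h2

end statements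

end Pool.Agent.Helper58.EN
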