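import Pool.Agent.Helper58.EN.Defs
import Pool.Agent.Helper58.EN.JQ
import Pool.Agent.Helper58.EN.JS
import Pool.Agent.Helper58.EN.JT
import Pool.Agent.Helper58.EN.JU

set_option autoImplicit false

namespace Pool.Agent.Helper58.EN

open Matrix

variable {ι : Type} [Fintype ι] [DecidableEq ι]


section statements
open Polynomial

theorem exists_rep {R : Type} [Ring R] (d : ℕ) (c : Equiv.Perm (Fin d) → ℤ) (hc : c 1 = 1)
    (hPI : PI d c R) (hL : ∀ K : Ideal R, K.IsTwoSided → LN (K : Set R) → K = ⊥)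
    (r : R) (hr : r ≠ 0) :
    ∃ (K : Type) (_ : Field K) (j : ℕ) (φ : R →+* Matrix (Fin j) (Fin j) K),
      Submodule.span K (Set.range φ) = ⊤ ∧ φ r ≠ 0 := by
  have hsp : ∀ a : R, (∀ r, a * r * a = 0) → a = 0 := fun a ha => semiprime_of_noLN hL a ha
  have hN := no_nil d c hc hPI hsp {a : R | (C a : R[X]) ∈ Ring.jacobson R[X]}
    (by
      intro a ha r
      show (C (a * r) : R[X]) ∈ Ring.jacobson R[X]
      rw [C_mul]
      exact Ideal.mul_mem_right _ _ ha)
    (fun a ha => poly_jac a ha)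
  have hrJ : (C r : R[X]) ∉ Ring.jacobson R[X] := fun h => hr (hN r h)
  rw [Ring.jacobson_eq_sInf_isMaximal, Submodule.mem_sInf] at hrJ
  push Not at hrJ
  obtain ⟨M, hM, hrM⟩ := hrJ
  have hM' : IsCoatom M := Ideal.IsMaximal.out (self := hM)
  have hsimple : IsSimpleModule R[X] (R[X] ⧸ M) := isSimpleModule_iff_isCoatom.2 hM'
  have hgen : Subring.closure (Set.range (C : R →+* R[X]) ∪ {X}) = ⊤ := by
    rw [eq_top_iff]
    intro p _
    induction p using Polynomial.induction_on' with
    | add p q hp hq => exact add_mem (hp (Subring.mem_top p)) (hq (Subring.mem_top q))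
    | monomial n a =>
      rw [← C_mul_X_pow_eq_monomial]
      apply mul_mem
      · exact Subring.subset_closure (Or.inl ⟨a, rfl⟩)
      · have hX : (X : R[X]) ∈ Subring.closure (Set.range (C : R →+* R[X]) ∪ {X}) :=
          Subring.subset_closure (Set.mem_union_right _ (Set.mem_singleton _))
        exact pow_mem hX n
  obtain ⟨K, hK, j, φ, h1, h2⟩ := kaplansky (C : R →+* R[X]) X (fun s => X_mul) hgen
    (R[X] ⧸ M) d c hc hPI
  refine ⟨K, hK, j, φ, h1, fun h0 => ?_⟩
  have h3 := h2 r h0 (Submodule.Quotient.mk 1)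
  rw [← Submodule.Quotient.mk_smul, smul_eq_mul, mul_one, Submodule.Quotient.mk_eq_zero] at h3
  exact hrM h3

end statements

end Pool.Agent.Helper58.EN
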