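import Pool.Agent.Helper58.EN.Defs
import Pool.Agent.Helper58.EN.JX

set_option autoImplicit false

namespace Pool.Agent.Helper58.EN

open Matrix

variable {ι : Type} [Fintype ι] [DecidableEq ι]


section statements
open Polynomial

theorem exists_good_pick {K V : Type} [Field K] [AddCommGroup V] [Module K V]
    [FiniteDimensional K V] {κ : Type} [Fintype κ]
    (hκ : Fintype.card κ = Module.finrank K V) (s : Set V)
    (hs : Submodule.span K s = ⊤) :
    ∃ v : κ → V, (∀ i, v i ∈ s) ∧ Submodule.span K (Set.range v) = ⊤ := by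
  obtain ⟨b, hb, hspan, hli⟩ := exists_linearIndependent K s
  have hfin : Finite b := hli.finite
  have := Fintype.ofFinite b
  let B := Module.Basis.mk hli (by rw [Subtype.range_coe, hspan, hs])
  have hc : Fintype.card b = Fintype.card κ := by
    rw [hκ, Module.finrank_eq_card_basis B]
  let e : κ ≃ b := Fintype.equivOfCardEq hc.symm
  refine ⟨fun i => (e i : V), fun i => hb (e i).2, ?_⟩
  have : Set.range (fun i => (e i : V)) = b := by
    ext x
    constructor
    · rintro ⟨i, rfl⟩
      exact (e i).2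
    · intro hx
      exact ⟨e.symm ⟨x, hx⟩, by simp⟩
  rw [this, hspan, hs]

theorem exists_good_det {C D K' κ : Type} [CommRing C] [Ring D] [CommRing K'] [Fintype κ]
    [DecidableEq κ] (f : C →+* D) (g : K' →+* D) (M : Matrix κ κ C) (N : Matrix κ κ K')
    (h : ∀ i j, f (M i j) = g (N i j)) :
    f M.det = g N.det ∧ ∀ i j, f (M.adjugate i j) = g (N.adjugate i j) := by
  let E := RingHom.eqLocus (f.comp (RingHom.fst C K')) (g.comp (RingHom.snd C K'))
  let M' : Matrix κ κ E := Matrix.of fun i j => ⟨(M i j, N i j), h i j⟩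
  let p1 : E →+* C := (RingHom.fst C K').comp E.subtype
  let p2 : E →+* K' := (RingHom.snd C K').comp E.subtype
  have h1 : p1.mapMatrix M' = M := by ext i j; rfl
  have h2 : p2.mapMatrix M' = N := by ext i j; rfl
  have hE : ∀ e : E, f (p1 e) = g (p2 e) := fun e => e.2
  constructor
  · rw [← h1, ← h2, ← RingHom.map_det, ← RingHom.map_det]
    exact hE _
  · intro i j
    rw [← h1, ← h2, ← RingHom.map_adjugate, ← RingHom.map_adjugate]
    exact hE _

theorem exists_good_expand {K : Type} [Field K] {k : ℕ}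
    (l : Matrix (Fin k) (Fin k) K →ₗ[K] K) (p q x : Matrix (Fin k) (Fin k) K) :
    l (p * x * q) = ∑ s : Fin k × Fin k, l (p * Matrix.single s.1 s.2 1 * q) * x s.1 s.2 := by
  conv_lhs => rw [Matrix.matrix_eq_sum_single x]
  rw [Fintype.sum_prod_type]
  simp only [Finset.mul_sum, Finset.sum_mul, map_sum]
  refine Finset.sum_congr rfl fun i _ => Finset.sum_congr rfl fun j _ => ?_
  have : Matrix.single i j (x i j) = x i j • Matrix.single i j (1 : K) := by
    rw [Matrix.smul_single, smul_eq_mul, mul_one]
  rw [this, Matrix.mul_smul, Matrix.smul_mul, map_smul, smul_eq_mul, mul_comm]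

theorem exists_good_lin {K : Type} [Field K] {k : ℕ}
    (l : Matrix (Fin k) (Fin k) K →ₗ[K] K)
    (p q a : Fin k × Fin k → Matrix (Fin k) (Fin k) K) (x : Matrix (Fin k) (Fin k) K)
    (N : Matrix (Fin k × Fin k) (Fin k × Fin k) K) (hN : ∀ i j, N i j = l (p i * a j * q i)) :
    N.det • x = ∑ j, (∑ i, N.adjugate j i * l (p i * x * q i)) • a j := by
  set P : Matrix (Fin k × Fin k) (Fin k × Fin k) K :=
    Matrix.of fun i s => l (p i * Matrix.single s.1 s.2 1 * q i) with hP
  set Q : Matrix (Fin k × Fin k) (Fin k × Fin k) K := Matrix.of fun s j => a j s.1 s.2 with hQ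
  set y : Fin k × Fin k → K := fun s => x s.1 s.2 with hy
  have hNPQ : N = P * Q := by
    ext i j
    rw [hN, Matrix.mul_apply, exists_good_expand]
    rfl
  have hv : (fun i => l (p i * x * q i)) = P *ᵥ y := by
    funext i
    rw [exists_good_expand]
    rfl
  have hz : (fun j => ∑ i, N.adjugate j i * l (p i * x * q i)) = N.adjugate *ᵥ (P *ᵥ y) := by
    rw [← hv]
    rfl
  have hkey : Q *ᵥ (N.adjugate *ᵥ (P *ᵥ y)) = N.det • y := by
    rw [Matrix.mulVec_mulVec, Matrix.mulVec_mulVec, hNPQ, Matrix.adjugate_mul_distrib,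
      Matrix.det_mul]
    have : Q * (Q.adjugate * P.adjugate) * P = (P.det * Q.det) • (1 : Matrix _ _ K) := by
      calc Q * (Q.adjugate * P.adjugate) * P = (Q * Q.adjugate) * (P.adjugate * P) := by
            simp only [Matrix.mul_assoc]
        _ = _ := by
            rw [Matrix.mul_adjugate, Matrix.adjugate_mul, Matrix.smul_mul, Matrix.one_mul,
              smul_smul, mul_comm]
    rw [this, Matrix.smul_mulVec, Matrix.one_mulVec]
  ext b c
  have h1 := congrFun hkey (b, c)
  have h2 : (∑ j, (∑ i, N.adjugate j i * l (p i * x * q i)) • a j) b c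
      = (Q *ᵥ (fun j => ∑ i, N.adjugate j i * l (p i * x * q i))) (b, c) := by
    rw [Matrix.sum_apply]
    simp only [Matrix.mulVec, dotProduct, Matrix.smul_apply, smul_eq_mul, hQ, Matrix.of_apply]
    exact Finset.sum_congr rfl fun j _ => mul_comm _ _
  rw [h2, hz, h1]
  rfl

theorem exists_good_dual {R : Type} [Ring R] {k : ℕ} {K : Type} [Field K]
    (φ : R →+* Matrix (Fin k) (Fin k) K) (hφ : Submodule.span K (Set.range φ) = ⊤)
    (l : Matrix (Fin k) (Fin k) K →ₗ[K] K) (hl : l ≠ 0)
    (x : Matrix (Fin k) (Fin k) K) (hx : ∀ p q : R, l (φ p * x * φ q) = 0) : x = 0 := by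
  have h1 : ∀ (m : Matrix (Fin k) (Fin k) K) (q : R), l (m * x * φ q) = 0 := by
    intro m q
    have hm : m ∈ Submodule.span K (Set.range φ) := by rw [hφ]; trivial
    induction hm using Submodule.span_induction with
    | mem y hy => obtain ⟨p, rfl⟩ := hy; exact hx p q
    | zero => simp
    | add y z _ _ hy hz => rw [add_mul, add_mul, map_add, hy, hz, add_zero]
    | smul t y _ hy => rw [Matrix.smul_mul, Matrix.smul_mul, map_smul, hy, smul_zero]
  have h2 : ∀ (m m' : Matrix (Fin k) (Fin k) K), l (m * x * m') = 0 := by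
    intro m m'
    have hm : m' ∈ Submodule.span K (Set.range φ) := by rw [hφ]; trivial
    induction hm using Submodule.span_induction with
    | mem y hy => obtain ⟨p, rfl⟩ := hy; exact h1 m p
    | zero => simp
    | add y z _ _ hy hz => rw [mul_add, map_add, hy, hz, add_zero]
    | smul t y _ hy => rw [Matrix.mul_smul, map_smul, hy, smul_zero]
  by_contra hne
  apply hl
  obtain ⟨b, c, hbc⟩ : ∃ b c, x b c ≠ 0 := by
    by_contra hcon
    push Not at hcon
    exact hne (by ext b c; exact hcon b c)
  apply LinearMap.ext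
  intro y
  rw [Matrix.matrix_eq_sum_single y]
  simp only [map_sum, LinearMap.zero_apply]
  refine Finset.sum_congr rfl fun i _ => Finset.sum_congr rfl fun j _ => ?_
  have h3 := h2 (Matrix.single i b (y i j * (x b c)⁻¹)) (Matrix.single c j 1)
  rw [Matrix.single_mul_mul_single] at h3
  rw [mul_one, inv_mul_cancel_right₀ hbc] at h3
  exact h3

theorem exists_good {R : Type} [Ring R] {k : ℕ} (hk : 0 < k)
    (hsep : ∀ r : R, r ≠ 0 → ∃ (K' : Type) (_ : Field K') (j : ℕ)
      (ψ : R →+* Matrix (Fin j) (Fin j) K'), j ≤ k ∧ ψ r ≠ 0)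
    {K : Type} [Field K]
    (φ : R →+* Matrix (Fin k) (Fin k) K) (hφ : Submodule.span K (Set.range φ) = ⊤) :
    ∃ c : R, (∀ x, c * x = x * c) ∧ (∃ (q : ℕ) (a : Fin q → R), ∀ r : R, ∃ z : Fin q → R,
      (∀ i, z i ∈ Subring.center R) ∧ c * r = ∑ i, z i * a i) ∧ φ c ≠ 0 := by
  obtain ⟨T, hT, r₀, hr₀⟩ := razmyslov hk φ hφ
  have hTc : ∀ r, T r ∈ Subring.center R := by
    intro r
    rw [Subring.mem_center_iff]
    intro x
    by_contra hne
    obtain ⟨K', _, j, ψ, hj, hψ⟩ := hsep (x * T r - T r * x) (sub_ne_zero.2 hne)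
    obtain ⟨l, hl, _⟩ := hT K' j ψ hj
    apply hψ
    rw [map_sub, map_mul, map_mul, hl, Algebra.commutes, sub_self]
  obtain ⟨l, hl, -⟩ := hT K k φ le_rfl
  have hl0 : l ≠ 0 := by
    rintro rfl
    apply hr₀
    rw [hl, LinearMap.zero_apply, map_zero]
  -- choice of a
  have hcard : Fintype.card (Fin k × Fin k) = Module.finrank K (Matrix (Fin k) (Fin k) K) := by
    rw [Module.finrank_matrix, Module.finrank_self]
    simp
  obtain ⟨va, hva, hvaspan⟩ := exists_good_pick hcard (Set.range φ) hφ
  choose a ha using hva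
  -- choice of p, q
  let F : R × R → Module.Dual K (Matrix (Fin k) (Fin k) K) := fun pq =>
    l ∘ₗ (LinearMap.mulRight K (φ pq.2)) ∘ₗ (LinearMap.mulLeft K (φ pq.1))
  have hF : ∀ pq x, F pq x = l (φ pq.1 * x * φ pq.2) := fun pq x => rfl
  have hspanF : Submodule.span K (Set.range F) = ⊤ := by
    have hbot : (Submodule.span K (Set.range F)).dualCoannihilator = ⊥ := by
      rw [eq_bot_iff]
      intro x hx
      rw [Submodule.mem_dualCoannihilator] at hx
      rw [Submodule.mem_bot]
      apply exists_good_dual φ hφ l hl0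
      intro p q
      exact hx (F (p, q)) (Submodule.subset_span ⟨(p, q), rfl⟩)
    have := Subspace.dualCoannihilator_dualAnnihilator_eq
      (W := Submodule.span K (Set.range F))
    rw [hbot, Submodule.dualAnnihilator_bot] at this
    exact this.symm
  have hcard' : Fintype.card (Fin k × Fin k)
      = Module.finrank K (Module.Dual K (Matrix (Fin k) (Fin k) K)) := by
    rw [Subspace.dual_finrank_eq, hcard]
  obtain ⟨vf, hvf, hvfspan⟩ := exists_good_pick hcard' (Set.range F) hspanF
  choose pq hpq using hvf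
  let M : Matrix (Fin k × Fin k) (Fin k × Fin k) (Subring.center R) :=
    Matrix.of fun i j => ⟨T ((pq i).1 * a j * (pq i).2), hTc _⟩
  let w : R → (Fin k × Fin k) → Subring.center R := fun r i =>
    ⟨T ((pq i).1 * r * (pq i).2), hTc _⟩
  let z : R → (Fin k × Fin k) → Subring.center R := fun r j => ∑ i, M.adjugate j i * w r i
  -- the image of everything under a representation
  have hψM : ∀ (K' : Type) [Field K'] (j : ℕ) (ψ : R →+* Matrix (Fin j) (Fin j) K')
      (l' : Matrix (Fin j) (Fin j) K' →ₗ[K'] K')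
      (_ : ∀ r, ψ (T r) = algebraMap K' (Matrix (Fin j) (Fin j) K') (l' (ψ r)))
      (N : Matrix (Fin k × Fin k) (Fin k × Fin k) K')
      (_ : ∀ i j, N i j = l' (ψ (pq i).1 * ψ (a j) * ψ (pq i).2)),
      ψ (M.det : Subring.center R) = algebraMap K' (Matrix (Fin j) (Fin j) K') N.det ∧
      ∀ r s, ψ (z r s : Subring.center R) = algebraMap K' (Matrix (Fin j) (Fin j) K')
        (∑ i, N.adjugate s i * l' (ψ (pq i).1 * ψ r * ψ (pq i).2)) := by
    intro K' _ j ψ l' hl' N hN
    have h := exists_good_det (ψ.comp (Subring.center R).subtype)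
      (algebraMap K' (Matrix (Fin j) (Fin j) K')) M N (by
        intro i s
        rw [hN, ← map_mul, ← map_mul, ← hl']
        rfl)
    refine ⟨h.1, ?_⟩
    intro r s
    have e : ψ (z r s : Subring.center R)
        = (ψ.comp (Subring.center R).subtype) (∑ i, M.adjugate s i * w r i) := rfl
    rw [e, map_sum, map_sum]
    refine Finset.sum_congr rfl fun i _ => ?_
    rw [map_mul, map_mul, h.2 s i]
    congr 1
    rw [← map_mul ψ, ← map_mul ψ, ← hl']
    rfl
  refine ⟨(M.det : Subring.center R), ?_, ?_, ?_⟩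
  · intro x
    exact ((Subring.mem_center_iff.1 (M.det : Subring.center R).2) x).symm
  · let e : Fin (Fintype.card (Fin k × Fin k)) ≃ Fin k × Fin k := (Fintype.equivFin _).symm
    refine ⟨Fintype.card (Fin k × Fin k), fun i => a (e i), ?_⟩
    intro r
    refine ⟨fun i => (z r (e i) : Subring.center R), fun i => (z r (e i)).2, ?_⟩
    rw [Equiv.sum_comp e (fun s => ((z r s : Subring.center R) : R) * a s)]
    by_contra hne
    obtain ⟨K', _, j, ψ, hj, hψ⟩ := hsep _ (sub_ne_zero.2 hne)
    apply hψ
    obtain ⟨l', hl', hl'0⟩ := hT K' j ψ hj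
    obtain ⟨h1, h2⟩ := hψM K' j ψ l' hl'
      (Matrix.of fun i s => l' (ψ (pq i).1 * ψ (a s) * ψ (pq i).2)) (fun _ _ => rfl)
    rw [map_sub, map_mul, h1, map_sum]
    simp only [map_mul, h2]
    rcases hj.lt_or_eq with hlt | rfl
    · have h0 := hl'0 hlt
      subst h0
      simp only [LinearMap.zero_apply, mul_zero, Finset.sum_const_zero, map_zero, zero_mul,
        sub_zero]
      have : Nonempty (Fin k × Fin k) := ⟨(⟨0, hk⟩, ⟨0, hk⟩)⟩
      have : (Matrix.of fun (_ _ : Fin k × Fin k) => (0 : K')) = 0 := rfl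
      rw [this, Matrix.det_zero, map_zero, zero_mul]
    · have := exists_good_lin l' (fun i => ψ (pq i).1) (fun i => ψ (pq i).2) (fun s => ψ (a s))
        (ψ r) (Matrix.of fun i s => l' (ψ (pq i).1 * ψ (a s) * ψ (pq i).2)) (fun _ _ => rfl)
      rw [← Algebra.smul_def, this]
      simp only [← Algebra.smul_def, sub_self]
  · set N : Matrix (Fin k × Fin k) (Fin k × Fin k) K :=
      Matrix.of fun i s => l (φ (pq i).1 * φ (a s) * φ (pq i).2) with hN
    obtain ⟨h1, -⟩ := hψM K k φ l hl N (fun _ _ => rfl)
    set P : Matrix (Fin k × Fin k) (Fin k × Fin k) K :=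
      Matrix.of fun i s => l (φ (pq i).1 * Matrix.single s.1 s.2 1 * φ (pq i).2) with hP
    set Q : Matrix (Fin k × Fin k) (Fin k × Fin k) K :=
      Matrix.of fun s j => φ (a j) s.1 s.2 with hQ
    have hNPQ : N = P * Q := by
      ext i j
      rw [hN, Matrix.of_apply, Matrix.mul_apply, exists_good_expand]
      rfl
    have hQu : IsUnit Q := by
      rw [← Matrix.mulVec_surjective_iff_isUnit]
      intro y
      have hy : (Matrix.of fun b c => y (b, c)) ∈ Submodule.span K (Set.range va) := by
        rw [hvaspan]; trivial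
      rw [Submodule.mem_span_range_iff_exists_fun] at hy
      obtain ⟨t, ht⟩ := hy
      refine ⟨t, ?_⟩
      funext s
      have := congrFun (congrFun ht s.1) s.2
      rw [Matrix.sum_apply] at this
      simp only [Matrix.smul_apply, smul_eq_mul, Matrix.of_apply, ← ha] at this
      simp only [Matrix.mulVec, dotProduct, hQ, Matrix.of_apply]
      rw [← this]
      exact Finset.sum_congr rfl fun j _ => mul_comm _ _
    have hPu : IsUnit P := by
      rw [← Matrix.vecMul_surjective_iff_isUnit]
      intro y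
      let g : Module.Dual K (Matrix (Fin k) (Fin k) K) :=
        { toFun := fun x => ∑ s : Fin k × Fin k, y s * x s.1 s.2
          map_add' := by
            intro x x'
            simp only [Matrix.add_apply, mul_add, Finset.sum_add_distrib]
          map_smul' := by
            intro t x
            simp only [Matrix.smul_apply, smul_eq_mul, RingHom.id_apply, Finset.mul_sum]
            exact Finset.sum_congr rfl fun s _ => by ring }
      have hg : ∀ x, g x = ∑ s : Fin k × Fin k, y s * x s.1 s.2 := fun x => rfl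
      have hy : g ∈ Submodule.span K (Set.range vf) := by
        rw [hvfspan]; trivial
      rw [Submodule.mem_span_range_iff_exists_fun] at hy
      obtain ⟨t, ht⟩ := hy
      refine ⟨t, ?_⟩
      funext s
      have h3 : (∑ i, t i • vf i) (Matrix.single s.1 s.2 1) = g (Matrix.single s.1 s.2 1) := by
        rw [ht]
      rw [hg] at h3
      have h4 : ∑ s' : Fin k × Fin k, y s' * (Matrix.single s.1 s.2 (1 : K)) s'.1 s'.2 = y s := by
        rw [Finset.sum_eq_single s]
        · simp
        · intro s' _ hs'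
          rw [Matrix.single_apply, if_neg, mul_zero]
          rintro ⟨h5, h6⟩
          exact hs' (Prod.ext h5.symm h6.symm)
        · intro h; exact absurd (Finset.mem_univ _) h
      rw [h4, LinearMap.sum_apply] at h3
      simp only [LinearMap.smul_apply, smul_eq_mul, ← hpq, hF] at h3
      simp only [Matrix.vecMul, dotProduct, hP, Matrix.of_apply]
      exact h3
    have hdet : N.det ≠ 0 := by
      rw [hNPQ, Matrix.det_mul]
      exact mul_ne_zero ((Matrix.isUnit_iff_isUnit_det _).1 hPu).ne_zero
        ((Matrix.isUnit_iff_isUnit_det _).1 hQu).ne_zero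
    rw [h1]
    intro h0
    have : Nonempty (Fin k) := ⟨⟨0, hk⟩⟩
    apply hdet
    apply (algebraMap K (Matrix (Fin k) (Fin k) K)).injective
    rw [h0, map_zero]

end statements

end Pool.Agent.Helper58.EN
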