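import Pool.Agent.Helper58.EN.Defs
import Pool.Agent.Helper58.EN.JO
import Pool.Agent.Helper58.EN.JP
import Pool.Agent.Helper58.EN.JQ
import Pool.Agent.Helper58.EN.JR
import Pool.Agent.Helper58.EN.JV
import Pool.Agent.Helper58.EN.JW
import Pool.Agent.Helper58.EN.JY

set_option autoImplicit false

namespace Pool.Agent.Helper58.EN

open Matrix

variable {ι : Type} [Fintype ι] [DecidableEq ι]


section statements
open Polynomial

theorem FG_surj {R Q : Type} [Ring R] [Ring Q] (hfg : FG R) (π : R →+* Q)
    (hπ : Function.Surjective π) : FG Q := by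
  classical
  obtain ⟨X, hX⟩ := hfg
  refine ⟨X.image π, ?_⟩
  rw [Finset.coe_image, ← RingHom.map_closure, hX]
  rw [Subring.eq_top_iff']
  intro x
  obtain ⟨y, rfl⟩ := hπ x
  exact ⟨y, Subring.mem_top y, rfl⟩

theorem NE_of_subsingleton {R : Type} [Ring R] [Subsingleton R] (g : (Matrix ι ι R)ˣ) : NE g := by
  intro e he
  have : g * e * g⁻¹ = 1 := by
    ext i j
    exact Subsingleton.elim _ _
  rw [this]
  exact one_mem _

/-- central element with finitely many module generators up to multiplication. -/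
def Good {R : Type} [Ring R] (c : R) : Prop :=
  (∀ x, c * x = x * c) ∧ ∃ (q : ℕ) (a : Fin q → R), ∀ r : R, ∃ z : Fin q → R,
    (∀ i, z i ∈ Subring.center R) ∧ c * r = ∑ i, z i * a i

theorem Good.surj {R Q : Type} [Ring R] [Ring Q] {c : R} (h : Good c) (π : R →+* Q)
    (hπ : Function.Surjective π) : Good (π c) := by
  obtain ⟨h1, q, a, h2⟩ := h
  refine ⟨fun x => ?_, q, fun i => π (a i), fun r => ?_⟩
  · obtain ⟨y, rfl⟩ := hπ x
    rw [← map_mul, h1, map_mul]
  · obtain ⟨y, rfl⟩ := hπ r
    obtain ⟨z, hz, hz2⟩ := h2 y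
    refine ⟨fun i => π (z i), fun i => ?_, ?_⟩
    · rw [Subring.mem_center_iff]
      intro w
      obtain ⟨w', rfl⟩ := hπ w
      rw [← map_mul, ← map_mul, Subring.mem_center_iff.1 (hz i) w']
    · rw [← map_mul, hz2, map_sum]
      simp

theorem span_twoSided {R : Type} [Ring R] (s : Set R) (hs : ∀ c ∈ s, ∀ x, c * x = x * c) :
    (Ideal.span s).IsTwoSided := by
  constructor
  intro a b ha
  induction ha using Submodule.span_induction with
  | mem x hx => rw [hs x hx b]; exact Ideal.mul_mem_left _ _ (Ideal.subset_span hx)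
  | zero => simp
  | add x y _ _ hx hy => rw [add_mul]; exact Ideal.add_mem _ hx hy
  | smul r x _ hx => rw [smul_eq_mul, mul_assoc]; exact Ideal.mul_mem_left _ _ hx

theorem descend (h3 : 3 ≤ Fintype.card ι) {R : Type} [Ring R] (hfg : FG R)
    (g : (Matrix ι ι R)ˣ) (cs : Finset R) : (∀ c ∈ cs, Good c) →
    ∀ (Q : Type) [Ring Q] (π : R →+* Q), Function.Surjective π →
      (∀ x, π x = 0 ↔ x ∈ Ideal.span (cs : Set R)) → NE (mapGL π g) → NE g := by
  classical
  induction cs using Finset.induction_on with
  | empty =>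
    intro _ Q _ π hπ hker hN
    refine lift_ln h3 hfg π hπ ?_ g hN
    intro X hX
    refine ⟨1, fun l hl hlen => ?_⟩
    rw [List.length_eq_one_iff] at hlen
    obtain ⟨a, rfl⟩ := hlen
    have h1 : π a = 0 := hX (hl a (by simp))
    rw [hker] at h1
    simpa using h1
  | insert c cs hc ih =>
    intro hgood Q _ π hπ hker hN
    have htw : (Ideal.span (cs : Set R)).IsTwoSided :=
      span_twoSided _ fun x hx => (hgood x (Finset.mem_insert_of_mem (by simpa using hx))).1
    have hle : ∀ a ∈ Ideal.span (cs : Set R), π a = 0 := by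
      intro a ha
      rw [hker]
      refine Ideal.span_mono ?_ ha
      simp
    let π' : R →+* R ⧸ Ideal.span (cs : Set R) := Ideal.Quotient.mk _
    have hπ' : Function.Surjective π' := Ideal.Quotient.mk_surjective
    let ρ : (R ⧸ Ideal.span (cs : Set R)) →+* Q := Ideal.Quotient.lift _ π hle
    have hρ : ∀ x, ρ (π' x) = π x := fun x => rfl
    have hcomp : ρ.comp π' = π := RingHom.ext hρ
    refine ih (fun x hx => hgood x (Finset.mem_insert_of_mem hx)) _ π' hπ' ?_ ?_
    · intro x
      exact Ideal.Quotient.eq_zero_iff_mem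
    · have hg' := (hgood c (Finset.mem_insert_self c cs)).surj π' hπ'
      obtain ⟨h1, q, a, h2⟩ := hg'
      refine central_step h3 (FG_surj hfg π' hπ') (π' c) h1 a h2 ρ ?_ ?_ _ ?_
      · intro y
        obtain ⟨x, rfl⟩ := hπ y
        exact ⟨π' x, rfl⟩
      · intro x
        obtain ⟨r, rfl⟩ := hπ' x
        rw [hρ, hker, Finset.coe_insert, Ideal.mem_span_insert]
        constructor
        · rintro ⟨a, z, hz, rfl⟩
          refine ⟨π' a, ?_⟩
          have : π' z = 0 := Ideal.Quotient.eq_zero_iff_mem.2 hz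
          rw [map_add, this, map_mul, add_zero, h1]
        · rintro ⟨y, hy⟩
          obtain ⟨a, rfl⟩ := hπ' y
          refine ⟨a, r - a * c, ?_, by simp⟩
          apply Ideal.Quotient.eq_zero_iff_mem.1
          change π' (r - a * c) = 0
          rw [map_sub, hy, map_mul, h1, sub_self]
      · rw [← mapGL_comp, hcomp]
        exact hN

theorem main_fg (h3 : 3 ≤ Fintype.card ι) (d : ℕ) (c : Equiv.Perm (Fin d) → ℤ) (hc : c 1 = 1)
    (k : ℕ) : ∀ (R : Type) [Ring R], FG R → PI d c R →
      (∀ (K : Type) [Field K] (j : ℕ) (φ : R →+* Matrix (Fin j) (Fin j) K),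
        Submodule.span K (Set.range φ) = ⊤ → j ≤ k) →
      ∀ g : (Matrix ι ι R)ˣ, NE g := by
  classical
  induction k with
  | zero =>
    intro R _ hfg hPI hrep g
    obtain ⟨L, hL2, hLN, hL0⟩ := exists_levitzki R
    have hsurj : Function.Surjective (Ideal.Quotient.mk L) := Ideal.Quotient.mk_surjective
    have hPI' : PI d c (R ⧸ L) := by
      intro x
      choose y hy using fun i => hsurj (x i)
      have := congrArg (Ideal.Quotient.mk L) (hPI y)
      rw [map_sum, map_zero] at this
      rw [← this]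
      refine Finset.sum_congr rfl fun σ _ => ?_
      rw [map_mul, map_intCast, map_list_prod, List.map_ofFn]
      congr 3
      funext i
      simp [hy]
    refine lift_ln h3 hfg (Ideal.Quotient.mk L) hsurj ?_ g ?_
    · intro X hX
      exact hLN X (fun x hx => Ideal.Quotient.eq_zero_iff_mem.1 (hX hx))
    · have : Subsingleton (R ⧸ L) := by
        by_contra hns
        rw [not_subsingleton_iff_nontrivial] at hns
        obtain ⟨K, hK, j, φ, hφ, hφ2⟩ := exists_rep d c hc hPI' hL0 1 one_ne_zero
        have hj := hrep K j (φ.comp (Ideal.Quotient.mk L)) (by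
          rw [RingHom.coe_comp, Set.range_comp, hsurj.range_eq, Set.image_univ, hφ])
        have hj0 : j = 0 := by omega
        subst hj0
        apply hφ2
        ext i
        exact i.elim0
      exact NE_of_subsingleton _
  | succ k ih =>
    intro R _ hfg hPI hrep g
    obtain ⟨L, hL2, hLN, hL0⟩ := exists_levitzki R
    have hsurj : Function.Surjective (Ideal.Quotient.mk L) := Ideal.Quotient.mk_surjective
    have hPIq : ∀ {A B : Type} [Ring A] [Ring B] (f : A →+* B), Function.Surjective f →
        PI d c A → PI d c B := by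
      intro A B _ _ f hf hA x
      choose y hy using fun i => hf (x i)
      have := congrArg f (hA y)
      rw [map_sum, map_zero] at this
      rw [← this]
      refine Finset.sum_congr rfl fun σ _ => ?_
      rw [map_mul, map_intCast, map_list_prod, List.map_ofFn]
      congr 3
      funext i
      simp [hy]
    have hPI' : PI d c (R ⧸ L) := hPIq _ hsurj hPI
    have hfg' : FG (R ⧸ L) := FG_surj hfg _ hsurj
    refine lift_ln h3 hfg (Ideal.Quotient.mk L) hsurj ?_ g ?_
    · intro X hX
      exact hLN X (fun x hx => Ideal.Quotient.eq_zero_iff_mem.1 (hX hx))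
    have hsep : ∀ r : R ⧸ L, r ≠ 0 → ∃ (K' : Type) (_ : Field K') (j : ℕ)
        (ψ : (R ⧸ L) →+* Matrix (Fin j) (Fin j) K'), j ≤ k + 1 ∧ ψ r ≠ 0 := by
      intro r hr
      obtain ⟨K, hK, j, φ, hφ, hφ2⟩ := exists_rep d c hc hPI' hL0 r hr
      refine ⟨K, hK, j, φ, ?_, hφ2⟩
      exact hrep K j (φ.comp (Ideal.Quotient.mk L)) (by
        rw [RingHom.coe_comp, Set.range_comp, hsurj.range_eq, Set.image_univ, hφ])
    generalize mapGL (Ideal.Quotient.mk L) g = g'
    let G : Set (R ⧸ L) := {c | Good c}
    have htw : (Ideal.span G).IsTwoSided := span_twoSided _ fun x hx => hx.1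
    let πI : (R ⧸ L) →+* (R ⧸ L) ⧸ Ideal.span G := Ideal.Quotient.mk _
    have hπI : Function.Surjective πI := Ideal.Quotient.mk_surjective
    have hNI : NE (mapGL πI g') := by
      refine ih _ (FG_surj hfg' _ hπI) (hPIq _ hπI hPI') ?_ _
      intro K _ j φ hφ
      have hspan : Submodule.span K (Set.range (φ.comp πI)) = ⊤ := by
        rw [RingHom.coe_comp, Set.range_comp, hπI.range_eq, Set.image_univ, hφ]
      have hj := hrep K j ((φ.comp πI).comp (Ideal.Quotient.mk L)) (by
        rw [RingHom.coe_comp, Set.range_comp, hsurj.range_eq, Set.image_univ, hspan])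
      by_contra hcon
      have hjk : j = k + 1 := by omega
      subst hjk
      obtain ⟨c0, hc0, hc1, hc2⟩ := exists_good (Nat.succ_pos k) hsep (φ.comp πI) hspan
      apply hc2
      have hmem : c0 ∈ Ideal.span G := Ideal.subset_span ⟨hc0, hc1⟩
      have : πI c0 = 0 := Ideal.Quotient.eq_zero_iff_mem.2 hmem
      simp [this]
    obtain ⟨X, hX⟩ := El_fg h3 (ι := ι) hfg'
    have key : ∀ e ∈ El ι (R ⧸ L), ∃ cs : Finset (R ⧸ L), (↑cs ⊆ G) ∧ ∃ x ∈ El ι (R ⧸ L),
        ∀ i j, ((((x⁻¹ * (g' * e * g'⁻¹) : (Matrix ι ι (R ⧸ L))ˣ)) : Matrix ι ι (R ⧸ L)) - 1) i j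
          ∈ Ideal.span (cs : Set (R ⧸ L)) := by
      intro e he
      have h1 : mapGL πI (g' * e * g'⁻¹) ∈ El ι _ := by
        rw [map_mul, map_mul, map_inv]
        exact hNI _ (mapGL_mem πI he)
      rw [← El_map_surj πI hπI] at h1
      obtain ⟨x, hx, hx2⟩ := h1
      have h2 : mapGL πI (x⁻¹ * (g' * e * g'⁻¹)) = 1 := by
        rw [map_mul, map_inv, hx2, inv_mul_cancel]
      have h3' : ∀ i j, ((((x⁻¹ * (g' * e * g'⁻¹) : (Matrix ι ι (R ⧸ L))ˣ)) :
          Matrix ι ι (R ⧸ L)) - 1) i j ∈ Ideal.span G := by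
        intro i j
        apply Ideal.Quotient.eq_zero_iff_mem.1
        change πI _ = 0
        have h4 := congrArg (fun u : (Matrix ι ι ((R ⧸ L) ⧸ Ideal.span G))ˣ =>
          (u : Matrix ι ι ((R ⧸ L) ⧸ Ideal.span G)) i j) h2
        simp only [mapGL_val, Matrix.map_apply, Units.val_one] at h4
        rw [Matrix.sub_apply, map_sub, h4]
        by_cases hij : i = j
        · subst hij; simp
        · simp [Matrix.one_apply_ne hij]
      choose T hT1 hT2 using fun i j => Submodule.mem_span_finite_of_mem_span (h3' i j)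
      refine ⟨Finset.univ.biUnion fun i => Finset.univ.biUnion fun j => T i j, ?_, x, hx, ?_⟩
      · intro y hy
        simp only [Finset.coe_biUnion, Set.mem_iUnion] at hy
        obtain ⟨i, _, j, _, hy⟩ := hy
        exact hT1 i j hy
      · intro i j
        refine Ideal.span_mono ?_ (hT2 i j)
        intro y hy
        simp only [Finset.coe_biUnion, Set.mem_iUnion]
        exact ⟨i, by simp, j, by simp, hy⟩
    choose! cs hcs x hx hxe using key
    let CS : Finset (R ⧸ L) := X.biUnion cs
    have hXE : ∀ e ∈ X, e ∈ El ι (R ⧸ L) := by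
      intro e he
      rw [← hX]
      exact Subgroup.subset_closure he
    have hCS : ∀ c ∈ CS, Good c := by
      intro c hc
      simp only [CS, Finset.mem_biUnion] at hc
      obtain ⟨e, he, hc⟩ := hc
      exact hcs e (hXE e he) hc
    have htw2 : (Ideal.span (CS : Set (R ⧸ L))).IsTwoSided :=
      span_twoSided _ fun x hx => (hCS x hx).1
    let π2 : (R ⧸ L) →+* (R ⧸ L) ⧸ Ideal.span (CS : Set (R ⧸ L)) := Ideal.Quotient.mk _
    have hπ2 : Function.Surjective π2 := Ideal.Quotient.mk_surjective
    refine descend h3 hfg' g' CS hCS _ π2 hπ2 (fun x => Ideal.Quotient.eq_zero_iff_mem) ?_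
    have hall : ∀ e ∈ El ι (R ⧸ L), mapGL π2 (g' * e * g'⁻¹) ∈ El ι _ := by
      intro e he
      rw [← hX] at he
      induction he using Subgroup.closure_induction with
      | mem e he =>
        have h1 : mapGL π2 ((x e)⁻¹ * (g' * e * g'⁻¹)) = 1 := by
          ext i j
          simp only [mapGL_val, Matrix.map_apply, Units.val_one]
          have h5 := hxe e (hXE e he) i j
          have h6 : ((((x e)⁻¹ * (g' * e * g'⁻¹) : (Matrix ι ι (R ⧸ L))ˣ) :
              Matrix ι ι (R ⧸ L)) - 1) i j ∈ Ideal.span (CS : Set (R ⧸ L)) := by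
            refine Ideal.span_mono ?_ h5
            intro y hy
            simp only [CS, Finset.coe_biUnion, Set.mem_iUnion]
            exact ⟨e, he, hy⟩
          have h7 : π2 (((((x e)⁻¹ * (g' * e * g'⁻¹) : (Matrix ι ι (R ⧸ L))ˣ) :
              Matrix ι ι (R ⧸ L)) - 1) i j) = 0 := Ideal.Quotient.eq_zero_iff_mem.2 h6
          rw [Matrix.sub_apply, map_sub, sub_eq_zero] at h7
          rw [h7]
          by_cases hij : i = j
          · subst hij; simp
          · simp [Matrix.one_apply_ne hij]
        rw [map_mul, map_inv, inv_mul_eq_one] at h1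
        rw [← h1]
        exact mapGL_mem π2 (hx e (hXE e he))
      | one => simp
      | mul a b _ _ ha hb =>
        have : g' * (a * b) * g'⁻¹ = (g' * a * g'⁻¹) * (g' * b * g'⁻¹) := by group
        rw [this, map_mul]
        exact mul_mem ha hb
      | inv a _ ha =>
        have : g' * a⁻¹ * g'⁻¹ = (g' * a * g'⁻¹)⁻¹ := by group
        rw [this, map_inv]
        exact inv_mem ha
    intro e he
    rw [← El_map_surj π2 hπ2] at he
    obtain ⟨e', he', rfl⟩ := he
    have := hall e' he'
    rwa [map_mul, map_mul, map_inv] at this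

theorem main (h3 : 3 ≤ Fintype.card ι) (d : ℕ) (c : Equiv.Perm (Fin d) → ℤ) (hc : c 1 = 1)
    (R : Type) [Ring R] (hPI : PI d c R) (g : (Matrix ι ι R)ˣ) : NE g := by
  classical
  have gen : ∀ (i j : ι) (hij : i ≠ j) (r : R), g * tv i j hij r * g⁻¹ ∈ El ι R := by
    intro i j hij r
    let Y : Finset R := (Finset.univ.biUnion fun a => Finset.univ.image fun b =>
        (g : Matrix ι ι R) a b) ∪ (Finset.univ.biUnion fun a => Finset.univ.image fun b =>
        ((g⁻¹ : (Matrix ι ι R)ˣ) : Matrix ι ι R) a b) ∪ {r}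
    let R0 : Subring R := Subring.closure (Y : Set R)
    have hY : ∀ y ∈ Y, y ∈ R0 := fun y hy => Subring.subset_closure hy
    have hg1 : ∀ a b, (g : Matrix ι ι R) a b ∈ R0 := by
      intro a b
      apply hY
      simp only [Y, Finset.mem_union, Finset.mem_biUnion, Finset.mem_image, Finset.mem_univ,
        true_and]
      exact Or.inl (Or.inl ⟨a, b, rfl⟩)
    have hg2 : ∀ a b, ((g⁻¹ : (Matrix ι ι R)ˣ) : Matrix ι ι R) a b ∈ R0 := by
      intro a b
      apply hY
      simp only [Y, Finset.mem_union, Finset.mem_biUnion, Finset.mem_image, Finset.mem_univ,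
        true_and]
      exact Or.inl (Or.inr ⟨a, b, rfl⟩)
    have hr : r ∈ R0 := hY r (by simp [Y])
    have hinj : Function.Injective (R0.subtype.mapMatrix : Matrix ι ι R0 →+* Matrix ι ι R) := by
      intro A B hAB
      ext a b
      exact congrFun (congrFun hAB a) b
    let g0 : (Matrix ι ι R0)ˣ :=
      { val := Matrix.of fun a b => ⟨_, hg1 a b⟩
        inv := Matrix.of fun a b => ⟨_, hg2 a b⟩
        val_inv := by
          apply hinj
          rw [map_mul, map_one]
          exact g.mul_inv
        inv_val := by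
          apply hinj
          rw [map_mul, map_one]
          exact g.inv_mul }
    have hg0 : mapGL R0.subtype g0 = g := by
      ext a b
      rfl
    have hfg : FG R0 := by
      let Y0 : Finset R0 := Y.attach.image fun y => ⟨y.1, hY y.1 y.2⟩
      refine ⟨Y0, ?_⟩
      rw [Subring.eq_top_iff']
      rintro ⟨y, hy⟩
      have : y ∈ (Subring.closure (Y0 : Set R0)).map R0.subtype := by
        rw [RingHom.map_closure]
        have h1 : (R0.subtype '' (Y0 : Set R0)) = (Y : Set R) := by
          ext w
          simp only [Y0, Set.mem_image, Finset.coe_image, Finset.mem_coe, Finset.mem_attach,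
            true_and]
          constructor
          · rintro ⟨_, ⟨⟨z, hz⟩, _, rfl⟩, rfl⟩
            exact hz
          · intro hw
            exact ⟨⟨w, hY w hw⟩, ⟨⟨w, hw⟩, rfl⟩, rfl⟩
        rw [h1]
        exact hy
      obtain ⟨z, hz, hz2⟩ := this
      have : z = ⟨y, hy⟩ := Subtype.ext hz2
      rw [← this]
      exact hz
    have hPI0 : PI d c R0 := by
      intro x
      apply Subtype.ext
      have := hPI fun i => (x i : R)
      change R0.subtype _ = R0.subtype 0
      rw [map_zero, ← this, map_sum]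
      refine Finset.sum_congr rfl fun σ _ => ?_
      rw [map_mul, map_intCast, map_list_prod, List.map_ofFn]
      rfl
    have hN : NE g0 := main_fg h3 d c hc d R0 hfg hPI0
      (fun K _ j φ hφ => rep_le d c hc hPI0 φ hφ) g0
    have h1 := mapGL_mem R0.subtype (hN _ (tv_mem' i j hij (⟨r, hr⟩ : R0)))
    rw [map_mul, map_mul, map_inv, hg0, mapGL_tv] at h1
    exact h1
  intro e he
  unfold El EL at he
  induction he using Subgroup.closure_induction with
  | mem e he =>
    obtain ⟨i, j, hij, r, _, rfl⟩ := he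
    exact gen i j hij r
  | one => simp
  | mul a b _ _ ha hb =>
    have : g * (a * b) * g⁻¹ = (g * a * g⁻¹) * (g * b * g⁻¹) := by group
    rw [this]
    exact mul_mem ha hb
  | inv a _ ha =>
    have : g * a⁻¹ * g⁻¹ = (g * a * g⁻¹)⁻¹ := by group
    rw [this]
    exact inv_mem ha

end statements

end Pool.Agent.Helper58.EN
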